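import Pool.Agent.Lib.MP_1a91b9_ntK.C.Em

/-!
# MP_1a91b9_nt (cubic stability, rank two): the descent by `1 - ω` on `y² = x³ + k²`: sums of points

Proof of `sum_mem3` (as `sum_mem` in `MP_1a91b9_ntC/Desc.lean`). If `x₁ = x₂` then `y₁ = y₂` or `y₁ = -y₂`. If `y₁ = -y₂` the sum is `0`. If
`y₁ = y₂` then `(y₁ - k)² = v³`, so `y₁ - k = ((y₁ - k) / v)³`, the point is `mu h Q` (`exists_mu`) and the sum is `mu h (Q + Q)`.
If `x₁ ≠ x₂` let `l = (y₁ - y₂) / (x₁ - x₂)`, `x₃ = l² - x₁ - x₂`, `n = y₁ - l x₁`, `y₃' = l x₃ + n`: the sum is `(x₃, -y₃')` (`add_pt` in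
`MP_1a91b9_ntW/C/Crv.lean`, or `Affine.Point.add_of_X_ne`, `Affine.slope_of_X_ne`), and the polynomial identity
`X³ + k² - (l X + n)² = (X - x₁) (X - x₂) (X - x₃)` gives `(y₁ - k) (y₂ - k) (y₃' - k) = (n - k)³` (compare the coefficients:
`x₁ + x₂ + x₃ = l²`, `x₁ x₂ + x₁ x₃ + x₂ x₃ = -2 l n`, `x₁ x₂ x₃ = n² - k²`). If `y₃' ≠ k` then `y₃' - k = ((n - k) / v)³`, so the point
`(x₃, y₃')`, minus the sum, is in the range (`exists_mu`). If `y₃' = k` then `n = k` (the product is zero), `x₃ = 0` (it is on the curve) and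
`x₁ x₂ = -2 l k`, `v³ = (y₁ - k) (y₂ - k) = l² x₁ x₂ = -2 k l³`, so `l ≠ 0` and `2 k = (-v / l)³`: excluded by `hc`.

`neg_cls`: `-P = (x, -y)`, and `(-y - k) (y - k) = -(y + k) (y - k) = -x³`; if `y ≠ -k` then `-y - k ≠ 0`.
-/

set_option autoImplicit false

namespace Pool.Agent.Lib.MP_1a91b9_ntCR

open WeierstrassCurve Pool.Agent.Lib.MP_1a91b9_ntK.C
open scoped Classical

variable {F : Type*} [Field F] [CharZero F] {W : Affine F} {z k : F}

private theorem Sum3_congr {x x' y y' : F} (hx : x = x') (hy : y = y') (h1 : W.Nonsingular x y)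
    (h2 : W.Nonsingular x' y') : Affine.Point.some x y h1 = Affine.Point.some x' y' h2 := by
  subst hx
  subst hy
  rfl

private theorem Sum3_add (h : IsK W z k) {x₁ x₂ y₁ y₂ : F}
    (h₁ : W.Nonsingular x₁ y₁) (h₂ : W.Nonsingular x₂ y₂) (hx : x₁ ≠ x₂)
    (l x₃ y₃ : F) (hl : l * (x₁ - x₂) = y₁ - y₂) (hx₃ : x₃ = l ^ 2 - x₁ - x₂)
    (hy₃ : y₃ = -(l * (x₃ - x₁) + y₁)) :
    ∃ h', Affine.Point.some x₁ y₁ h₁ + Affine.Point.some x₂ y₂ h₂ =
      Affine.Point.some x₃ y₃ h' := by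
  have ha1 : W.a₁ = 0 := by rw [h.eq, ck]
  have ha2 : W.a₂ = 0 := by rw [h.eq, ck]
  have ha3 : W.a₃ = 0 := by rw [h.eq, ck]
  have hxy : ¬(x₁ = x₂ ∧ y₁ = W.negY x₂ y₂) := fun h => hx h.1
  have hs : W.slope x₁ x₂ y₁ y₂ = l := by
    rw [Affine.slope_of_X_ne hx, div_eq_iff (sub_ne_zero.2 hx)]
    exact hl.symm
  have e1 : W.addX x₁ x₂ (W.slope x₁ x₂ y₁ y₂) = x₃ := by
    rw [hs, hx₃, Affine.addX, ha1, ha2]
    ring
  have e2 : W.addY x₁ x₂ y₁ (W.slope x₁ x₂ y₁ y₂) = y₃ := by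
    rw [Affine.addY, Affine.negAddY, e1, hs, hy₃, Affine.negY, ha1, ha3]
    ring
  rw [Affine.Point.add_some hxy]
  refine ⟨?_, ?_⟩
  · rw [← e1, ← e2]
    exact Affine.nonsingular_add h₁ h₂ hxy
  · simp only [e1, e2]

private theorem Sum3_neg (h : IsK W z k) {x y : F} (hn : W.Nonsingular x y) :
    ∃ hn' : W.Nonsingular x (-y), -Affine.Point.some x y hn = Affine.Point.some x (-y) hn' := by
  have ha1 : W.a₁ = 0 := by rw [h.eq, ck]
  have ha3 : W.a₃ = 0 := by rw [h.eq, ck]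
  have h4 : W.negY x y = -y := by
    rw [Affine.negY, ha1, ha3]
    ring
  refine ⟨by rw [← h4]; exact (W.nonsingular_neg x y).2 hn, ?_⟩
  rw [Affine.Point.neg_some]
  simp only [h4]

/-- `(y₁ - k) (y₂ - k)` is a cube: the sum is a multiple of `1 - ω`. -/
theorem sum_mem3 (h : IsK W z k) (hc : ∀ b : F, b ^ 3 ≠ 2 * k) {x₁ y₁ x₂ y₂ v : F}
    (h₁ : W.Nonsingular x₁ y₁) (h₂ : W.Nonsingular x₂ y₂) (hy₁ : y₁ ≠ k) (hy₂ : y₂ ≠ k)
    (hv : (y₁ - k) * (y₂ - k) = v ^ 3) :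
    Affine.Point.some x₁ y₁ h₁ + Affine.Point.some x₂ y₂ h₂ ∈ (mu h).range := by
  have hE₁ := (h.nons x₁ y₁).1 h₁
  have hE₂ := (h.nons x₂ y₂).1 h₂
  have hk₁ : y₁ - k ≠ 0 := sub_ne_zero.2 hy₁
  have hk₂ : y₂ - k ≠ 0 := sub_ne_zero.2 hy₂
  have hv0 : v ≠ 0 := by
    rintro rfl
    refine mul_ne_zero hk₁ hk₂ ?_
    rw [hv]
    ring
  have hv3 : v ^ 3 ≠ 0 := pow_ne_zero 3 hv0
  by_cases hxx : x₁ = x₂
  · subst hxx
    have hyy : (y₁ - y₂) * (y₁ + y₂) = 0 := by linear_combination hE₁ - hE₂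
    rcases mul_eq_zero.1 hyy with e | e
    · have e2 : y₁ = y₂ := by linear_combination e
      subst e2
      have hr : ((y₁ - k) / v) ^ 3 = y₁ - k := by
        rw [div_pow, ← hv, div_eq_iff (mul_ne_zero hk₁ hk₁)]
        ring
      obtain ⟨Q, hQ⟩ := exists_mu h h₁ ((y₁ - k) / v) hr (div_ne_zero hk₁ hv0)
      refine ⟨Q + Q, ?_⟩
      rw [map_add, hQ]
    · obtain ⟨hn', e1⟩ := Sum3_neg h h₁
      have e2 : Affine.Point.some x₁ y₂ h₂ = -Affine.Point.some x₁ y₁ h₁ := by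
        rw [e1]
        exact Sum3_congr rfl (by linear_combination e) _ _
      rw [e2, add_neg_cancel]
      exact zero_mem _
  · have hs : x₁ - x₂ ≠ 0 := sub_ne_zero.2 hxx
    obtain ⟨l, hl⟩ : ∃ l, l = (y₁ - y₂) / (x₁ - x₂) := ⟨_, rfl⟩
    have hl' : l * (x₁ - x₂) = y₁ - y₂ := by
      rw [hl, div_mul_cancel₀ _ hs]
    obtain ⟨x₃, hx₃⟩ : ∃ x₃, x₃ = l ^ 2 - x₁ - x₂ := ⟨_, rfl⟩
    obtain ⟨n, hn⟩ : ∃ n, n = y₁ - l * x₁ := ⟨_, rfl⟩
    obtain ⟨t, ht⟩ : ∃ t, t = l * x₃ + n := ⟨_, rfl⟩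
    obtain ⟨hP, e1⟩ := Sum3_add h h₁ h₂ hxx l x₃ (-t) hl' hx₃ (by rw [ht, hn]; ring)
    have f1 : y₁ = l * x₁ + n := by rw [hn]; ring
    have f2 : y₂ = l * x₂ + n := by rw [hn]; linear_combination hl'
    have A : x₁ * x₂ + x₁ * x₃ + x₂ * x₃ = -2 * l * n := by
      refine mul_left_cancel₀ hs ?_
      rw [hx₃]
      rw [f1] at hE₁
      rw [f2] at hE₂
      linear_combination hE₁ - hE₂
    have B : x₁ * x₂ * x₃ = n ^ 2 - k ^ 2 := by
      rw [f1] at hE₁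
      rw [hx₃] at A ⊢
      linear_combination -hE₁ + x₁ * A
    have key : v ^ 3 * (t - k) = (n - k) ^ 3 := by
      rw [← hv, f1, f2, ht]
      rw [hx₃] at A B ⊢
      linear_combination l ^ 3 * B + l ^ 2 * (n - k) * A
    have hQ : W.Nonsingular x₃ t := by
      have h3 := (h.nons _ _).1 hP
      rw [h.nons]
      linear_combination h3
    obtain ⟨hQ', e2⟩ := Sum3_neg h hQ
    by_cases h0 : t = k
    · exfalso
      have hnk : n - k = 0 := by
        have h3 : (n - k) ^ 3 = 0 := by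
          rw [← key, h0, sub_self, mul_zero]
        exact pow_eq_zero_iff three_ne_zero |>.1 h3
      have hx0 : x₃ = 0 := by
        have h3 := (h.nons _ _).1 hQ
        rw [h0] at h3
        have h4 : x₃ ^ 3 = 0 := by linear_combination -h3
        exact pow_eq_zero_iff three_ne_zero |>.1 h4
      have hnk' : n = k := by linear_combination hnk
      have h5 : x₁ * x₂ = -2 * l * k := by
        rw [hx0, hnk'] at A
        linear_combination A
      have h6 : v ^ 3 = -2 * k * l ^ 3 := by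
        rw [← hv, f1, f2, hnk']
        linear_combination l ^ 2 * h5
      have hl0 : l ≠ 0 := by
        rintro rfl
        apply hv3
        rw [h6]
        ring
      refine hc (-v / l) ?_
      rw [div_pow, div_eq_iff (pow_ne_zero 3 hl0)]
      linear_combination -h6
    · have h0' : t - k ≠ 0 := sub_ne_zero.2 h0
      have hnk : n - k ≠ 0 := by
        intro h3
        rw [h3] at key
        exact mul_ne_zero hv3 h0' (by rw [key]; ring)
      have hr : ((n - k) / v) ^ 3 = t - k := by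
        rw [div_pow, ← key, div_eq_iff hv3]
        ring
      obtain ⟨Q, hQm⟩ := exists_mu h hQ ((n - k) / v) hr (div_ne_zero hnk hv0)
      refine ⟨-Q, ?_⟩
      rw [map_neg, hQm, e2, e1]

theorem neg_cls (h : IsK W z k) {x y : F} (hn : W.Nonsingular x y) (hy : y ≠ k) (hy' : y ≠ -k) :
    ∃ hn' : W.Nonsingular x (-y), -Affine.Point.some x y hn = Affine.Point.some x (-y) hn' ∧
      -y ≠ k ∧ (-y - k) * (y - k) = (-x) ^ 3 := by
  obtain ⟨hn', e⟩ := Sum3_neg h hn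
  refine ⟨hn', e, ?_, ?_⟩
  · intro h1
    exact hy' (by linear_combination -h1)
  · have hE := (h.nons x y).1 hn
    linear_combination -hE

end Pool.Agent.Lib.MP_1a91b9_ntCR
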