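import Pool.Agent.Lib.MP_1a91b9_ntK.C.Tors3

/-!
# MP_1a91b9_nt (cubic stability, rank two): the classes of `y - k` on `y² = x³ + k²`, `2 k = √-3`, over `ℚ(√-3)`

`l = 1 + 2 om = √-3`, `k = l / 2`.

Proof of `val3`. Put `a = y - k ≠ 0`, `b = y + k = a + l`, `a b = x³`. Let `v` be a place which does not contain `s3`: `v l = 1`
(`val_one`, `coe_s3` or `lK_eq`). If `v a > 1` then `v b = v a` and `(v a)² = (v x)³`, so `3` divides the exponent of `v a`. If `v a = 1`: clear. If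
`v a < 1` then `v b = v l = 1` and `v a = (v x)³`. So `Cv (v.valuation K a)` for all these places (if `x = 0` then `a b = 0`, `b = 0`,
`a = -l`, `v a = 1`). Let `v₀` be the place of `s3`, `v₀ l = exp (-1)` (`val_l`), `v₀ a = exp (-e)`, and `j ∈ {0, 1, 2}` with `j ≡ e`
modulo `3`. Then `a / l ^ j` has all its valuations divisible by `3`, and `cube_of` gives `a / l ^ j = wO ^ i * b³`; `wO ^ 3 = 1`
(`wO_cube`) reduces `i` modulo `3`, and `(wO : K) = om` (`coe_wO`).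

Proof of `l_not_cube`, `not_cube_1`, .. : the valuation at `s3` of a cube is divisible by `3`: `v₀ l = exp (-1)`,
`v₀ (-3 om) = exp (-2)`, and `2 + om` is `-(om ^ 2) * l` up to a unit: `(2 + om) = l * (-om)...` (check: `l (1 + 2 om) = -3`;
`(2 + om) * l = 2 + 5 om + 2 om² = 3 om`, so `2 + om = 3 om / l = -om l`), so `v₀ (2 + om) = exp (-1)`. For `-om`: if `b³ = -om` then `b` is
integral (`om` is), a unit, and by `unit_w` or directly (`isUnit_iff`, the six units `± wO ^ i` have the cubes `± 1`) `b³ = 1` or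
`-1`; but `om ≠ ± 1`.
-/

set_option autoImplicit false

namespace Pool.Agent.Lib.MP_1a91b9_ntCR

open NumberField IsDedekindDomain WithZero Pool.Agent.Lib.MP_1a91b9_ntT Pool.Agent.Lib.MP_1a91b9_ntK.C
open Pool.Agent.Lib.MP_1a91b9_ntH (wO s3)

private theorem Val_away {ν : Valuation K ℤᵐ⁰} {a l x : K} (ha : a ≠ 0) (hl : ν l = 1)
    (hx : a * (a + l) = x ^ 3) : Cv (ν a) := by
  obtain ⟨n, hn⟩ := exists_nu ν ha
  by_cases hb : a + l = 0
  · have h1 : a = -l := eq_neg_of_add_eq_zero_left hb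
    refine ⟨0, ?_⟩
    rw [h1, Valuation.map_neg, hl, mul_zero, exp_zero]
  · obtain ⟨n', hn'⟩ := exists_nu ν hb
    have hx0 : x ≠ 0 := by
      rintro rfl
      rw [zero_pow (by norm_num)] at hx
      exact mul_ne_zero ha hb hx
    obtain ⟨m, hm⟩ := exists_nu ν hx0
    have h1 := congrArg ν hx
    rw [map_mul, map_pow, hn, hn', hm, ← exp_add, ← exp_nsmul, exp_inj, nsmul_eq_mul] at h1
    push_cast at h1
    rw [hn, cv_exp]
    rcases lt_trichotomy n 0 with h2 | h2 | h2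
    · have h3 : ν a < ν l := by
        rw [hn, hl, ← exp_zero, exp_lt_exp]
        exact h2
      have h4 := ν.map_add_eq_of_lt_left h3
      rw [add_comm l a, hn', hl, ← exp_zero, exp_inj] at h4
      omega
    · omega
    · have h3 : ν l < ν a := by
        rw [hn, hl, ← exp_zero, exp_lt_exp]
        exact h2
      have h4 := ν.map_add_eq_of_lt_right h3
      rw [add_comm l a, hn', hn, exp_inj] at h4
      omega

private theorem Val_l0 : (pw s3 Pool.Agent.Lib.MP_1a91b9_ntH.C.s3_prime).valuation K (1 + 2 * om) =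
    exp (-1) := by
  rw [← lK_eq]
  exact val_l (mem_pw _ _)

private theorem Val_ln : (1 + 2 * om : K) ≠ 0 := by
  rw [← lK_eq]
  exact lK_ne

private theorem Val_not {c : K} {e : ℤ} (he : ¬ (3 : ℤ) ∣ e)
    (hc : (pw s3 Pool.Agent.Lib.MP_1a91b9_ntH.C.s3_prime).valuation K c = exp e) (b : K) :
    b ^ 3 ≠ c := by
  intro h
  have hb : b ≠ 0 := by
    rintro rfl
    rw [zero_pow (by norm_num)] at h
    rw [← h, map_zero] at hc
    exact exp_ne_zero hc.symm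
  obtain ⟨n, hn⟩ := exists_nu ((pw s3 Pool.Agent.Lib.MP_1a91b9_ntH.C.s3_prime).valuation K) hb
  rw [← h, map_pow, hn, ← exp_nsmul, exp_inj, nsmul_eq_mul] at hc
  push_cast at hc
  apply he
  exact ⟨n, hc.symm⟩

private theorem Val_om : (pw s3 Pool.Agent.Lib.MP_1a91b9_ntH.C.s3_prime).valuation K om = 1 := by
  have h1 : om ^ 3 = 1 := by linear_combination (om - 1) * Pool.Agent.Lib.MP_1a91b9_ntH.om_quad
  have h2 := congrArg ((pw s3 Pool.Agent.Lib.MP_1a91b9_ntH.C.s3_prime).valuation K) h1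
  rw [map_pow, map_one] at h2
  exact (pow_eq_one_iff_of_nonneg zero_le (by norm_num)).1 h2

theorem val3 {x y : K} (h : y ^ 2 = x ^ 3 + ((1 + 2 * om) / 2) ^ 2) (hy : y ≠ (1 + 2 * om) / 2) :
    ∃ (i : Fin 3 × Fin 3) (b : K), b ≠ 0 ∧
      y - (1 + 2 * om) / 2 = (om ^ (i.1 : ℕ) * (1 + 2 * om) ^ (i.2 : ℕ)) * b ^ 3 := by
  have ha : y - (1 + 2 * om) / 2 ≠ 0 := sub_ne_zero.2 hy
  set a := y - (1 + 2 * om) / 2 with hadef
  have hx : a * (a + (1 + 2 * om)) = x ^ 3 := by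
    rw [hadef]
    linear_combination h
  obtain ⟨n, hn⟩ := exists_nu ((pw s3 Pool.Agent.Lib.MP_1a91b9_ntH.C.s3_prime).valuation K) ha
  have hj0 : 0 ≤ (-n) % 3 := Int.emod_nonneg _ (by norm_num)
  have hj3 : (-n) % 3 < 3 := Int.emod_lt_of_pos _ (by norm_num)
  obtain ⟨j, hj⟩ := Int.eq_ofNat_of_zero_le hj0
  have hjlt : j < 3 := by omega
  have hlj : ((1 + 2 * om : K)) ^ j ≠ 0 := pow_ne_zero _ Val_ln
  have key : ∀ v : HeightOneSpectrum (𝓞 K), Cv (v.valuation K (a / (1 + 2 * om) ^ j)) := by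
    intro v
    by_cases hv : s3 ∈ v.asIdeal
    · rw [eq_pw Pool.Agent.Lib.MP_1a91b9_ntH.C.s3_prime hv, map_div₀, map_pow, hn, Val_l0,
        ← exp_nsmul, ← exp_sub, cv_exp, nsmul_eq_mul]
      omega
    · have hl1 : v.valuation K (1 + 2 * om) = 1 := by
        rw [← lK_eq]
        exact Pool.Agent.Lib.MP_1a91b9_ntH.C.val_one hv
      rw [map_div₀, map_pow, hl1, one_pow, div_one]
      exact Val_away ha hl1 hx
  obtain ⟨i, b, hb, hab⟩ := cube_of (div_ne_zero ha hlj) key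
  have hi3 : i % 3 < 3 := Nat.mod_lt _ (by norm_num)
  refine ⟨(⟨i % 3, hi3⟩, ⟨j, hjlt⟩), b, hb, ?_⟩
  have hw : ((wO ^ i : 𝓞 K) : K) = om ^ (i % 3) := by
    have h1 : wO ^ i = wO ^ (i % 3) := by
      conv_lhs => rw [← Nat.div_add_mod i 3]
      rw [pow_add, pow_mul, wO_cube, one_pow, one_mul]
    rw [h1]
    exact map_pow (algebraMap (𝓞 K) K) wO (i % 3)
  rw [hw, div_eq_iff hlj] at hab
  change a = (om ^ (i % 3) * (1 + 2 * om) ^ j) * b ^ 3
  rw [hab]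
  ring

theorem l_not_cube (b : K) : b ^ 3 ≠ 1 + 2 * om := by
  exact Val_not (by norm_num) Val_l0 b

theorem om_not_cube (b : K) : b ^ 3 ≠ -om := by
  intro h
  have hint : IsIntegral ℤ b := by
    refine IsIntegral.of_pow (n := 3) (by norm_num) ?_
    rw [h]
    exact (RingOfIntegers.isIntegral_coe wO).neg
  let β : 𝓞 K := ⟨b, hint⟩
  have hβ : β ^ 3 = -wO := by
    apply RingOfIntegers.ext
    have e1 : ((β ^ 3 : 𝓞 K) : K) = b ^ 3 := map_pow (algebraMap (𝓞 K) K) β 3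
    have e2 : ((-wO : 𝓞 K) : K) = -om := map_neg (algebraMap (𝓞 K) K) wO
    rw [e1, e2]
    exact h
  obtain ⟨p, hp⟩ := Pool.Agent.Lib.MP_1a91b9_ntH.exists_coords β
  have hw := Pool.Agent.Lib.MP_1a91b9_ntH.wO_quad
  rw [hp] at hβ
  have h1 : ((p.1 ^ 3 + p.2 ^ 3 - 3 * p.1 * p.2 ^ 2 : ℤ) : 𝓞 K) +
      ((3 * p.1 ^ 2 * p.2 - 3 * p.1 * p.2 ^ 2 : ℤ) : 𝓞 K) * wO = ((0 : ℤ) : 𝓞 K) + ((-1 : ℤ) : 𝓞 K) * wO := by
    push_cast
    linear_combination hβ - (3 * (p.1 : 𝓞 K) * (p.2 : 𝓞 K) ^ 2 + (p.2 : 𝓞 K) ^ 3 * (wO - 1)) * hw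
  have h2 := (Pool.Agent.Lib.MP_1a91b9_ntH.isEis.eq_iff.1 h1).2
  have h3 : (3 : ℤ) ∣ -1 := ⟨p.1 ^ 2 * p.2 - p.1 * p.2 ^ 2, by rw [← h2]; ring⟩
  norm_num at h3

theorem three_om_not_cube (b : K) : b ^ 3 ≠ -3 * om := by
  refine Val_not (e := -2) (by norm_num) ?_ b
  have e : (-3 * om : K) = (1 + 2 * om) ^ 2 * om := by
    rw [← lK_eq, lK_sq]
  rw [e, map_mul, map_pow, Val_l0, Val_om, mul_one, ← exp_nsmul]
  rfl

theorem two_om_not_cube (b : K) : b ^ 3 ≠ 2 + om := by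
  refine Val_not (e := -1) (by norm_num) ?_ b
  have e : (2 + om : K) = -(om * (1 + 2 * om)) := by
    linear_combination 2 * Pool.Agent.Lib.MP_1a91b9_ntH.om_quad
  rw [e, Valuation.map_neg, map_mul, Val_l0, Val_om, one_mul]

end Pool.Agent.Lib.MP_1a91b9_ntCR
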