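import Pool.Agent.Lib.MP_1a91b9_ntCR.Her
import Pool.Agent.Lib.MP_1a91b9_ntCR.Sum3
import Pool.Agent.Lib.MP_1a91b9_ntCR.Val

/-!
# MP_1a91b9_nt (cubic stability, rank two): the point `(1, 1/2)` of `y² = x³ - 3/4` has infinite order over `ℚ(√-3)`

`l = 1 + 2 om = √-3`, `k = l / 2`; `y² = x³ + k² = x³ - 3/4`.

Proof (as `q8_inf` in `MP_1a91b9_ntC/Rk8.lean`). `isk`: definitions (`om_quad`). `p0_inf`: let `P = (1, 1/2)` be of finite order.
`tors_div3` for `mu isk`, `t = tq isk = (0, k)` (`mu_ker_all`; `3 • t = 0` by `tq_add_self`; `tq_notMem3`: if `tq` is in the range then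
`-tq = (0, -k)` is (`tq_neg`), and by `cfn_cube` `-2 k = -l` is a cube, so `l` is, against `l_not_cube`): one of `P`, `P + t`, `P - t` is
`mu Q`, so (`cfn_cube`) its ordinate minus `k` is a cube. `P`: `1/2 - k = -om` (`om_not_cube`). `P + t = (om² - 1, 1 - om - k)` (the slope
is `1/2 - k = -om`): the ordinate minus `k` is `-3 om` (`three_om_not_cube`). `P - t = (om - 1, k + 2 + om)` (the slope is
`1/2 + k = 1 + om`): the ordinate minus `k` is `2 + om` (`two_om_not_cube`). (`Affine.Point.add_of_X_ne`,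
`Affine.slope_of_X_ne`; `om² + om + 1 = 0`, `om_quad`.)
-/

set_option autoImplicit false

namespace Pool.Agent.Lib.MP_1a91b9_ntCR

open WeierstrassCurve NumberField Pool.Agent.Lib.MP_1a91b9_ntT Pool.Agent.Lib.MP_1a91b9_ntK.C
open Pool.Agent.Lib.MP_1a91b9_ntH (wO s3)

section
open scoped Classical

private theorem RkA_om : (om : K) ^ 2 + om + 1 = 0 := Pool.Agent.Lib.MP_1a91b9_ntH.om_quad

theorem isk : IsK (ck ((1 + 2 * om) / 2 : K)).toAffine om ((1 + 2 * om) / 2) := by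
  refine ⟨rfl, RkA_om, ?_⟩
  intro h0
  have h1 : (1 + 2 * om : K) = 0 := by linear_combination 2 * h0
  have h3 : (3 : K) = 0 := by linear_combination 4 * RkA_om - (1 + 2 * om) * h1
  norm_num at h3

theorem p0_ns : (ck ((1 + 2 * om) / 2 : K)).toAffine.Nonsingular 1 (1 / 2) := by
  rw [isk.nons]
  linear_combination (-1) * RkA_om

theorem tq_notMem3 : tq isk ∉ (mu isk).range := by
  rintro ⟨P, hP⟩
  have h1 : mu isk (-P) = tq isk.neg := by rw [map_neg, hP, tq_neg]
  have h2 := cfn_cube isk (-P) ((isk.neg.nons 0 (-((1 + 2 * om) / 2))).2 (by ring)) h1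
  refine l_not_cube (-(cfn om ((1 + 2 * om) / 2) (-P))) ?_
  linear_combination -h2

private theorem RkA_add {e : K}
    (hn : (ck ((1 + 2 * om) / 2 : K)).toAffine.Nonsingular 0 e) :
    ∃ (x : K) (hn' : (ck ((1 + 2 * om) / 2 : K)).toAffine.Nonsingular x
      (-((1 / 2 - e) * ((1 / 2 - e) ^ 2 - 2) + 1 / 2))),
      Affine.Point.some 1 (1 / 2) p0_ns + Affine.Point.some 0 e hn = Affine.Point.some x _ hn' := by
  have hx : (1 : K) ≠ 0 := one_ne_zero
  have hsl : (ck ((1 + 2 * om) / 2 : K)).toAffine.slope 1 0 (1 / 2) e = 1 / 2 - e := by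
    rw [Affine.slope_of_X_ne hx, sub_zero, div_one]
  have h1 : (ck ((1 + 2 * om) / 2 : K)).toAffine.addY 1 0 (1 / 2)
      ((ck ((1 + 2 * om) / 2 : K)).toAffine.slope 1 0 (1 / 2) e) =
      -((1 / 2 - e) * ((1 / 2 - e) ^ 2 - 2) + 1 / 2) := by
    rw [hsl, Affine.addY, Affine.negAddY, Affine.negY, Affine.addX]
    unfold ck
    dsimp only
    ring
  have h2 := Affine.Point.add_of_X_ne (h₁ := p0_ns) (h₂ := hn) hx
  have h3 := Affine.nonsingular_add p0_ns hn fun hxy => hx hxy.left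
  refine ⟨_, by rw [← h1]; exact h3, ?_⟩
  rw [h2, Affine.Point.some.injEq]
  exact ⟨rfl, h1⟩

/-- The point has infinite order. -/
theorem p0_inf [Module.Finite ℤ (ck ((1 + 2 * om) / 2 : K)).toAffine.Point] :
    ¬ IsOfFinAddOrder (Affine.Point.some 1 (1 / 2) p0_ns) := by
  intro h
  have h3 : 3 • tq isk = 0 := by
    rw [succ_nsmul, two_nsmul, tq_add_self, neg_add_cancel]
  rcases tors_div3 (mu isk) (tq isk) h3 (mu_ker_all isk) tq_notMem3 _ h with h1 | h1 | h1
  · obtain ⟨Q, hQ⟩ := h1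
    have h2 := cfn_cube isk Q _ hQ
    refine om_not_cube _ (h2.trans ?_)
    ring
  · obtain ⟨Q, hQ⟩ := h1
    obtain ⟨x, hn', e⟩ := RkA_add (e := (1 + 2 * om) / 2)
      ((isk.nons 0 ((1 + 2 * om) / 2)).2 (by ring))
    have h2 := cfn_cube isk Q hn' (hQ.trans e)
    refine three_om_not_cube _ (h2.trans ?_)
    linear_combination (om - 1) * RkA_om
  · obtain ⟨Q, hQ⟩ := h1
    obtain ⟨x, hn', e⟩ := RkA_add (e := -((1 + 2 * om) / 2))
      ((isk.neg.nons 0 (-((1 + 2 * om) / 2))).2 (by ring))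
    have h4 : Affine.Point.some 1 (1 / 2) p0_ns - tq isk =
        Affine.Point.some 1 (1 / 2) p0_ns + tq isk.neg := by
      rw [tq_neg, sub_eq_add_neg]
    have h2 := cfn_cube isk Q hn' ((hQ.trans h4).trans e)
    refine two_om_not_cube _ (h2.trans ?_)
    linear_combination (-om - 2) * RkA_om

end

end Pool.Agent.Lib.MP_1a91b9_ntCR
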