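import Pool.Agent.Lib.MP_1a91b9_ntCR.Nine
import Pool.Agent.Lib.MP_1a91b9_ntCR.RkA
import Pool.Agent.Lib.MP_1a91b9_ntK.A.LocDef
import Pool.Agent.Lib.MP_17a322_nt.VJ.MW4

/-!
# MP_1a91b9_nt (cubic stability, rank two): the rank of `y² + √-3 y = x³` over `ℚ(√-3)` is two

`l = 1 + 2 om = √-3`, `k = l / 2`; `y² = x³ + k² = x³ - 3/4`.

Proof (as `rk8'`, `rk8` in `MP_1a91b9_ntC/Rk8.lean`). `rk_ck`: `herb3` with `om = omP isk` (`om_sum`), `mu_apply`, `p0_inf`,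
`tq_notMem3`, `index_le_card` with `ι = Fin 3 × Fin 3`, `c i = om ^ i.1 * l ^ i.2` (`val3` and `(isk.nons x y).1`; `(2 k)² = l²`:
`i = (0, 2)`, `b = 1`; `1`: `i = (0, 0)`, `b = 1`; `l_not_cube`), `Fintype.card = 9`, and Mordell-Weil
(`Pool.Agent.Lib.MP_17a322_nt.VJ.mordell_weil`; `Δ ≠ 0`).

`rk_WD`: `WD s3` is `y² + l y = x³` (`(s3 : K) = 1 + 2 om`, `coe_s3` or `coe_wO`), and the change of variables with
`(u, r, s, t) = (1, 0, 0, ∓ k)` gives `ck k` (`exists_point_equiv` in `MP_1a91b9_nt/VcPoint.lean`; `LinearEquiv.finrank_eq` for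
`AddEquiv.toIntLinearEquiv`). For the `DecidableEq` see `rk8`.
-/

set_option autoImplicit false

namespace Pool.Agent.Lib.MP_1a91b9_ntCR

open WeierstrassCurve NumberField Pool.Agent.Lib.MP_1a91b9_ntT Pool.Agent.Lib.MP_1a91b9_ntK
  Pool.Agent.Lib.MP_1a91b9_ntK.C
open Pool.Agent.Lib.MP_1a91b9_ntH (wO s3)

section
open scoped Classical

theorem rk_ck : Module.finrank ℤ (ck ((1 + 2 * om) / 2 : K)).toAffine.Point = 2 := by
  have hell : (ck ((1 + 2 * om) / 2 : K)).IsElliptic := by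
    refine ⟨isUnit_iff_ne_zero.2 ?_⟩
    have hd : (ck ((1 + 2 * om) / 2 : K)).Δ = -432 * (((1 + 2 * om) / 2 : K) ^ 2) ^ 2 := by
      simp only [ck, WeierstrassCurve.Δ, WeierstrassCurve.b₂, WeierstrassCurve.b₄,
        WeierstrassCurve.b₆, WeierstrassCurve.b₈]
      ring
    rw [hd]
    exact mul_ne_zero (by norm_num) (pow_ne_zero 2 (pow_ne_zero 2 isk.hk))
  have hfg : AddGroup.FG (ck ((1 + 2 * om) / 2 : K)).toAffine.Point :=
    Pool.Agent.Lib.MP_17a322_nt.VJ.mordell_weil (ck ((1 + 2 * om) / 2 : K))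
  have hfin : Module.Finite ℤ (ck ((1 + 2 * om) / 2 : K)).toAffine.Point :=
    Module.Finite.iff_addGroup_fg.2 hfg
  obtain ⟨h9, h0⟩ := index_le_card isk (fun b hb => l_not_cube b (by rw [hb]; ring))
    (ι := Fin 3 × Fin 3) (fun i => om ^ (i.1 : ℕ) * (1 + 2 * om) ^ (i.2 : ℕ))
    (fun x y hn hy => val3 ((isk.nons x y).1 hn) hy)
    ⟨(0, 2), 1, one_ne_zero, by
      change (2 * ((1 + 2 * om) / 2 : K)) ^ 2 = om ^ 0 * (1 + 2 * om) ^ 2 * 1 ^ 3
      ring⟩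
    ⟨(0, 0), 1, one_ne_zero, by
      change (1 : K) = om ^ 0 * (1 + 2 * om) ^ 0 * 1 ^ 3
      ring⟩
  rw [Fintype.card_prod, Fintype.card_fin] at h9
  have h3 : 3 • tq isk = 0 := by
    rw [show (3 : ℕ) = 2 + 1 from rfl, add_nsmul, two_nsmul, one_nsmul, tq_add_self,
      neg_add_cancel]
  exact herb3 (omP isk) (om_sum isk) (mu isk) (mu_apply isk) (tq isk) h3 tq_notMem3 h9 h0 _ p0_inf

end

/-- **The rank of `y² + √-3 y = x³` over `ℚ(√-3)` is two.** -/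
theorem rk_WD [DecidableEq K] : Module.finrank ℤ (WD s3).toAffine.Point = 2 := by
  rename_i dec
  obtain ⟨C, hC⟩ : ∃ C : VariableChange K, C = ⟨1, 0, 0, -((1 + 2 * om) / 2)⟩ := ⟨_, rfl⟩
  have hCW : C • WD s3 = ck ((1 + 2 * om) / 2 : K) := by
    have hui : ((C.u⁻¹ : Kˣ) : K) = 1 := by
      rw [hC]
      simp
    have hw : WD s3 = ⟨0, 0, 1 + 2 * om, 0, 0⟩ := by
      rw [WD, Pool.Agent.Lib.MP_1a91b9_ntH.C.coe_s3]
    rw [hw, ck]
    ext
    · rw [variableChange_a₁, hui, hC]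
      ring
    · rw [variableChange_a₂, hui, hC]
      ring
    · rw [variableChange_a₃, hui, hC]
      ring
    · rw [variableChange_a₄, hui, hC]
      ring
    · rw [variableChange_a₆, hui, hC]
      ring
  obtain ⟨e, -⟩ := Pool.Agent.Lib.MP_1a91b9_nt.exists_point_equiv (WD s3) C
  have h1 := e.toIntLinearEquiv.finrank_eq
  rw [← h1, hCW]
  have h : dec = Classical.decEq K := Subsingleton.elim _ _
  subst h
  exact rk_ck

end Pool.Agent.Lib.MP_1a91b9_ntCR
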