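import Pool.Agent.Lib.MP_1a91b9_ntCR.LOrd
import Pool.Agent.Lib.MP_1a91b9_ntCR.RkB
import Pool.Agent.Lib.MP_1a91b9_ntI.TrLs
import Pool.Agent.Lib.MP_1a91b9_ntI.IsoQ

/-!
# MP_1a91b9_nt (cubic stability, rank two): the curve `y² + a y = x³`, `a² = -3`, over every quadratic field which
contains `a`
-/

set_option autoImplicit false

namespace Pool.Agent.Lib.MP_1a91b9_ntCR

open NumberField WeierstrassCurve Pool.Agent.Lib.MP_1a91b9_ntT Pool.Agent.Lib.MP_1a91b9_ntK
open Pool.Agent.Lib.MP_1a91b9_ntH (wO s3 s3_sq)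
open Pool.Agent.Lib.MP_1a91b9_nuI (HasJ)

section
open scoped Classical

/-- The ranks over isomorphic fields. -/
theorem rk_map {F F' : Type} [Field F] [Field F'] (e : F ≃+* F') (W : WeierstrassCurve F) :
    Module.finrank ℤ (W.map (e : F →+* F')).toAffine.Point = Module.finrank ℤ W.toAffine.Point := by
  let _ : Algebra F F' := (e : F →+* F').toAlgebra
  have hb : Function.Bijective (algebraMap F F') := e.bijective
  have e : F ≃ₐ[F] F' := AlgEquiv.ofBijective (Algebra.ofId F F') hb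
  have hi : Function.Injective (Affine.Point.map (W' := W.toAffine) (e : F →ₐ[F] F')) :=
    Affine.Point.map_injective _
  have hs : Function.Surjective (Affine.Point.map (W' := W.toAffine) (e : F →ₐ[F] F')) := by
    intro P
    refine ⟨Affine.Point.map (W' := W.toAffine) (e.symm : F' →ₐ[F] F) P, ?_⟩
    rw [Affine.Point.map_map]
    have h1 : (e : F →ₐ[F] F').comp (e.symm : F' →ₐ[F] F) = AlgHom.id F F' := by
      ext x
      simp
    rw [h1]
    exact Affine.Point.map_id P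
  have h1 := (AddEquiv.ofBijective _ ⟨hi, hs⟩).toIntLinearEquiv.finrank_eq
  have h2 : W.baseChange F = W := WeierstrassCurve.map_id W
  have h3 : Module.finrank ℤ (W.baseChange F).toAffine.Point =
    Module.finrank ℤ (W.baseChange F').toAffine.Point := h1
  rw [h2] at h3
  exact h3.symm

/-- **Order and rank two** over every quadratic field which contains `a = √-3`. -/
theorem base2 {F : Type} [Field F] [NumberField F] (hF : Module.finrank ℚ F = 2) {a : F}
    (ha : a ^ 2 = -3) :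
    (∃ g : ℂ → ℂ, Differentiable ℂ g ∧ (∀ s : ℂ, 3 / 2 < s.re →
      g s = (⟨0, 0, a, 0, 0⟩ : WeierstrassCurve F).LSeries s) ∧ analyticOrderAt g 1 = 2) ∧
    Module.finrank ℤ (⟨0, 0, a, 0, 0⟩ : WeierstrassCurve F).toAffine.Point = 2 := by
  have hK2 : Module.finrank ℚ K = 2 := Pool.Agent.Lib.MP_1a91b9_ntH.finrank_K
  have hs3 : ((s3 : 𝓞 K) : K) ^ 2 = ((-3 : ℤ) : K) := by
    have h := congrArg (fun z : 𝓞 K => (z : K)) s3_sq
    push_cast at h ⊢
    exact h
  obtain ⟨e, he⟩ := Pool.Agent.Lib.MP_1a91b9_ntI.iso_sq (a := -3) hK2 hF (x := ((s3 : 𝓞 K) : K))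
    (x' := a) hs3 (by
      rw [ha]
      push_cast
      rfl) (by
      rintro ⟨r, hr⟩
      nlinarith [mul_self_nonneg r])
  have hW : (WD s3).map (e : K →+* F) = (⟨0, 0, a, 0, 0⟩ : WeierstrassCurve F) :=
    WeierstrassCurve.ext (map_zero _) (map_zero _) he (map_zero _) (map_zero _)
  have hj : HasJ (WD s3) 0 := by
    unfold HasJ WD WeierstrassCurve.c₄ WeierstrassCurve.b₂ WeierstrassCurve.b₄
    push_cast
    ring
  obtain ⟨g, h1, h2, h3⟩ := exists_g
  refine ⟨⟨g, h1, fun s hs => ?_, h3⟩, ?_⟩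
  · rw [h2 s hs, ← hW]
    exact (Pool.Agent.Lib.MP_1a91b9_ntI.ls_e_hasJ e hj s).symm
  · rw [← hW, rk_map]
    exact rk_WD

end

end Pool.Agent.Lib.MP_1a91b9_ntCR
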