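import Mathlib

/-!
# MP_1a91b9_nt (cubic stability, rank two): the theta series of the Hecke character of `y² + √-3 y = x³`

The L-series over `ℚ(√-3)` of this curve is the product of `L(s) = ∑ cf p * nf p ^ (-s)` over `p = (m, n) ∈ ℤ × ℤ` and of
its conjugate; `1 + 3 m + 3 n ζ` runs over the algebraic integers congruent to `1` modulo `3`, `nf p` is its norm and
`cf p` is its conjugate times the cubic symbol `ζ ^ (-n)`.
-/

set_option autoImplicit false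

namespace Pool.Agent.Lib.MP_1a91b9_ntCR

open HurwitzZeta Real

noncomputable section

/-- `exp (2 π i / 3)` -/
def zw : ℂ := ⟨-1 / 2, √3 / 2⟩

/-- the coefficients: `ζ ^ (-n)` times the conjugate of `1 + 3 m + 3 n ζ` -/
def cf (p : ℤ × ℤ) : ℂ := zw ^ (-p.2) * (1 + 3 * (p.1 : ℂ) + 3 * (p.2 : ℂ) * zw ^ 2)

/-- the norm of `1 + 3 m + 3 n ζ` -/
def nf (p : ℤ × ℤ) : ℤ := (1 + 3 * p.1) ^ 2 - 3 * p.2 * (1 + 3 * p.1) + 9 * p.2 ^ 2

/-- the scale `2 / (9 √3)` -/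
def sc : ℝ := 2 / (9 * √3)

/-- the even kernel at `r / 6` -/
def ev (r : ℕ) (x : ℝ) : ℝ := evenKernel ((r / 6 : ℝ) : UnitAddCircle) x

/-- the odd kernel at `r / 6` -/
def od (r : ℕ) (x : ℝ) : ℝ := oddKernel ((r / 6 : ℝ) : UnitAddCircle) x

/-- the theta series in terms of the kernels at `A = 2 t / √3` and `B = 27 A = 18 √3 t` -/
def ff (t : ℝ) : ℝ :=
  3 * od 2 (2 * t / √3) * (ev 0 (18 * √3 * t) - ev 2 (18 * √3 * t)) -
    3 * od 1 (2 * t / √3) * (ev 3 (18 * √3 * t) - ev 1 (18 * √3 * t)) +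
    27 * ev 2 (2 * t / √3) * od 2 (18 * √3 * t) - 27 * ev 1 (2 * t / √3) * od 1 (18 * √3 * t)

/-- `exp (-π sc b) - exp (-π sc b t)` -/
def ph (t b : ℝ) : ℝ := rexp (-(π * sc * b)) - rexp (-(π * sc * b * t))

/-- the lower bounds -/
def bb (p : ℤ × ℤ) : ℝ :=
  (if p = (-1, 0) then 2 else 0) - (if p = (1, 0) then 1 / 2 else 0) -
    (1 / 10) * (1 / 2) ^ (p.1.natAbs + p.2.natAbs)

/-- The properties of the theta series. -/
structure FD (f : ℝ → ℝ) : Prop where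
  hs : ∀ t : ℝ, 0 < t → HasSum (fun p : ℤ × ℤ => cf p * (rexp (-π * (nf p * sc) * t) : ℂ)) ((f t : ℝ) : ℂ)
  fc : ContinuousOn f (Set.Ioi 0)
  fe : ∀ t : ℝ, 0 < t → f (1 / t) = -(t ^ 2 * f t)
  dec : ∃ c : ℝ, 0 < c ∧ f =O[Filter.atTop] fun t => rexp (-c * t)
  pos : ∀ t : ℝ, 1 < t → 0 < f t

end

end Pool.Agent.Lib.MP_1a91b9_ntCR
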