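import Mathlib

/-!
# MP_1a91b9_nt (cubic stability, rank two): finitely generated groups with an automorphism `om`,
`1 + om + om² = 0`, and `mu = 1 - om`

Proof. As `tors_div`, `herb` in `MP_1a91b9_ntC/Tors.lean` (there `mu² = -2`, here `mu (mu x) = -(3 • om x)`).

`tors_div3`: on the finite group `T` of the elements of finite order, `f = mu` restricted to `T` has a kernel of order `≤ 3`
(`⊂ {0, t, -t}`), so its range has the index `≤ 3` in `T`. The three classes of `0`, `t`, `-t` modulo the range are different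
(`t ∉ range`; if `2 t` is in the range then `4 t = t` (`3 t = 0`) is), so the index is `3` and every class is one of the three.

`herb3`, upper bound: `S` the torsion submodule, `m` the map induced by `mu` on the free quotient `M ⧸ S`. The preimage in `M` of
`m.range` contains `mu.range` and `t`, and `0, t, -t` are in different classes modulo `mu.range`, so its relative index is at least
`3` and `m.range.index ≤ 9 / 3 = 3`. The multiples of `3` in `M ⧸ S` are `m (m (..))` (`om` induces an automorphism: `om³ = 1`), so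
`3 ^ finrank = index of the multiples of 3 ≤ 3 * 3`, `finrank ≤ 2`.
Lower bound: `x0` and `om x0` are linearly independent: `a x0 + b om x0 = 0` implies (apply `a + b om²`)
`(a² - a b + b²) x0 = 0`.
-/

set_option autoImplicit false

namespace Pool.Agent.Lib.MP_1a91b9_ntCR

open Module

section

variable {M : Type*} [AddCommGroup M] [Module.Finite ℤ M]

omit [Module.Finite ℤ M] in
private theorem Her_mem {x : M} : x ∈ Submodule.torsion ℤ M ↔ IsOfFinAddOrder x := by
  rw [← AddCommGroup.mem_torsion, ← Submodule.torsion_int]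
  rfl

private theorem Her_fin : Finite (Submodule.torsion ℤ M) :=
  Module.finite_of_fg_torsion _ (Submodule.torsion_isTorsion)

theorem tors_div3 (mu : M →+ M) (t : M) (ht : 3 • t = 0)
    (hker : ∀ x, mu x = 0 → x = 0 ∨ x = t ∨ x = -t) (htr : t ∉ mu.range) (x : M)
    (hx : IsOfFinAddOrder x) : x ∈ mu.range ∨ x + t ∈ mu.range ∨ x - t ∈ mu.range := by
  classical
  have hfin : Finite (Submodule.torsion ℤ M) := Her_fin
  obtain ⟨T, hT⟩ : ∃ T : AddSubgroup M, T = (Submodule.torsion ℤ M).toAddSubgroup := ⟨_, rfl⟩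
  have hmem : ∀ y : M, y ∈ T ↔ IsOfFinAddOrder y := by
    intro y
    rw [hT]
    exact Her_mem
  have hTf : Finite T := by
    rw [hT]
    exact hfin
  have htT : t ∈ T := by
    rw [hmem, isOfFinAddOrder_iff_nsmul_eq_zero]
    exact ⟨3, by norm_num, ht⟩
  obtain ⟨f, hf⟩ : ∃ f : T →+ T, ∀ y : T, ((f y : T) : M) = mu y := by
    refine ⟨(mu.comp T.subtype).codRestrict T fun y => ?_, fun y => rfl⟩
    rw [hmem]
    exact AddMonoidHom.isOfFinAddOrder mu ((hmem _).1 y.2)
  have hk : Nat.card f.ker ≤ 3 := by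
    have h1 : (f.ker : Set T) ⊆ {0, ⟨t, htT⟩, -⟨t, htT⟩} := by
      intro y hy
      have h2 : mu (y : M) = 0 := by
        rw [← hf]
        have h3 : f y = 0 := hy
        rw [h3]
        rfl
      rcases hker _ h2 with h3 | h3 | h3
      · left
        exact Subtype.ext h3
      · right
        left
        exact Subtype.ext h3
      · right
        right
        exact Subtype.ext h3
    have h2 : (f.ker : Set T).ncard ≤ 3 := by
      refine (Set.ncard_le_ncard h1 (Set.toFinite _)).trans ?_
      refine (Set.ncard_insert_le _ _).trans ?_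
      have := Set.ncard_insert_le (⟨t, htT⟩ : T) {-⟨t, htT⟩}
      rw [Set.ncard_singleton] at this
      omega
    exact h2
  have hid : f.range.index ≤ 3 := by
    have h1 := AddSubgroup.index_mul_card f.range
    have h2 := AddSubgroup.index_ker f
    have h3 := AddSubgroup.index_mul_card f.ker
    have h4 : 0 < Nat.card f.range := Nat.card_pos
    rw [h2, ← h1, mul_comm] at h3
    have h5 := Nat.eq_of_mul_eq_mul_right h4 h3
    rw [← h5]
    exact hk
  have hr : ∀ y : T, y ∈ f.range → (y : M) ∈ mu.range := by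
    rintro _ ⟨z, rfl⟩
    exact ⟨z, (hf z).symm⟩
  have h3t : (3 : ℕ) • (⟨t, htT⟩ : T) = 0 := Subtype.ext ht
  have htf : (⟨t, htT⟩ : T) ∉ f.range := fun h => htr (hr _ h)
  have htf2 : (⟨t, htT⟩ : T) + ⟨t, htT⟩ ∉ f.range := by
    intro h
    apply htf
    have h1 : (⟨t, htT⟩ : T) = -((⟨t, htT⟩ : T) + ⟨t, htT⟩) := by
      rw [eq_neg_iff_add_eq_zero, ← h3t]
      abel
    rw [h1]
    exact neg_mem h
  have hxT := (hmem x).2 hx
  by_contra hcon
  push Not at hcon
  obtain ⟨c1, c2, c3⟩ := hcon
  have d1 : (⟨x, hxT⟩ : T) ∉ f.range := fun h => c1 (hr _ h)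
  have d2 : (⟨x, hxT⟩ : T) + ⟨t, htT⟩ ∉ f.range := fun h => c2 (hr _ h)
  have d3 : (⟨x, hxT⟩ : T) - ⟨t, htT⟩ ∉ f.range := fun h => c3 (hr _ h)
  have hcard : Nat.card (Fin 4) ≤ Nat.card (T ⧸ f.range) := by
    refine Nat.card_le_card_of_injective
      (fun i : Fin 4 => ((![0, ⟨t, htT⟩, -⟨t, htT⟩, ⟨x, hxT⟩] i : T) : T ⧸ f.range)) ?_
    have key : ∀ i j : Fin 4, i < j → -(![0, ⟨t, htT⟩, -⟨t, htT⟩, ⟨x, hxT⟩] i : T) +
        (![0, ⟨t, htT⟩, -⟨t, htT⟩, ⟨x, hxT⟩] j : T) ∉ f.range := by
      intro i j hij h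
      fin_cases i <;> fin_cases j <;> first
        | exact absurd hij (by decide)
        | skip
      · exact htf (by simpa using h)
      · exact htf (by simpa using h)
      · exact d1 (by simpa using h)
      · refine htf2 ?_
        have h1 := neg_mem h
        have e1 : -(-(⟨t, htT⟩ : T) + -⟨t, htT⟩) = (⟨t, htT⟩ : T) + ⟨t, htT⟩ := by abel
        rw [← e1]
        exact h1
      · refine d3 ?_
        rw [sub_eq_neg_add]
        exact h
      · refine d2 ?_
        rw [add_comm, ← neg_neg (⟨t, htT⟩ : T)]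
        exact h
    intro i j hij
    have h1 : (((![0, ⟨t, htT⟩, -⟨t, htT⟩, ⟨x, hxT⟩] i : T) : T ⧸ f.range)) =
      ((![0, ⟨t, htT⟩, -⟨t, htT⟩, ⟨x, hxT⟩] j : T) : T ⧸ f.range) := hij
    rcases lt_trichotomy i j with h | h | h
    · exact absurd (QuotientAddGroup.eq.1 h1) (key i j h)
    · exact h
    · exact absurd (QuotientAddGroup.eq.1 h1.symm) (key j i h)
  rw [Nat.card_eq_fintype_card, Fintype.card_fin] at hcard
  have : f.range.index = Nat.card (T ⧸ f.range) := rfl
  omega

/-- **The rank.** -/
theorem herb3 (om : M →+ M) (hom : ∀ x, x + om x + om (om x) = 0) (mu : M →+ M)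
    (hmu : ∀ x, mu x = x - om x) (t : M) (ht : 3 • t = 0) (htr : t ∉ mu.range)
    (hi : mu.range.index ≤ 9) (hi0 : mu.range.index ≠ 0) (x0 : M) (hx0 : ¬ IsOfFinAddOrder x0) :
    finrank ℤ M = 2 := by
  have hom3 : ∀ x, om (om (om x)) = x := by
    intro x
    have h1 := hom x
    have h2 := hom (om x)
    have h3 : om x + om (om x) + om (om (om x)) - (x + om x + om (om x)) = 0 := by
      rw [h1, h2, sub_zero]
    have h4 : om (om (om x)) - x = 0 := by
      rw [← h3]
      abel
    exact sub_eq_zero.1 h4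
  have hmm0 : ∀ x, mu (mu x) = -(3 • om x) := by
    intro x
    have h1 := hom x
    have h2 : om (om x) = -x - om x := by
      rw [eq_sub_iff_add_eq, eq_neg_iff_add_eq_zero, ← h1]
      abel
    rw [hmu (mu x), hmu x, map_sub, h2]
    abel
  apply le_antisymm
  · -- the upper bound
    obtain ⟨S, hS⟩ : ∃ S : Submodule ℤ M, S = Submodule.torsion ℤ M := ⟨_, rfl⟩
    have hfree : Module.Free ℤ (M ⧸ S) := by
      rw [hS]
      infer_instance
    have hmS : ∀ y : M, y ∈ S ↔ IsOfFinAddOrder y := by
      intro y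
      rw [hS]
      exact Her_mem
    have hle : S ≤ S.comap mu.toIntLinearMap := by
      intro y hy
      rw [Submodule.mem_comap, hmS]
      exact AddMonoidHom.isOfFinAddOrder mu ((hmS _).1 hy)
    have hleo : S ≤ S.comap om.toIntLinearMap := by
      intro y hy
      rw [Submodule.mem_comap, hmS]
      exact AddMonoidHom.isOfFinAddOrder om ((hmS _).1 hy)
    have htS : t ∈ S := by
      rw [hmS, isOfFinAddOrder_iff_nsmul_eq_zero]
      exact ⟨3, by norm_num, ht⟩
    obtain ⟨m, hm⟩ : ∃ m : (M ⧸ S) →+ (M ⧸ S), ∀ y : M, m (S.mkQ y) = S.mkQ (mu y) :=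
      ⟨(S.mapQ S mu.toIntLinearMap hle).toAddMonoidHom, fun y => rfl⟩
    obtain ⟨o, ho⟩ : ∃ o : (M ⧸ S) →+ (M ⧸ S), ∀ y : M, o (S.mkQ y) = S.mkQ (om y) :=
      ⟨(S.mapQ S om.toIntLinearMap hleo).toAddMonoidHom, fun y => rfl⟩
    have hmm : ∀ q, m (m q) = -(3 • o q) := by
      intro q
      obtain ⟨y, rfl⟩ := S.mkQ_surjective q
      rw [hm, hm, ho, hmm0, map_neg, map_nsmul]
    have hooo : ∀ q, o (o (o q)) = q := by
      intro q
      obtain ⟨y, rfl⟩ := S.mkQ_surjective q
      rw [ho, ho, ho, hom3]
    -- the index of the range of `m`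
    have hi2 : m.range.index ≤ 3 := by
      have h1 : (m.range.comap S.mkQ.toAddMonoidHom).index = m.range.index :=
        AddSubgroup.index_comap_of_surjective _ S.mkQ_surjective
      have h2 : mu.range ≤ m.range.comap S.mkQ.toAddMonoidHom := by
        rintro _ ⟨y, rfl⟩
        exact ⟨S.mkQ y, hm y⟩
      have h3 : t ∈ m.range.comap S.mkQ.toAddMonoidHom := by
        have h4 : S.mkQ t = 0 := (Submodule.Quotient.mk_eq_zero S).2 htS
        show S.mkQ t ∈ m.range
        rw [h4]
        exact zero_mem _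
      have h4 := AddSubgroup.relIndex_mul_index h2
      rw [h1] at h4
      have h5 : mu.range.relIndex (m.range.comap S.mkQ.toAddMonoidHom) ≠ 1 := by
        rw [Ne, AddSubgroup.relIndex_eq_one]
        exact fun h => htr (h h3)
      have h6 : mu.range.relIndex (m.range.comap S.mkQ.toAddMonoidHom) ≠ 0 := by
        intro h
        rw [h, zero_mul] at h4
        exact hi0 h4.symm
      have h62 : mu.range.relIndex (m.range.comap S.mkQ.toAddMonoidHom) ≠ 2 := by
        intro h
        have h7 := AddSubgroup.add_self_mem_of_index_two h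
          (⟨t, h3⟩ : m.range.comap S.mkQ.toAddMonoidHom)
        rw [AddSubgroup.mem_addSubgroupOf] at h7
        have h8 : t + t ∈ mu.range := h7
        apply htr
        have h9 : t = -(t + t) := by
          rw [eq_neg_iff_add_eq_zero, ← ht]
          abel
        rw [h9]
        exact neg_mem h8
      by_contra h7
      have h8 : 3 * 4 ≤ mu.range.relIndex (m.range.comap S.mkQ.toAddMonoidHom) * m.range.index :=
        Nat.mul_le_mul (by omega) (by omega)
      rw [h4] at h8
      omega
    -- the multiplication by three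
    have h1 : (nsmulAddMonoidHom (α := M ⧸ S) 3).range = m.range.map m := by
      ext q
      constructor
      · rintro ⟨y, rfl⟩
        refine ⟨m (-(o (o y))), ⟨-(o (o y)), rfl⟩, ?_⟩
        rw [hmm, map_neg, hooo]
        simp
      · rintro ⟨_, ⟨y, rfl⟩, rfl⟩
        refine ⟨-(o y), ?_⟩
        rw [hmm]
        simp
    have h2 := AddSubgroup.index_range_nsmul (M ⧸ S) 3
    rw [h1, AddSubgroup.index_map] at h2
    have h3 : (m.range ⊔ m.ker).index ∣ m.range.index := AddSubgroup.index_dvd_of_le le_sup_left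
    have h0 : 0 < m.range.index := by
      rcases Nat.eq_zero_or_pos m.range.index with h | h
      · rw [h, mul_zero] at h2
        exact absurd h2.symm (pow_ne_zero _ (by norm_num))
      · exact h
    have h4 := Nat.le_of_dvd h0 h3
    have h5 : 3 ^ finrank ℤ (M ⧸ S) ≤ 3 ^ 2 := by
      rw [← h2]
      exact (Nat.mul_le_mul (h4.trans hi2) hi2).trans (by norm_num)
    have h6 : finrank ℤ (M ⧸ S) ≤ 2 := (Nat.pow_le_pow_iff_right (by norm_num)).1 h5
    have h7 : finrank ℤ (M ⧸ S) = finrank ℤ M := by
      unfold finrank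
      rw [hS, rank_quotient_eq_of_le_torsion le_rfl]
    rw [← h7]
    exact h6
  · -- the lower bound
    have hli : LinearIndependent ℤ ![x0, om x0] := by
      rw [LinearIndependent.pair_iff]
      intro a b hab
      have h1 : a • om (om x0) + b • om (om (om x0)) = 0 := by
        rw [← map_zsmul, ← map_zsmul, ← map_zsmul, ← map_zsmul, ← map_add, ← map_add, hab, map_zero, map_zero]
      rw [hom3] at h1
      have h2 : (a ^ 2 - a * b + b ^ 2) • x0 = 0 := by
        have e1 : (a ^ 2 - a * b + b ^ 2) • x0 =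
            a • (a • x0 + b • om x0) + b • (a • om (om x0) + b • x0) -
              (a * b) • (x0 + om x0 + om (om x0)) := by
          module
        rw [e1, hab, h1, hom, smul_zero, smul_zero, smul_zero, add_zero, sub_zero]
      have h3 : a ^ 2 - a * b + b ^ 2 = 0 := by
        by_contra h
        exact hx0 (isOfFinAddOrder_iff_zsmul_eq_zero.2 ⟨_, h, h2⟩)
      have h4 : b = 0 := by nlinarith [sq_nonneg (2 * a - b), sq_nonneg b]
      subst h4
      constructor
      · nlinarith [sq_nonneg a]
      · rfl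
    have h := hli.fintype_card_le_finrank
    simpa using h

end

end Pool.Agent.Lib.MP_1a91b9_ntCR
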