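import Pool.Agent.Lib.MP_1a91b9_ntCR.LDef

/-!
# MP_1a91b9_nt (cubic stability, rank two): the L-function as a double series over the integers

Proof. `LH s = Lf (pG 3 X) s` for `2 < Re s` (`Lj_eq`), with `X = Xj 0 1 e ∅`, which is `thj 0 1`, so `X a = e3 (bbar a)` for
`3 ∣ a - 1`, and `bbar (1 + 3 (m + n wO)) = - n` (`bbar_eq`, `t3_coord`). By `Sum_gen (psK 3)` the sum over the ideals is the
sum over the `a : 𝓞 K` with `3 ∣ a - 1` of `X a * conj (em a) * ‖em a‖ ^ (-2 s)`. The map `(m, n) ↦ 1 + 3 (m + n wO)` is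
injective with this range. Finally `em wO = zt = zw`, `e3 (-n) = zw ^ (-n)`,
`conj (em (1 + 3 m + 3 n wO)) = 1 + 3 m + 3 n zw ^ 2` and `‖em a‖ ^ 2 = nf (m, n)`.
-/

set_option autoImplicit false

namespace Pool.Agent.Lib.MP_1a91b9_ntCR

open NumberField Pool.Agent.Lib.MP_1a91b9_ntT Pool.Agent.Lib.MP_1a91b9_ntK
open Pool.Agent.Lib.MP_1a91b9_ntG
open Pool.Agent.Lib.MP_1a91b9_ntH (wO s3 Sum_gen Sum_norm Sum_absNorm coord cp cp_coords emb_coords zt_re zt_im Nz Nz_eq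
  Nz_coords)

private theorem LDbl_zt : zt = zw := Complex.ext zt_re zt_im

private theorem LDbl_conj : (starRingEnd ℂ) zw = zw ^ 2 := by
  have h3 : √3 * √3 = 3 := Real.mul_self_sqrt (by norm_num)
  apply Complex.ext
  · rw [Complex.conj_re, pow_two, Complex.mul_re, zw]
    change (-1 / 2 : ℝ) = -1 / 2 * (-1 / 2) - √3 / 2 * (√3 / 2)
    linear_combination (1 / 4 : ℝ) * h3
  · rw [Complex.conj_im, pow_two, Complex.mul_im, zw]
    change -(√3 / 2) = -1 / 2 * (√3 / 2) + √3 / 2 * (-1 / 2)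
    ring

private theorem LDbl_e3 (n : ℤ) : e3 ((n : ℤ) : ZMod 3) = zw ^ n := by
  rw [e3, ZMod.stdAddChar_coe, ← LDbl_zt, zt, ← Complex.exp_int_mul]
  congr 1
  push_cast
  ring

/-- the map of the coordinates -/
private noncomputable def LDblm (p : ℤ × ℤ) : 𝓞 K := 1 + 3 * ((p.1 : 𝓞 K) + p.2 * wO)

private theorem LDblm_eq (p : ℤ × ℤ) :
    LDblm p = ((1 + 3 * p.1 : ℤ) : 𝓞 K) + ((3 * p.2 : ℤ) : 𝓞 K) * wO := by
  rw [LDblm]
  push_cast
  ring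

private theorem LDblm_inj : Function.Injective LDblm := by
  intro p q h
  have h1 := congrArg cp h
  rw [LDblm_eq, LDblm_eq, cp_coords, cp_coords] at h1
  have h2 := congrArg Prod.fst h1
  have h3 := congrArg Prod.snd h1
  dsimp only at h2 h3
  refine Prod.ext ?_ ?_
  · omega
  · omega

private theorem LDblm_em (p : ℤ × ℤ) : em (LDblm p) = 1 + 3 * (p.1 : ℂ) + 3 * (p.2 : ℂ) * zw := by
  have h := emb_coords (1 + 3 * p.1) (3 * p.2)
  rw [← LDblm_eq, LDbl_zt] at h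
  change em (LDblm p) = _ at h
  rw [h]
  push_cast
  ring

private theorem LDblm_conj (p : ℤ × ℤ) :
    (starRingEnd ℂ) (em (LDblm p)) = 1 + 3 * (p.1 : ℂ) + 3 * (p.2 : ℂ) * zw ^ 2 := by
  rw [LDblm_em, map_add, map_add, map_mul, map_mul, map_mul, LDbl_conj, map_one, map_ofNat, map_intCast, map_intCast]

private theorem LDblm_norm (s : ℂ) (p : ℤ × ℤ) :
    ((‖em (LDblm p)‖ : ℝ) : ℂ) ^ (-2 * s) = ((nf p : ℤ) : ℂ) ^ (-s) := by
  have h1 := Nz_coords (1 + 3 * p.1) (3 * p.2)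
  rw [← LDblm_eq] at h1
  have h2 : ((nf p : ℤ) : ℂ) = (Ideal.absNorm (Ideal.span {LDblm p}) : ℂ) := by
    have h3 : ((nf p : ℤ) : ℝ) = ‖em (LDblm p)‖ ^ 2 := by
      have h4 := Nz_eq (LDblm p)
      have h5 : nf p = (Nz (LDblm p) : ℤ) := by
        rw [h1, nf]
        ring
      rw [h5]
      have h6 : (((Nz (LDblm p) : ℕ) : ℤ) : ℝ) = (Nz (LDblm p) : ℝ) := Int.cast_natCast _
      rw [h6, h4]
      rfl
    rw [← Sum_absNorm] at h3
    have h4 := congrArg (fun x : ℝ => (x : ℂ)) h3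
    have h5 : (((nf p : ℤ) : ℝ) : ℂ) = ((nf p : ℤ) : ℂ) := Complex.ofReal_intCast _
    have h6 : (((Ideal.absNorm (Ideal.span {LDblm p}) : ℕ) : ℝ) : ℂ) =
      (Ideal.absNorm (Ideal.span {LDblm p}) : ℂ) := Complex.ofReal_natCast _
    rw [← h5, ← h6]
    exact h4
  rw [h2, Sum_norm]

private theorem LDblm_X (p : ℤ × ℤ) : Xj 0 1 (fun _ => 0) ∅ (LDblm p) = zw ^ (-p.2) := by
  have h1 : Xj 0 1 (fun _ => 0) ∅ (LDblm p) = thj 0 1 (LDblm p) := by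
    change thj 0 1 (LDblm p) * ∏ q ∈ ∅, chq q 0 (LDblm p) = _
    rw [Finset.prod_empty, mul_one]
  rw [h1, thj, zero_mul, neg_zero, zero_add, one_mul, LDblm, bbar_eq, t3_coord, ← LDbl_e3]
  congr 1
  push_cast
  rfl

theorem LH_dbl {s : ℂ} (hs : 2 < s.re) :
    LH s = ∑' p : ℤ × ℤ, cf p * ((nf p : ℤ) : ℂ) ^ (-s) := by
  classical
  rw [LH, Lj_eq 0 1 _ ∅ s hs]
  obtain ⟨F, hF⟩ : ∃ F : 𝓞 K → ℂ, F = fun a => if (3 : 𝓞 K) ∣ a - 1 then
      Xj 0 1 (fun _ => 0) ∅ a * ((starRingEnd ℂ) (em a) * ((‖em a‖ : ℝ) : ℂ) ^ (-2 * s)) else 0 := ⟨_, rfl⟩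
  have hpos : ∀ a : 𝓞 K, (3 : 𝓞 K) ∣ a - 1 → F a =
      Xj 0 1 (fun _ => 0) ∅ a * ((starRingEnd ℂ) (em a) * ((‖em a‖ : ℝ) : ℂ) ^ (-2 * s)) := by
    intro a ha
    rw [hF]
    exact if_pos ha
  have hneg : ∀ a : 𝓞 K, ¬ (3 : 𝓞 K) ∣ a - 1 → F a = 0 := by
    intro a ha
    rw [hF]
    exact if_neg ha
  have hsup : ∀ a : 𝓞 K, F a ≠ 0 → (3 : 𝓞 K) ∣ a - 1 := by
    intro a ha
    by_contra h
    exact ha (hneg a h)
  have h1 : S4.Lf (pG 3 (Xj 0 1 (fun _ => 0) ∅)) s = ∑' a, F a := by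
    unfold S4.Lf
    refine Sum_gen (psK 3) ?_ ?_ ?_
    · intro I hI
      by_cases hc : IsCoprime I (Ideal.span {(3 : 𝓞 K)})
      · exact (psK_of_coprime _ hc).2
      · exfalso
        apply hI
        rw [pG_neg hc, zero_mul]
    · intro a ha
      exact psK_span a (hsup a ha)
    · intro a ha
      by_cases ha0 : a = 0
      · subst ha0
        have h2 : ¬ (3 : 𝓞 K) ∣ 0 - 1 := fun h => Gen_ne_zero (f := 3) h rfl
        rw [hneg 0 h2, pG, Gen_psbC_self, ha]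
        simp [Pool.Agent.Lib.MP_1a91b9_ntH.em]
      · have h2 := (Gen_iff ha0).1 ha
        rw [hpos a h2, pG, Gen_psbC_self, ha, Sum_norm]
        ring
  rw [h1]
  have h2 : Function.support F ⊆ Set.range LDblm := by
    intro a ha
    obtain ⟨b, hb⟩ := hsup a ha
    obtain ⟨m, n, hmn⟩ := coord b
    refine ⟨(m, n), ?_⟩
    rw [LDblm]
    change 1 + 3 * ((m : 𝓞 K) + n * wO) = a
    rw [← hmn]
    linear_combination -hb
  rw [← LDblm_inj.tsum_eq h2]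
  refine tsum_congr fun p => ?_
  have h3 : (3 : 𝓞 K) ∣ LDblm p - 1 := ⟨(p.1 : 𝓞 K) + p.2 * wO, by rw [LDblm]; ring⟩
  rw [hpos _ h3, LDblm_X, LDblm_conj, LDblm_norm, cf]
  ring

end Pool.Agent.Lib.MP_1a91b9_ntCR
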