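import Pool.Agent.Lib.MP_1a91b9_ntCR.Defs
import Pool.Agent.Lib.MP_1a91b9_ntK.A.Ser2

/-!
# MP_1a91b9_nt (cubic stability, rank two): the L-function of the Hecke character of `y² + √-3 y = x³`
-/

set_option autoImplicit false

namespace Pool.Agent.Lib.MP_1a91b9_ntCR

open NumberField Pool.Agent.Lib.MP_1a91b9_ntT Pool.Agent.Lib.MP_1a91b9_ntK
open Pool.Agent.Lib.MP_1a91b9_ntH (wO s3)

noncomputable section

/-- the L-function of the Hecke character -/
def LH : ℂ → ℂ := Lj 0 1 (fun _ => 0) ∅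

theorem LH_diff : Differentiable ℂ LH := Lj_diff 0 1 _ ∅

end

end Pool.Agent.Lib.MP_1a91b9_ntCR
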