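import Pool.Agent.Lib.MP_1a91b9_ntCR.LDef

/-!
# MP_1a91b9_nt (cubic stability, rank two): the L-series of `y² + √-3 y = x³` over `ℚ(√-3)`

Proof. This is `serj 0 1 (fun _ => 0) ∅` (`MP_1a91b9_ntK/A/Ser2.lean`, via `ser3_gen` in `MP_1a91b9_ntK/A/Ser3G.lean`), but with the
function itself in place of its value at `1`. `Dj 0 1 e ∅ = s3` (`Dk 0 e ∅ = 1`, `(1 : ZMod 3).val = 1`). Copy the private
theorems `Ser_two`, `Ser_half`, `Ser_conj`, `Ser_halfL` of `MP_1a91b9_ntH/A/Ser.lean` and, in place of `Ser_main`,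
`Ser_fun` of `MP_1a91b9_ntC/L3.lean`; the local factors `hloc` are exactly those in the proof of `ser3_gen`
(with `Xj_chr`, `Xj_good`, `Xj_bad`).
-/

set_option autoImplicit false

namespace Pool.Agent.Lib.MP_1a91b9_ntCR

section

open NumberField IsDedekindDomain Polynomial WeierstrassCurve Filter Topology LSeries
  Pool.Agent.Lib.MP_1a91b9_nt Pool.Agent.Lib.MP_1a91b9_ntT Pool.Agent.Lib.MP_1a91b9_ntT.S7
  Pool.Agent.Lib.MP_1a91b9_ntG
open Pool.Agent.Lib.MP_1a91b9_ntT.S4 (Lf)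

section gen
variable {W : WeierstrassCurve K} {p : Ideal (𝓞 K) → ℂ} (p1 : p 1 = 1)
  (pmul : ∀ I J, p (I * J) = p I * p J)
  (ple : ∀ I, ‖p I‖ ≤ (Ideal.absNorm I : ℝ) ^ (1 / 2 : ℝ))
include p1 pmul ple

/-- the range `2 < Re s` -/
private theorem LSer_two (hloc : ∀ (v : HeightOneSpectrum (𝓞 K)) (x : ℂ),
      aeval x (locPoly W v) = (1 - p v.asIdeal * x) * (1 - (starRingEnd ℂ) (p v.asIdeal) * x))
    (s : ℂ) (hs : 2 < s.re) :
    W.LSeries s = Lf p s * Lf (fun I => (starRingEnd ℂ) (p I)) s := by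
  have hp := (S4.hasProd_Lf p p1 pmul (1 / 2) (by norm_num) ple s (by linarith)).2
  have hq := (S4.hasProd_Lf (fun I => (starRingEnd ℂ) (p I)) (by rw [p1, map_one])
    (fun I J => by rw [pmul, map_mul]) (1 / 2) (by norm_num)
    (fun I => by rw [RCLike.norm_conj]; exact ple I) s (by linarith)).2
  have hpq := hp.mul hq
  have he := hasProd_fac W hs
  refine he.unique ?_
  have e : (fun w : HeightOneSpectrum (𝓞 K) => fac W w s) = fun w =>
      (1 - p w.asIdeal * (Ideal.absNorm w.asIdeal : ℂ) ^ (-s))⁻¹ *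
      (1 - (starRingEnd ℂ) (p w.asIdeal) * (Ideal.absNorm w.asIdeal : ℂ) ^ (-s))⁻¹ := by
    funext w
    rw [fac, nrm_eq, hloc, mul_inv]
  rw [e]
  exact hpq

private theorem LSer_half (hloc : ∀ (v : HeightOneSpectrum (𝓞 K)) (x : ℂ),
      aeval x (locPoly W v) = (1 - p v.asIdeal * x) * (1 - (starRingEnd ℂ) (p v.asIdeal) * x))
    (s : ℂ) (hs : 3 / 2 < s.re) :
    W.LSeries s = Lf p s * Lf (fun I => (starRingEnd ℂ) (p I)) s := by
  have hp := hasSum_coefI_of_le p p1 pmul ple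
  have hq := hasSum_coefI_of_le (fun I => (starRingEnd ℂ) (p I)) (by rw [p1, map_one])
    (fun I J => by rw [pmul, map_mul]) (fun I => by rw [RCLike.norm_conj]; exact ple I)
  have h1 := half_plane W (LSeries.convolution (coefI p)
    (coefI (fun I => (starRingEnd ℂ) (p I))))
    (fun s hs => ((hp s hs).convolution (hq s hs)).LSeriesSummable)
    (fun s hs => by
      have hs' : 3 / 2 < s.re := by linarith
      rw [LSer_two p1 pmul ple hloc s hs, ((hp s hs').convolution (hq s hs')).LSeries_eq]) s hs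
  rw [h1.2, ((hp s hs).convolution (hq s hs)).LSeries_eq]

omit p1 pmul ple in
private theorem LSer_conj (s : ℂ) :
    Lf (fun I => (starRingEnd ℂ) (p I)) s = (starRingEnd ℂ) (Lf p ((starRingEnd ℂ) s)) := by
  rw [Lf, Lf, Complex.conj_tsum]
  refine tsum_congr fun I => ?_
  rw [map_mul]
  congr 1
  rw [← map_neg, Complex.cpow_conj _ _ (by
    rw [Complex.natCast_arg]
    exact Real.pi_pos.ne), Complex.conj_natCast, Complex.conj_conj]

/-- from `2 < Re s` to `3/2 < Re s` -/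
private theorem LSer_halfL {g : ℂ → ℂ} (hg : Differentiable ℂ g)
    (h2 : ∀ s : ℂ, 2 < s.re → g s = Lf p s) : ∀ s : ℂ, 3 / 2 < s.re → g s = Lf p s := by
  have hq := hasSum_coefI_of_le p p1 pmul ple
  obtain ⟨b, hb⟩ : ∃ b : ℕ → ℂ, b = coefI p := ⟨_, rfl⟩
  rw [← hb] at hq
  have hab : abscissaOfAbsConv b ≤ ((3 / 2 : ℝ) : EReal) := by
    refine LSeries.abscissaOfAbsConv_le_of_forall_lt_LSeriesSummable fun y hy => ?_
    exact (hq y (by simpa using hy)).LSeriesSummable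
  have hL : AnalyticOnNhd ℂ (LSeries b) {s : ℂ | 3 / 2 < s.re} := by
    refine (LSeries_analyticOnNhd b).mono fun s hs => ?_
    exact hab.trans_lt (by exact_mod_cast hs)
  have hG : AnalyticOnNhd ℂ g {s : ℂ | 3 / 2 < s.re} := fun s _ => hg.analyticAt s
  have hc : IsPreconnected {s : ℂ | 3 / 2 < s.re} := (convex_halfSpace_re_gt _).isPreconnected
  have h3 : (3 : ℂ) ∈ {s : ℂ | 3 / 2 < s.re} := by norm_num
  have hev : g =ᶠ[𝓝 (3 : ℂ)] LSeries b := by
    have ho : IsOpen {s : ℂ | 2 < s.re} := isOpen_lt continuous_const Complex.continuous_re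
    filter_upwards [ho.mem_nhds (show (3 : ℂ) ∈ {s : ℂ | 2 < s.re} by norm_num)] with s hs
    have hs' : 2 < s.re := hs
    rw [h2 s hs', (hq s (by linarith)).LSeries_eq]
  intro s hs
  rw [hG.eqOn_of_preconnected_of_eventuallyEq hL hc h3 hev hs, (hq s hs).LSeries_eq]

/-- the function itself -/
private theorem LSer_fun (hloc : ∀ (v : HeightOneSpectrum (𝓞 K)) (x : ℂ),
      aeval x (locPoly W v) = (1 - p v.asIdeal * x) * (1 - (starRingEnd ℂ) (p v.asIdeal) * x))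
    {L : ℂ → ℂ} (hL : Differentiable ℂ L) (hL2 : ∀ s : ℂ, 2 < s.re → L s = Lf p s) (s : ℂ)
    (hs : 3 / 2 < s.re) :
    (starRingEnd ℂ) (L ((starRingEnd ℂ) s)) * L s = W.LSeries s := by
  have hL1 := LSer_halfL p1 pmul ple hL hL2
  rw [LSer_half p1 pmul ple hloc s hs, LSer_conj, hL1 s hs,
    hL1 _ (by rw [Complex.conj_re]; exact hs), mul_comm]

end gen

end

section

open NumberField IsDedekindDomain Polynomial WeierstrassCurve Pool.Agent.Lib.MP_1a91b9_nt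
  Pool.Agent.Lib.MP_1a91b9_ntT Pool.Agent.Lib.MP_1a91b9_ntG Pool.Agent.Lib.MP_1a91b9_ntH
  Pool.Agent.Lib.MP_1a91b9_ntK

private theorem LSer_gen {D ν : 𝓞 K} {X : 𝓞 K → ℂ} (hX : Chr 3 ν X) (hD : D ≠ 0)
    (hbad : ∀ q : P3, q.1 ∣ D → ¬ q.1 ^ 3 ∣ D ∧ X q.1 = 0)
    (hgood : ∀ q : P3, ¬ q.1 ∣ D → X q.1 = e3 (cq q D)) (s : ℂ) (hs : 3 / 2 < s.re) :
    (starRingEnd ℂ) (LG 3 X ((starRingEnd ℂ) s)) * LG 3 X s = (WD D).LSeries s := by
  refine LSer_fun (W := WD D) (p := pG 3 X) hX.pG_one hX.pG_mul hX.pG_le ?_ hX.LG_diff hX.LG_eq s hs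
  intro v x
  rcases Gen_place (f := (3 : 𝓞 K)) v with h | ⟨q, rfl⟩
  · rw [pG_neg h]
    have h3 : s3 ∈ v.asIdeal := by
      by_contra h0
      apply h
      rw [Ideal.isCoprime_iff_sup_eq]
      have hm : v.asIdeal.IsMaximal := Ideal.IsPrime.isMaximal v.isPrime v.ne_bot
      by_contra h1
      have h2 := hm.eq_of_le h1 le_sup_left
      have h4 : (3 : 𝓞 K) ∈ v.asIdeal := by
        rw [h2]
        exact Ideal.mem_sup_right (Ideal.mem_span_singleton_self _)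
      rw [Pool.Agent.Lib.MP_1a91b9_ntK.three_eq] at h4
      rcases v.isPrime.mem_or_mem h4 with h5 | h5
      · exact h0 h5
      · exact h0 ((Ideal.neg_mem_iff _).1 h5)
    rw [locD_three D hD v h3]
    simp
  · have e := pG_plf X q
    rw [e]
    by_cases h : q.1 ∣ D
    · obtain ⟨h1, h2⟩ := hbad ⟨q.1, q.2⟩ h
      have h3 : (3 : 𝓞 K) ∉ (plf q).asIdeal := (g3 q.2.1 q.2.2).three
      rw [locD_bad D q.1 (plf q) rfl h3 h h1]
      simp only at h2
      rw [h2]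
      simp
    · rw [hgood ⟨q.1, q.2⟩ h]
      exact locG_cq D ⟨q.1, q.2⟩ (plf q) rfl h x

private theorem LSer_D : Dj 0 1 (fun _ => 0) ∅ = s3 := by
  unfold Dj Dk
  simp [ZMod.val_one]

end

open NumberField Pool.Agent.Lib.MP_1a91b9_ntT Pool.Agent.Lib.MP_1a91b9_ntK
open Pool.Agent.Lib.MP_1a91b9_ntH (wO s3)

theorem LH_ser (s : ℂ) (hs : 3 / 2 < s.re) :
    (starRingEnd ℂ) (LH ((starRingEnd ℂ) s)) * LH s = (WD s3).LSeries s := by
  have h := LSer_gen (Xj_chr 0 1 (fun _ => 0) ∅) (Dj_ne 0 1 (fun _ => 0) ∅)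
    (fun q hq => ⟨Dj_cube 0 1 (fun _ => 0) ∅ q, Xj_bad 0 1 (fun _ => 0) ∅ q (Dj_dvd 0 1 (fun _ => 0) ∅ q hq)⟩)
    (fun q _ => Xj_good 0 1 (fun _ => 0) ∅ q (Finset.notMem_empty q)) s hs
  rw [LSer_D] at h
  exact h

end Pool.Agent.Lib.MP_1a91b9_ntCR
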