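import Pool.Agent.Lib.MP_1a91b9_ntCR.Defs

/-!
# MP_1a91b9_nt (cubic stability, rank two): the L-function of the Hecke character has a simple zero at `1`

Proof: exactly as in `MP_1a91b9_ntC/L1.lean` (from `ThD.feq` to `exists_L_of`), with one function `f` in place of the
product `G t * H t`, `f (1 / t) = -(t ^ 2 * f t)` (`k = 2`, `ε = -1` in `WeakFEPair`), with the coefficients `cf p : ℂ`, the norm form
`nf p ≥ 1` (an integer, `4 nf p = (2 + 6 m - 3 n)² + 27 n²`) and the scale `sc` in place of `1 / 8`: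
`L s = (π sc) ^ s * (Γ s)⁻¹ * mellin f s`. For the summability of `‖cf p‖ / (nf p * sc) ^ σ`, `σ > 3/2`: `‖cf p‖ ^ 2 = nf p`
(`zw` has the norm `1`), `nf p ≥ (1/16) max (|m|, |n|) ^ 2` or similar for `p ≠ 0` (for example
`4 nf p ≥ 27 n²` and `36 nf p ≥ (3 (1 + 3 m))²`, and `|1 + 3 m| ≥ |m|`, so `4 nf p ≥ |m|², |n|²`), and
`EisensteinSeries.summable_one_div_norm_rpow`.
-/

set_option autoImplicit false

namespace Pool.Agent.Lib.MP_1a91b9_ntCR

open Real Complex Filter Topology Asymptotics Set MeasureTheory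

private theorem Mel_sc : 0 < sc := by
  unfold sc
  positivity

/-- The theta series as a complex function. -/
private noncomputable def Mel_F (f : ℝ → ℝ) (t : ℝ) : ℂ := ((f t : ℝ) : ℂ)

private theorem Mel_fc {f : ℝ → ℝ} (h : FD f) : ContinuousOn (Mel_F f) (Ioi 0) :=
  Complex.continuous_ofReal.comp_continuousOn h.fc

private theorem Mel_ftop {f : ℝ → ℝ} (h : FD f) (r : ℝ) : Mel_F f =O[atTop] fun t : ℝ => t ^ r := by
  obtain ⟨c, hc, h1⟩ := h.dec
  have h2 := h1.trans (isLittleO_exp_neg_mul_rpow_atTop hc r).isBigO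
  have h3 : (fun t => ‖Mel_F f t‖) =O[atTop] fun t : ℝ => t ^ r := by
    refine h2.norm_left.congr_left fun t => ?_
    rw [Mel_F, Complex.norm_real]
  exact h3.of_norm_left

/-- The functional equation pair. -/
private noncomputable def Mel_pr {f : ℝ → ℝ} (h : FD f) : WeakFEPair ℂ where
  f := Mel_F f
  g := Mel_F f
  k := 2
  ε := -1
  f₀ := 0
  g₀ := 0
  hf_int := (Mel_fc h).locallyIntegrableOn measurableSet_Ioi
  hg_int := (Mel_fc h).locallyIntegrableOn measurableSet_Ioi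
  hk := two_pos
  hε := by norm_num
  h_feq := fun x hx => by
    rw [Mel_F, h.fe x hx, Mel_F]
    have e : x ^ (2 : ℝ) = x ^ 2 := Real.rpow_two x
    rw [e]
    push_cast
    rw [smul_eq_mul]
    ring
  hf_top := fun r => by
    simp only [sub_zero]
    exact Mel_ftop h r
  hg_top := fun r => by
    simp only [sub_zero]
    exact Mel_ftop h r

private theorem Mel_strong {f : ℝ → ℝ} (h : FD f) : IsStrongFEPair (Mel_pr h) := ⟨rfl, rfl⟩

private theorem Mel_diff {f : ℝ → ℝ} (h : FD f) : Differentiable ℂ (mellin (Mel_F f)) := by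
  have h1 := (Mel_strong h).differentiable_Λ
  rw [(Mel_strong h).Λ_eq] at h1
  exact h1

private theorem Mel_one {f : ℝ → ℝ} (h : FD f) : mellin (Mel_F f) 1 = 0 := by
  have h1 := (Mel_pr h).functional_equation 1
  rw [(Mel_strong h).Λ_eq, (Mel_strong h).symm_Λ_eq] at h1
  have e : ((Mel_pr h).k : ℂ) - 1 = 1 := by
    show (((2 : ℝ) : ℂ)) - 1 = 1
    push_cast
    norm_num
  rw [e] at h1
  have h2 : mellin (Mel_F f) 1 = (-1 : ℂ) • mellin (Mel_F f) 1 := h1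
  rw [smul_eq_mul] at h2
  linear_combination (1 / 2 : ℂ) * h2

/-- The integrand of the derivative is nonnegative. -/
private theorem Mel_nonneg {f : ℝ → ℝ} (h : FD f) {t : ℝ} (ht : 0 < t) : 0 ≤ Real.log t * f t := by
  rcases lt_trichotomy t 1 with h1 | h1 | h1
  · have hu : 1 < 1 / t := by rwa [lt_one_div one_pos ht, div_one]
    have hu0 : 0 < 1 / t := one_pos.trans hu
    have h2 := h.fe (1 / t) hu0
    rw [one_div_one_div] at h2
    have h3 : 0 < f (1 / t) := h.pos _ hu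
    have h4 : f t < 0 := by
      rw [h2]
      have h5 : 0 < (1 / t) ^ 2 := by positivity
      nlinarith [mul_pos h5 h3]
    exact (mul_pos_of_neg_of_neg (Real.log_neg ht h1) h4).le
  · rw [h1, Real.log_one, zero_mul]
  · exact (mul_pos (Real.log_pos h1) (h.pos t h1)).le

private theorem Mel_deriv {f : ℝ → ℝ} (h : FD f) :
    ∃ I : ℝ, 0 < I ∧ HasDerivAt (mellin (Mel_F f)) (I : ℂ) 1 := by
  have hbot : Mel_F f =O[𝓝[>] 0] fun t : ℝ => t ^ (-(0 : ℝ)) := (Mel_strong h).hf_zero (-(0 : ℝ))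
  obtain ⟨h1, h2⟩ := mellin_hasDerivAt_of_isBigO_rpow (a := 2) (b := 0) (s := 1)
    ((Mel_fc h).locallyIntegrableOn measurableSet_Ioi) (Mel_ftop h (-2)) (by norm_num) hbot (by norm_num)
  have e : ∀ t : ℝ, ((t : ℂ) ^ ((1 : ℂ) - 1)) • (Real.log t • Mel_F f t) =
      ((Real.log t * f t : ℝ) : ℂ) := by
    intro t
    rw [sub_self, Complex.cpow_zero, one_smul, Mel_F, Complex.real_smul]
    push_cast
    rfl
  have hint : IntegrableOn (fun t => Real.log t * f t) (Ioi 0) := by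
    have h3 : IntegrableOn (fun t : ℝ => ((t : ℂ) ^ ((1 : ℂ) - 1)) • (Real.log t • Mel_F f t))
      (Ioi 0) := h1
    have h4 := h3.re
    refine h4.congr (Eventually.of_forall fun t => ?_)
    show RCLike.re (((t : ℂ) ^ ((1 : ℂ) - 1)) • (Real.log t • Mel_F f t)) = _
    rw [e]
    exact Complex.ofReal_re _
  refine ⟨∫ t in Ioi 0, Real.log t * f t, ?_, ?_⟩
  · rw [setIntegral_pos_iff_support_of_nonneg_ae
      ((ae_restrict_iff' measurableSet_Ioi).2 (Eventually.of_forall fun t ht => Mel_nonneg h ht)) hint]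
    refine lt_of_lt_of_le ?_ (measure_mono (μ := volume) (s := Ioi (1 : ℝ)) ?_)
    · rw [Real.volume_Ioi]
      exact ENNReal.zero_lt_top
    · intro t ht
      have ht1 : 1 < t := ht
      have ht0 : 0 < t := one_pos.trans ht1
      refine ⟨?_, ht0⟩
      exact (mul_pos (Real.log_pos ht1) (h.pos t ht1)).ne'
  · have h3 : mellin (fun t => Real.log t • Mel_F f t) 1 =
        ((∫ t in Ioi 0, Real.log t * f t : ℝ) : ℂ) := by
      have h4 : mellin (fun t => Real.log t • Mel_F f t) 1 =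
          ∫ t in Ioi (0 : ℝ), ((Real.log t * f t : ℝ) : ℂ) :=
        integral_congr_ae (Eventually.of_forall fun t => e t)
      rw [h4]
      exact integral_complex_ofReal
    rw [h3] at h2
    exact h2

/-! ### The Dirichlet series -/

private theorem Mel_zw : ‖zw‖ = 1 := by
  have h1 : ‖zw‖ ^ 2 = 1 := by
    rw [← Complex.normSq_eq_norm_sq, Complex.normSq_apply, zw]
    have h2 : √3 * √3 = 3 := Real.mul_self_sqrt (by norm_num)
    nlinarith [h2]
  have h3 : 0 ≤ ‖zw‖ := norm_nonneg _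
  nlinarith [h1, h3]

private theorem Mel_cf (p : ℤ × ℤ) : ‖cf p‖ ^ 2 = ((nf p : ℤ) : ℝ) := by
  have h1 : ‖zw ^ (-p.2)‖ = 1 := by rw [norm_zpow, Mel_zw, one_zpow]
  rw [cf, norm_mul, h1, one_mul, ← Complex.normSq_eq_norm_sq, Complex.normSq_apply]
  have h2 : √3 * √3 = 3 := Real.mul_self_sqrt (by norm_num)
  have hz : zw ^ 2 = ⟨-1 / 2, -(√3 / 2)⟩ := by
    rw [pow_two, zw]
    apply Complex.ext
    · rw [Complex.mul_re]
      dsimp only
      nlinarith [h2]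
    · rw [Complex.mul_im]
      dsimp only
      ring
  have hre : (1 + 3 * (p.1 : ℂ) + 3 * (p.2 : ℂ) * zw ^ 2).re = 1 + 3 * (p.1 : ℝ) - 3 * (p.2 : ℝ) / 2 := by
    rw [hz]
    simp only [Complex.add_re, Complex.mul_re, Complex.mul_im, Complex.one_re, Complex.intCast_re,
      Complex.intCast_im, Complex.re_ofNat, Complex.im_ofNat]
    ring
  have him : (1 + 3 * (p.1 : ℂ) + 3 * (p.2 : ℂ) * zw ^ 2).im = -(3 * (p.2 : ℝ) * (√3 / 2)) := by
    rw [hz]
    simp only [Complex.add_im, Complex.mul_re, Complex.mul_im, Complex.one_im, Complex.intCast_re,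
      Complex.intCast_im, Complex.re_ofNat, Complex.im_ofNat]
    ring
  rw [hre, him, nf]
  push_cast
  linear_combination (9 / 4 * (p.2 : ℝ) ^ 2) * h2

private theorem Mel_nf1 (p : ℤ × ℤ) : 1 ≤ nf p := by
  have h1 : 4 * nf p = (2 + 6 * p.1 - 3 * p.2) ^ 2 + 27 * p.2 ^ 2 := by
    unfold nf
    ring
  by_contra hc
  have h0 : nf p ≤ 0 := by omega
  have h2 : (2 + 6 * p.1 - 3 * p.2) ^ 2 + 27 * p.2 ^ 2 ≤ 0 := by linarith
  have h3 : p.2 = 0 := by
    by_contra h4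
    have h5 : 0 < p.2 ^ 2 := by positivity
    nlinarith [sq_nonneg (2 + 6 * p.1 - 3 * p.2)]
  rw [h3] at h2
  have h4 : 2 + 6 * p.1 - 3 * 0 = 0 := by
    by_contra h5
    have h6 : 0 < (2 + 6 * p.1 - 3 * 0) ^ 2 := by positivity
    linarith
  omega

private theorem Mel_nf2 (p : ℤ × ℤ) : p.1 ^ 2 ≤ 4 * nf p ∧ p.2 ^ 2 ≤ 4 * nf p := by
  constructor
  · have h1 : 4 * nf p = (1 + 3 * p.1 - 6 * p.2) ^ 2 + 3 * (1 + 3 * p.1) ^ 2 := by
      unfold nf
      ring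
    have h2 : p.1 ^ 2 ≤ (1 + 3 * p.1) ^ 2 := by
      rcases le_or_gt 0 p.1 with h | h
      · nlinarith
      · have h3 : p.1 ≤ -1 := by omega
        nlinarith
    nlinarith [sq_nonneg (1 + 3 * p.1 - 6 * p.2), sq_nonneg (1 + 3 * p.1)]
  · have h1 : 4 * nf p = (2 + 6 * p.1 - 3 * p.2) ^ 2 + 27 * p.2 ^ 2 := by
      unfold nf
      ring
    nlinarith [sq_nonneg (2 + 6 * p.1 - 3 * p.2), sq_nonneg p.2]

private theorem Mel_sum {σ : ℝ} (hσ : 3 / 2 < σ) :
    Summable fun p : ℤ × ℤ => ‖cf p‖ / (((nf p : ℤ) : ℝ) * sc) ^ σ := by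
  have hsc := Mel_sc
  have h1 : Summable fun p : ℤ × ℤ => (4 ^ (σ - 1 / 2) * sc ^ (-σ)) *
      ‖(![p.1, p.2] : Fin 2 → ℤ)‖ ^ (-(2 * σ - 1)) := by
    have h2 := (finTwoArrowEquiv ℤ).symm.summable_iff.2
      (EisensteinSeries.summable_one_div_norm_rpow (k := 2 * σ - 1) (by linarith))
    exact (h2.mul_left (4 ^ (σ - 1 / 2) * sc ^ (-σ))).congr fun p => rfl
  have h0 : Summable fun p : ℤ × ℤ => if p = (0, 0) then ‖cf p‖ / (((nf p : ℤ) : ℝ) * sc) ^ σ else 0 := by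
    refine summable_of_ne_finset_zero (s := {(0, 0)}) fun p hp => ?_
    rw [if_neg]
    simpa using hp
  refine (h1.add h0).of_nonneg_of_le (fun p => ?_) fun p => ?_
  · have h2 : (0 : ℝ) < ((nf p : ℤ) : ℝ) := by exact_mod_cast (Mel_nf1 p)
    positivity
  · have hN : (1 : ℝ) ≤ ((nf p : ℤ) : ℝ) := by exact_mod_cast Mel_nf1 p
    have hN0 : (0 : ℝ) < ((nf p : ℤ) : ℝ) := by linarith
    rcases eq_or_ne p (0, 0) with hp | hp
    · rw [if_pos hp]
      have h3 : 0 ≤ (4 ^ (σ - 1 / 2) * sc ^ (-σ)) * ‖(![p.1, p.2] : Fin 2 → ℤ)‖ ^ (-(2 * σ - 1)) := by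
        positivity
      linarith
    · rw [if_neg hp, add_zero]
      obtain ⟨n, hn⟩ : ∃ n, n = ‖(![p.1, p.2] : Fin 2 → ℤ)‖ := ⟨_, rfl⟩
      have hn0 : 0 < n := by
        rw [hn, norm_pos_iff]
        intro h4
        apply hp
        have h5 := congrFun h4 0
        have h6 := congrFun h4 1
        exact Prod.ext h5 h6
      have hnN : n ^ 2 ≤ 4 * ((nf p : ℤ) : ℝ) := by
        have h3 : n ≤ √(4 * ((nf p : ℤ) : ℝ)) := by
          rw [hn]
          refine (pi_norm_le_iff_of_nonneg (Real.sqrt_nonneg _)).2 fun i => ?_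
          fin_cases i
          · show ‖p.1‖ ≤ _
            rw [Int.norm_eq_abs]
            refine Real.abs_le_sqrt ?_
            exact_mod_cast (Mel_nf2 p).1
          · show ‖p.2‖ ≤ _
            rw [Int.norm_eq_abs]
            refine Real.abs_le_sqrt ?_
            exact_mod_cast (Mel_nf2 p).2
        exact (Real.le_sqrt hn0.le (by positivity)).1 h3
      rw [← hn]
      have hc : ‖cf p‖ = ((nf p : ℤ) : ℝ) ^ (1 / 2 : ℝ) := by
        rw [← Mel_cf p, ← Real.rpow_natCast, ← Real.rpow_mul (norm_nonneg _)]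
        norm_num
      have e1 : ‖cf p‖ / (((nf p : ℤ) : ℝ) * sc) ^ σ = sc ^ (-σ) * ((nf p : ℤ) : ℝ) ^ (-(σ - 1 / 2)) := by
        rw [hc, Real.mul_rpow hN0.le hsc.le, Real.rpow_neg hsc.le,
          show -(σ - 1 / 2) = 1 / 2 - σ by ring, Real.rpow_sub hN0]
        have h5 : sc ^ σ ≠ 0 := (Real.rpow_pos_of_pos hsc _).ne'
        have h6 : ((nf p : ℤ) : ℝ) ^ σ ≠ 0 := (Real.rpow_pos_of_pos hN0 _).ne'
        field_simp
      have e2 : ((nf p : ℤ) : ℝ) ^ (-(σ - 1 / 2)) ≤ (n ^ 2 / 4) ^ (-(σ - 1 / 2)) :=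
        Real.rpow_le_rpow_of_nonpos (by positivity) (by linarith) (by linarith)
      have e3 : (n ^ 2 / 4) ^ (-(σ - 1 / 2)) = 4 ^ (σ - 1 / 2) * n ^ (-(2 * σ - 1)) := by
        rw [Real.div_rpow (by positivity) (by norm_num), ← Real.rpow_natCast, ← Real.rpow_mul hn0.le,
          Real.rpow_neg (by norm_num : (0 : ℝ) ≤ 4)]
        have e : ((2 : ℕ) : ℝ) * (-(σ - 1 / 2)) = -(2 * σ - 1) := by
          push_cast
          ring
        rw [e, div_inv_eq_mul, mul_comm]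
      rw [e1]
      calc sc ^ (-σ) * ((nf p : ℤ) : ℝ) ^ (-(σ - 1 / 2)) ≤ sc ^ (-σ) * (4 ^ (σ - 1 / 2) * n ^ (-(2 * σ - 1))) := by
            rw [← e3]
            exact mul_le_mul_of_nonneg_left e2 (Real.rpow_nonneg hsc.le _)
        _ = _ := by ring

/-! ### The L-function -/

/-- The L-function. -/
private noncomputable def Mel_LL (f : ℝ → ℝ) (s : ℂ) : ℂ :=
  ((π * sc : ℝ) : ℂ) ^ s * (Complex.Gamma s)⁻¹ * mellin (Mel_F f) s

private theorem Mel_ps : ((π * sc : ℝ) : ℂ) ≠ 0 := by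
  rw [Complex.ofReal_ne_zero]
  exact (mul_pos Real.pi_pos Mel_sc).ne'

private theorem Mel_LL_diff {f : ℝ → ℝ} (h : FD f) : Differentiable ℂ (Mel_LL f) := by
  refine Differentiable.mul (Differentiable.mul ?_ ?_) (Mel_diff h)
  · exact fun s => (differentiableAt_id.const_cpow (Or.inl Mel_ps))
  · exact Complex.differentiable_one_div_Gamma

private theorem Mel_LL_one {f : ℝ → ℝ} (h : FD f) : Mel_LL f 1 = 0 := by
  rw [Mel_LL, Mel_one h, mul_zero]

private theorem Mel_LL_deriv {f : ℝ → ℝ} (h : FD f) : deriv (Mel_LL f) 1 ≠ 0 := by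
  obtain ⟨I, hI, hd⟩ := Mel_deriv h
  have hA : DifferentiableAt ℂ (fun s : ℂ => ((π * sc : ℝ) : ℂ) ^ s * (Complex.Gamma s)⁻¹) 1 :=
    (differentiableAt_id.const_cpow (Or.inl Mel_ps)).mul (Complex.differentiable_one_div_Gamma 1)
  have h2 := hA.hasDerivAt.mul hd
  have h3 : deriv (Mel_LL f) 1 = deriv (fun s : ℂ => ((π * sc : ℝ) : ℂ) ^ s * (Complex.Gamma s)⁻¹) 1 *
      mellin (Mel_F f) 1 + ((π * sc : ℝ) : ℂ) ^ (1 : ℂ) * (Complex.Gamma 1)⁻¹ * (I : ℂ) := h2.deriv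
  rw [h3, Mel_one h, mul_zero, zero_add, Complex.cpow_one, Complex.Gamma_one, inv_one, mul_one]
  exact mul_ne_zero Mel_ps (Complex.ofReal_ne_zero.2 hI.ne')

private theorem Mel_LL_eq {f : ℝ → ℝ} (h : FD f) {s : ℂ} (hs : 2 < s.re) :
    Mel_LL f s = ∑' p : ℤ × ℤ, cf p * ((nf p : ℤ) : ℂ) ^ (-s) := by
  have hsc := Mel_sc
  have hs0 : 0 < s.re := by linarith
  have h1 := hasSum_mellin_pi_mul (a := cf) (q := fun p => ((nf p : ℤ) : ℝ) * sc) (F := Mel_F f) (s := s)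
    (fun p => ?_) hs0 (fun t ht => ?_) (Mel_sum (by linarith))
  · have h2 := h1.mul_left (((π * sc : ℝ) : ℂ) ^ s * (Complex.Gamma s)⁻¹)
    have h3 : (fun p : ℤ × ℤ => ((π * sc : ℝ) : ℂ) ^ s * (Complex.Gamma s)⁻¹ *
        ((π : ℂ) ^ (-s) * Complex.Gamma s * cf p / ((((nf p : ℤ) : ℝ) * sc : ℝ) : ℂ) ^ s)) =
        fun p : ℤ × ℤ => cf p * ((nf p : ℤ) : ℂ) ^ (-s) := by
      funext p
      have hN : (1 : ℝ) ≤ ((nf p : ℤ) : ℝ) := by exact_mod_cast Mel_nf1 p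
      have hN0 : (0 : ℝ) < ((nf p : ℤ) : ℝ) := by linarith
      have e1 : Complex.Gamma s ≠ 0 := Complex.Gamma_ne_zero_of_re_pos hs0
      have e2 : ((π * sc : ℝ) : ℂ) ^ s = (π : ℂ) ^ s * ((sc : ℝ) : ℂ) ^ s := by
        rw [← Complex.mul_cpow_ofReal_nonneg pi_pos.le hsc.le, ← Complex.ofReal_mul]
      have e3 : ((((nf p : ℤ) : ℝ) * sc : ℝ) : ℂ) ^ s = (((nf p : ℤ) : ℝ) : ℂ) ^ s * ((sc : ℝ) : ℂ) ^ s := by
        rw [← Complex.mul_cpow_ofReal_nonneg hN0.le hsc.le, ← Complex.ofReal_mul]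
      have e4 : (π : ℂ) ^ s ≠ 0 := by
        rw [Ne, Complex.cpow_eq_zero_iff]
        exact fun h => pi_ne_zero (Complex.ofReal_eq_zero.1 h.1)
      have e5 : ((sc : ℝ) : ℂ) ^ s ≠ 0 := by
        rw [Ne, Complex.cpow_eq_zero_iff]
        exact fun h => hsc.ne' (Complex.ofReal_eq_zero.1 h.1)
      have e6 : (((nf p : ℤ) : ℝ) : ℂ) ^ s ≠ 0 := by
        rw [Ne, Complex.cpow_eq_zero_iff]
        exact fun h => hN0.ne' (Complex.ofReal_eq_zero.1 h.1)
      have e7 : ((nf p : ℤ) : ℂ) = (((nf p : ℤ) : ℝ) : ℂ) := by push_cast; rfl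
      rw [e7, e2, e3, Complex.cpow_neg, Complex.cpow_neg]
      field_simp
    rw [h3] at h2
    exact h2.tsum_eq.symm
  · have hN : (1 : ℝ) ≤ ((nf p : ℤ) : ℝ) := by exact_mod_cast Mel_nf1 p
    exact Or.inr (by positivity)
  · exact h.hs t ht

theorem mel_L {f : ℝ → ℝ} (h : FD f) : ∃ L : ℂ → ℂ, Differentiable ℂ L ∧
    (∀ s : ℂ, 2 < s.re → L s = ∑' p : ℤ × ℤ, cf p * ((nf p : ℤ) : ℂ) ^ (-s)) ∧ L 1 = 0 ∧ deriv L 1 ≠ 0 :=
  ⟨Mel_LL f, Mel_LL_diff h, fun _ hs => Mel_LL_eq h hs, Mel_LL_one h, Mel_LL_deriv h⟩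

end Pool.Agent.Lib.MP_1a91b9_ntCR
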