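import Pool.Agent.Lib.MP_1a91b9_ntCR.Defs

/-!
# MP_1a91b9_nt (cubic stability, rank two): the functional equation of the odd kernels at `r / 6`

Proof. `oddKernel_functional_equation a x : oddKernel a x = 1 / x ^ (3 / 2) * sinKernel a (1 / x)` at `x = 36 / y`
gives `od r (36 / y) = √(y / 36) ^ 3 * sinKernel (r / 6) (y / 36)`. By `hasSum_int_sinKernel`,
`sinKernel (r / 6) (y / 36) = ∑ n : ℤ, -i n exp (2 π i r n / 6) exp (-π n² y / 36)`; the terms with `n = 6 k + s`,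
`s = 0, .., 5`, add up to `-6 i exp (2 π i r s / 6) * oddKernel (s / 6) y` (`n = 6 (k + s / 6)`). So
`sinKernel (r / 6) (y / 36) = 6 * ∑ s, sin (π r s / 3) od s y` (the kernels are real), and `od 0 y = od 3 y = 0`,
`od 4 y = - od 2 y`, `od 5 y = - od 1 y` (`oddKernel_neg`). The sines are
`r = 1: 0, √3/2, √3/2, 0, -√3/2, -√3/2`; `r = 2: 0, √3/2, -√3/2, 0, √3/2, -√3/2`.

To sum over the residue classes see `hasSum_res` in `MP_1a91b9_ntC/ThG.lean` (`Function.Injective.hasSum_iff` for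
`k ↦ 6 k + s`); `zt_gauss` and `sin_GG` there show how to compare the sums.
-/

set_option autoImplicit false

namespace Pool.Agent.Lib.MP_1a91b9_ntCR

open HurwitzZeta Real

private theorem TOd_res (s : ℤ) {y : ℝ} (hy : 0 < y) :
    HasSum (fun x : ℤ => if x % 6 = s % 6 then (x : ℝ) * rexp (-π * (x : ℝ) ^ 2 * (y / 36)) else 0)
      (6 * oddKernel ((s / 6 : ℝ) : UnitAddCircle) y) := by
  have h := (hasSum_int_oddKernel ((s : ℝ) / 6) hy).mul_left 6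
  have hinj : Function.Injective (fun n : ℤ => 6 * n + s) := by
    intro a b hab
    simp only at hab
    omega
  have h2 : (fun n : ℤ => 6 * (((n : ℝ) + (s : ℝ) / 6) * rexp (-π * ((n : ℝ) + (s : ℝ) / 6) ^ 2 * y))) =
      (fun x : ℤ => if x % 6 = s % 6 then (x : ℝ) * rexp (-π * (x : ℝ) ^ 2 * (y / 36)) else 0) ∘
        (fun n : ℤ => 6 * n + s) := by
    funext n
    simp only [Function.comp]
    have h3 : (6 * n + s) % 6 = s % 6 := by omega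
    rw [if_pos h3]
    push_cast
    have e1 : -π * ((n : ℝ) + (s : ℝ) / 6) ^ 2 * y = -π * (6 * (n : ℝ) + (s : ℝ)) ^ 2 * (y / 36) := by ring
    rw [e1]
    ring
  rw [h2] at h
  rw [← Function.Injective.hasSum_iff hinj]
  · exact h
  · intro x hx
    rw [if_neg]
    intro h4
    apply hx
    refine ⟨(x - s) / 6, ?_⟩
    simp only
    omega

private theorem TOd_term (a : ℝ) (t : ℝ) (n : ℤ) :
    (-Complex.I * n * Complex.exp (2 * π * Complex.I * a * n) * rexp (-π * n ^ 2 * t)).re =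
      (n : ℝ) * Real.sin (2 * π * a * n) * rexp (-π * (n : ℝ) ^ 2 * t) := by
  have h1 : 2 * (π : ℂ) * Complex.I * a * n = ((2 * π * a * n : ℝ) : ℂ) * Complex.I := by
    push_cast
    ring
  obtain ⟨th, hth⟩ : ∃ th : ℝ, th = 2 * π * a * n := ⟨_, rfl⟩
  obtain ⟨r, hr⟩ : ∃ r : ℝ, r = rexp (-π * (n : ℝ) ^ 2 * t) := ⟨_, rfl⟩
  rw [h1, ← hth, ← hr, Complex.exp_mul_I, ← Complex.ofReal_cos, ← Complex.ofReal_sin]
  generalize Real.cos th = cs
  generalize Real.sin th = sn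
  have h2 : -Complex.I * (n : ℂ) * ((cs : ℂ) + (sn : ℂ) * Complex.I) * (r : ℂ) =
      (((n : ℝ) * sn * r : ℝ) : ℂ) + ((-((n : ℝ) * cs * r) : ℝ) : ℂ) * Complex.I := by
    push_cast
    linear_combination (-(n : ℂ) * (sn : ℂ) * (r : ℂ)) * Complex.I_sq
  rw [h2, Complex.add_re, Complex.ofReal_re, Complex.re_ofReal_mul, Complex.I_re, mul_zero, add_zero]

private theorem TOd_sin (a : ℝ) {t : ℝ} (ht : 0 < t) :
    HasSum (fun n : ℤ => (n : ℝ) * Real.sin (2 * π * a * n) * rexp (-π * (n : ℝ) ^ 2 * t))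
      (sinKernel (a : UnitAddCircle) t) := by
  have h := Complex.hasSum_re (hasSum_int_sinKernel a ht)
  rw [Complex.ofReal_re] at h
  have e : (fun n : ℤ => (n : ℝ) * Real.sin (2 * π * a * n) * rexp (-π * (n : ℝ) ^ 2 * t)) =
      fun n : ℤ => (-Complex.I * n * Complex.exp (2 * π * Complex.I * a * n) * rexp (-π * n ^ 2 * t)).re :=
    funext fun n => (TOd_term a t n).symm
  rw [e]
  exact h

private theorem TOd_val (x : ℤ) : Real.sin (π * x / 3) = √3 / 2 *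
    ((if x % 6 = 1 then 1 else 0) + (if x % 6 = 2 then 1 else 0) - (if x % 6 = 4 then 1 else 0) -
      (if x % 6 = 5 then 1 else 0)) := by
  have h0 : Real.sin (π * x / 3) = Real.sin (π * ((x % 6 : ℤ) : ℝ) / 3) := by
    have h1 : π * (x : ℝ) / 3 = π * ((x % 6 : ℤ) : ℝ) / 3 + ((x / 6 : ℤ) : ℝ) * (2 * π) := by
      have h2 : ((6 * (x / 6) + x % 6 : ℤ) : ℝ) = (x : ℝ) := by
        rw [Int.mul_ediv_add_emod]
      rw [← h2]
      push_cast
      ring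
    rw [h1, Real.sin_add_int_mul_two_pi]
  have h3 : Real.sin (π / 3) = √3 / 2 := Real.sin_pi_div_three
  rw [h0]
  have h6 : x % 6 = 0 ∨ x % 6 = 1 ∨ x % 6 = 2 ∨ x % 6 = 3 ∨ x % 6 = 4 ∨ x % 6 = 5 := by omega
  rcases h6 with h | h | h | h | h | h <;> rw [h]
  · have e : π * ((0 : ℤ) : ℝ) / 3 = 0 := by push_cast; ring
    rw [e, Real.sin_zero]
    norm_num
  · have e : π * ((1 : ℤ) : ℝ) / 3 = π / 3 := by push_cast; ring
    rw [e, h3]
    norm_num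
  · have e : π * ((2 : ℤ) : ℝ) / 3 = π - π / 3 := by push_cast; ring
    rw [e, Real.sin_pi_sub, h3]
    norm_num
  · have e : π * ((3 : ℤ) : ℝ) / 3 = π := by push_cast; ring
    rw [e, Real.sin_pi]
    norm_num
  · have e : π * ((4 : ℤ) : ℝ) / 3 = π / 3 + π := by push_cast; ring
    rw [e, Real.sin_add_pi, h3]
    norm_num
  · have e : π * ((5 : ℤ) : ℝ) / 3 = -(π / 3) + (1 : ℤ) * (2 * π) := by push_cast; ring
    rw [e, Real.sin_add_int_mul_two_pi, Real.sin_neg, h3]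
    norm_num

private theorem TOd_neg (s : ℕ) (y : ℝ) :
    oddKernel (((-(s : ℤ) : ℤ) / 6 : ℝ) : UnitAddCircle) y = -od s y := by
  have h : ((((-(s : ℤ) : ℤ) : ℝ) / 6 : ℝ) : UnitAddCircle) = -((s / 6 : ℝ) : UnitAddCircle) := by
    have h1 : (((-(s : ℤ) : ℤ) : ℝ) / 6 : ℝ) = -((s : ℝ) / 6) := by
      push_cast
      ring
    rw [h1]
    rfl
  rw [h, oddKernel_neg]
  rfl

private theorem TOd_pos (s : ℕ) (y : ℝ) :
    oddKernel ((((s : ℤ) : ℤ) / 6 : ℝ) : UnitAddCircle) y = od s y := by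
  unfold od
  rw [Int.cast_natCast]

private theorem TOd_fe (r : ℕ) {y : ℝ} (hy : 0 < y) :
    od r (36 / y) = √(y / 36) ^ 3 * sinKernel ((r / 6 : ℝ) : UnitAddCircle) (y / 36) := by
  unfold od
  rw [oddKernel_functional_equation]
  have h1 : 1 / (36 / y) = y / 36 := one_div_div 36 y
  have h2 : 1 / (36 / y) ^ (3 / 2 : ℝ) = √(y / 36) ^ 3 := by
    have h3 : (0 : ℝ) ≤ y / 36 := by positivity
    have h4 : 36 / y = (y / 36)⁻¹ := (inv_div y 36).symm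
    rw [h4, Real.inv_rpow h3, one_div, inv_inv, Real.sqrt_eq_rpow, ← Real.rpow_natCast, ← Real.rpow_mul h3]
    refine congrArg (fun t : ℝ => (y / 36) ^ t) ?_
    norm_num
  rw [h1, h2]

private theorem TOd_one {y : ℝ} (hy : 0 < y) :
    sinKernel (((1 : ℕ) / 6 : ℝ) : UnitAddCircle) (y / 36) = 6 * √3 * (od 1 y + od 2 y) := by
  have h := TOd_sin ((1 : ℕ) / 6 : ℝ) (by positivity : 0 < y / 36)
  have h1 := (((TOd_res (1 : ℕ) hy).add (TOd_res (2 : ℕ) hy)).sub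
    ((TOd_res (-(2 : ℕ)) hy).add (TOd_res (-(1 : ℕ)) hy))).mul_left (√3 / 2)
  rw [TOd_pos, TOd_pos, TOd_neg, TOd_neg] at h1
  have h2 : sinKernel (((1 : ℕ) / 6 : ℝ) : UnitAddCircle) (y / 36) =
      √3 / 2 * (6 * od 1 y + 6 * od 2 y - (6 * -od 2 y + 6 * -od 1 y)) := by
    refine h.unique ?_
    have e : (fun n : ℤ => (n : ℝ) * Real.sin (2 * π * ((1 : ℕ) / 6 : ℝ) * n) * rexp (-π * (n : ℝ) ^ 2 * (y / 36))) =
        fun x : ℤ => √3 / 2 * (((if x % 6 = ((1 : ℕ) : ℤ) % 6 then (x : ℝ) * rexp (-π * (x : ℝ) ^ 2 * (y / 36)) else 0) +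
          (if x % 6 = ((2 : ℕ) : ℤ) % 6 then (x : ℝ) * rexp (-π * (x : ℝ) ^ 2 * (y / 36)) else 0)) -
          ((if x % 6 = (-((2 : ℕ) : ℤ)) % 6 then (x : ℝ) * rexp (-π * (x : ℝ) ^ 2 * (y / 36)) else 0) +
          (if x % 6 = (-((1 : ℕ) : ℤ)) % 6 then (x : ℝ) * rexp (-π * (x : ℝ) ^ 2 * (y / 36)) else 0))) := by
      funext x
      have e1 : 2 * π * ((1 : ℕ) / 6 : ℝ) * x = π * x / 3 := by
        push_cast
        ring
      rw [e1, TOd_val]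
      have h6 : x % 6 = 0 ∨ x % 6 = 1 ∨ x % 6 = 2 ∨ x % 6 = 3 ∨ x % 6 = 4 ∨ x % 6 = 5 := by omega
      rcases h6 with h | h | h | h | h | h <;> rw [h] <;> norm_num <;> ring
    rw [e]
    exact h1
  rw [h2]
  ring

private theorem TOd_two {y : ℝ} (hy : 0 < y) :
    sinKernel (((2 : ℕ) / 6 : ℝ) : UnitAddCircle) (y / 36) = 6 * √3 * (od 1 y - od 2 y) := by
  have h := TOd_sin ((2 : ℕ) / 6 : ℝ) (by positivity : 0 < y / 36)
  have h1 := (((TOd_res (1 : ℕ) hy).add (TOd_res (-(2 : ℕ)) hy)).sub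
    ((TOd_res (2 : ℕ) hy).add (TOd_res (-(1 : ℕ)) hy))).mul_left (√3 / 2)
  rw [TOd_pos, TOd_pos, TOd_neg, TOd_neg] at h1
  have h2 : sinKernel (((2 : ℕ) / 6 : ℝ) : UnitAddCircle) (y / 36) =
      √3 / 2 * (6 * od 1 y + 6 * -od 2 y - (6 * od 2 y + 6 * -od 1 y)) := by
    refine h.unique ?_
    have e : (fun n : ℤ => (n : ℝ) * Real.sin (2 * π * ((2 : ℕ) / 6 : ℝ) * n) * rexp (-π * (n : ℝ) ^ 2 * (y / 36))) =
        fun x : ℤ => √3 / 2 * (((if x % 6 = ((1 : ℕ) : ℤ) % 6 then (x : ℝ) * rexp (-π * (x : ℝ) ^ 2 * (y / 36)) else 0) +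
          (if x % 6 = (-((2 : ℕ) : ℤ)) % 6 then (x : ℝ) * rexp (-π * (x : ℝ) ^ 2 * (y / 36)) else 0)) -
          ((if x % 6 = ((2 : ℕ) : ℤ) % 6 then (x : ℝ) * rexp (-π * (x : ℝ) ^ 2 * (y / 36)) else 0) +
          (if x % 6 = (-((1 : ℕ) : ℤ)) % 6 then (x : ℝ) * rexp (-π * (x : ℝ) ^ 2 * (y / 36)) else 0))) := by
      funext x
      have e1 : 2 * π * ((2 : ℕ) / 6 : ℝ) * x = π * ((2 * x : ℤ) : ℝ) / 3 := by
        push_cast
        ring
      rw [e1, TOd_val]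
      have h7 : (x % 6 = 0 ∧ 2 * x % 6 = 0) ∨ (x % 6 = 1 ∧ 2 * x % 6 = 2) ∨ (x % 6 = 2 ∧ 2 * x % 6 = 4) ∨
        (x % 6 = 3 ∧ 2 * x % 6 = 0) ∨ (x % 6 = 4 ∧ 2 * x % 6 = 2) ∨ (x % 6 = 5 ∧ 2 * x % 6 = 4) := by omega
      rcases h7 with ⟨h, h'⟩ | ⟨h, h'⟩ | ⟨h, h'⟩ | ⟨h, h'⟩ | ⟨h, h'⟩ | ⟨h, h'⟩ <;> rw [h, h'] <;> norm_num <;> ring
    rw [e]
    exact h1
  rw [h2]
  ring

theorem od1_inv {y : ℝ} (hy : 0 < y) :
    od 1 (36 / y) = √(y / 36) ^ 3 * (6 * √3) * (od 1 y + od 2 y) := by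
  rw [TOd_fe 1 hy, TOd_one hy]
  ring

theorem od2_inv {y : ℝ} (hy : 0 < y) :
    od 2 (36 / y) = √(y / 36) ^ 3 * (6 * √3) * (od 1 y - od 2 y) := by
  rw [TOd_fe 2 hy, TOd_two hy]
  ring

end Pool.Agent.Lib.MP_1a91b9_ntCR
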