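import Pool.Agent.Lib.MP_1a91b9_ntCR.TEv
import Pool.Agent.Lib.MP_1a91b9_ntCR.TOd

/-!
# MP_1a91b9_nt (cubic stability, rank two): the functional equation of the theta series, and its continuity

Proof of `ff_inv`. `A = 2 t / √3`, `B = 18 √3 t = 27 A`. For `1 / t` one has `2 (1 / t) / √3 = 36 / B` and
`18 √3 (1 / t) = 36 / A`. Put `l = √(A / 36)`; `√(B / 36) = 3 √3 l`. The six formulas `ev0_inv`, .. at `y = B` and `y = A`
express `ff (1 / t)` by the kernels at `A` and `B`: with `P, Q = od 1 A, od 2 A`, `U, V = ev 1 A, ev 2 A`,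
`p, q = od 1 B, od 2 B`, `e r = ev r B`: `ff t = 3 X - 27 Y`, `X = Q (e 0 - e 2) - P (e 3 - e 1)`, `Y = U p - V q`, and
`ff (1 / t) = 18 (3√3 l)³ 6√3 l Y - 54 (3√3 l) (l³ 6√3) X`, with `l² = A / 36`: this is
`- t² (3 X - 27 Y)`, because `54 * 3√3 * 6√3 * l⁴ = 2916 (A / 36)² = 3 * (3 / 4) A² = 3 t²` and
`18 * 81 √3 * 6 √3 * l⁴ = 26244 (A / 36)² = 27 t²`.

Proof of `ff_cont`: `continuousOn_evenKernel`, `continuousOn_oddKernel` (or `continuous...`) and composition.
-/

set_option autoImplicit false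

namespace Pool.Agent.Lib.MP_1a91b9_ntCR

open HurwitzZeta Real

private theorem TFe_cont_ev (r : ℕ) {c : ℝ} (hc : 0 < c) : ContinuousOn (fun t : ℝ => ev r (c * t)) (Set.Ioi 0) :=
  ContinuousOn.comp (continuousOn_evenKernel _) (continuous_const.mul continuous_id).continuousOn
    fun _ ht => mul_pos hc ht

private theorem TFe_cont_od (r : ℕ) {c : ℝ} (hc : 0 < c) : ContinuousOn (fun t : ℝ => od r (c * t)) (Set.Ioi 0) :=
  ContinuousOn.comp (continuousOn_oddKernel _) (continuous_const.mul continuous_id).continuousOn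
    fun _ ht => mul_pos hc ht

theorem ff_inv {t : ℝ} (ht : 0 < t) : ff (1 / t) = -(t ^ 2 * ff t) := by
  have h3 : √3 ^ 2 = 3 := Real.sq_sqrt (by norm_num)
  have h3p : 0 < √3 := Real.sqrt_pos.mpr (by norm_num)
  have hA : 0 < 2 * t / √3 := by positivity
  have hB : 0 < 18 * √3 * t := by positivity
  have hA' : 2 * (1 / t) / √3 = 36 / (18 * √3 * t) := by
    field_simp
    norm_num
  have hB' : 18 * √3 * (1 / t) = 36 / (2 * t / √3) := by
    field_simp
    norm_num
  have hsq : √((2 * t / √3) / 36) ^ 2 = (2 * t / √3) / 36 := Real.sq_sqrt (by positivity)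
  have hs : √((18 * √3 * t) / 36) = 3 * √3 * √((2 * t / √3) / 36) := by
    have h4 : (18 * √3 * t) / 36 = (3 * √3 * √((2 * t / √3) / 36)) ^ 2 := by
      rw [mul_pow, hsq]
      field_simp
      norm_num
    rw [h4]
    exact Real.sqrt_sq (by positivity)
  have hl4 : √((2 * t / √3) / 36) ^ 4 = t ^ 2 / 972 := by
    have h5 : √((2 * t / √3) / 36) ^ 4 = (√((2 * t / √3) / 36) ^ 2) ^ 2 := by ring
    rw [h5, hsq, div_pow, div_pow, h3]
    ring
  unfold ff
  rw [hA', hB', ev0_inv hA, ev1_inv hA, ev2_inv hA, ev3_inv hA, ev2_inv hB, ev1_inv hB, od1_inv hA,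
    od2_inv hA, od1_inv hB, od2_inv hB, hs]
  generalize √((2 * t / √3) / 36) = l at hl4 ⊢
  generalize ev 0 (18 * √3 * t) = e0
  generalize ev 1 (18 * √3 * t) = e1
  generalize ev 2 (18 * √3 * t) = e2
  generalize ev 3 (18 * √3 * t) = e3
  generalize od 1 (18 * √3 * t) = p
  generalize od 2 (18 * √3 * t) = q
  generalize od 1 (2 * t / √3) = P
  generalize od 2 (2 * t / √3) = Q
  generalize ev 1 (2 * t / √3) = U
  generalize ev 2 (2 * t / √3) = V
  generalize ev 0 (2 * t / √3) = W0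
  generalize ev 3 (2 * t / √3) = W3
  generalize √3 = r at h3 ⊢
  linear_combination (108 * 27 * (U * p - V * q) * l ^ 4 * (r ^ 2 + 3) -
    972 * (Q * (e0 - e2) - P * (e3 - e1)) * l ^ 4) * h3 +
    (26244 * (U * p - V * q) - 2916 * (Q * (e0 - e2) - P * (e3 - e1))) * hl4

theorem ff_cont : ContinuousOn ff (Set.Ioi 0) := by
  have h3p : 0 < √3 := Real.sqrt_pos.mpr (by norm_num)
  have hA : ∀ t : ℝ, 2 * t / √3 = (2 / √3) * t := fun t => by ring
  have hc : 0 < 2 / √3 := by positivity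
  have hd : 0 < 18 * √3 := by positivity
  unfold ff
  simp only [hA]
  refine ContinuousOn.sub (ContinuousOn.add (ContinuousOn.sub ?_ ?_) ?_) ?_
  · exact (continuousOn_const.mul (TFe_cont_od 2 hc)).mul ((TFe_cont_ev 0 hd).sub (TFe_cont_ev 2 hd))
  · exact (continuousOn_const.mul (TFe_cont_od 1 hc)).mul ((TFe_cont_ev 3 hd).sub (TFe_cont_ev 1 hd))
  · exact (continuousOn_const.mul (TFe_cont_ev 2 hc)).mul (TFe_cont_od 2 hd)
  · exact (continuousOn_const.mul (TFe_cont_ev 1 hc)).mul (TFe_cont_od 1 hd)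

end Pool.Agent.Lib.MP_1a91b9_ntCR
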