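import Pool.Agent.Lib.MP_1a91b9_ntCR.TPt
import Pool.Agent.Lib.MP_1a91b9_ntCR.TFe

/-!
# MP_1a91b9_nt (cubic stability, rank two): the theta series is positive for `t > 1`

Proof of `ff_pos`. `ff 1 = 0` (`ff_inv` at `1`). Let `κ = π sc`. Multiply the real part of `hasSum_ff` at `t` by `exp (κ t)`,
and at `1` by `exp κ`: `exp (κ t) * ff t = ∑ (re cf p) exp (-κ (nf p - 1) t)`, `0 = ∑ (re cf p) exp (-κ (nf p - 1))`. The
difference is `exp (κ t) ff t = ∑ -(re cf p) ph t (nf p - 1)`, which is at least `(3/5) ph t 3 > 0` by `pt_le`,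
`bb_sum` (`hasSum_le`).
-/

set_option autoImplicit false

namespace Pool.Agent.Lib.MP_1a91b9_ntCR

open Real

theorem ff_pos {t : ℝ} (ht : 1 < t) : 0 < ff t := by
  have ht0 : 0 < t := by linarith
  have h1 : ff 1 = 0 := by
    have h2 := ff_inv one_pos
    rw [div_one, one_pow, one_mul] at h2
    linarith
  have hre : ∀ s : ℝ, 0 < s → HasSum (fun p : ℤ × ℤ => (cf p).re * rexp (-π * (nf p * sc) * s)) (ff s) := by
    intro s hs
    have h3 := Complex.reCLM.hasSum (hasSum_ff hs)
    have h4 : (fun p : ℤ × ℤ => Complex.reCLM (cf p * (rexp (-π * (nf p * sc) * s) : ℂ))) =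
        fun p : ℤ × ℤ => (cf p).re * rexp (-π * (nf p * sc) * s) := by
      funext p
      rw [Complex.reCLM_apply, Complex.re_mul_ofReal]
    rw [h4] at h3
    exact h3
  have hA := (hre t ht0).mul_left (rexp (π * sc * t))
  have hB := (hre 1 one_pos).mul_left (rexp (π * sc))
  have hC := hA.sub hB
  rw [h1, mul_zero, sub_zero] at hC
  have hD := bb_sum.mul_right (ph t 3)
  have hE : 3 / 5 * ph t 3 ≤ rexp (π * sc * t) * ff t := by
    refine hasSum_le (fun p => ?_) hD hC
    refine (pt_le ht p).trans (le_of_eq ?_)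
    unfold ph
    have e1 : rexp (-(π * sc * ((nf p : ℝ) - 1))) = rexp (π * sc) * rexp (-π * (nf p * sc) * 1) := by
      rw [← Real.exp_add]
      congr 1
      ring
    have e2 : rexp (-(π * sc * ((nf p : ℝ) - 1) * t)) = rexp (π * sc * t) * rexp (-π * (nf p * sc) * t) := by
      rw [← Real.exp_add]
      congr 1
      ring
    rw [e1, e2]
    ring
  have hF : 0 < rexp (π * sc * t) * ff t := by
    have h6 := ph_pos ht (show (0 : ℝ) < 3 by norm_num)
    linarith
  exact (pos_iff_pos_of_mul_pos hF).1 (Real.exp_pos _)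

/-- The properties of the theta series. -/
theorem fd : FD ff where
  hs := fun _ ht => hasSum_ff ht
  fc := ff_cont
  fe := fun _ ht => ff_inv ht
  dec := ff_dec
  pos := fun _ ht => ff_pos ht

end Pool.Agent.Lib.MP_1a91b9_ntCR
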