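import Pool.Agent.Lib.MP_1a91b9_ntCR.LDbl
import Pool.Agent.Lib.MP_1a91b9_ntCR.LSer
import Pool.Agent.Lib.MP_1a91b9_ntCR.Mel
import Pool.Agent.Lib.MP_1a91b9_ntCR.TPos

/-!
# MP_1a91b9_nt (cubic stability, rank two): the order of vanishing of the L-series of `y² + √-3 y = x³`
over `ℚ(√-3)` is two

Proof. `LH_real`: as `LG_real` in `MP_1a91b9_ntC/L3.lean`: both sides are entire (`S4.differentiable_conj_conj`), so it is enough
(`S4.entire_eq`) to compare them for `2 < Re s`, by `LH_dbl`: the bijection `(m, n) ↦ (m - n, -n)` of `ℤ × ℤ` (complex conjugation on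
`1 + 3 m + 3 n ζ`) preserves `nf` and maps `cf` to its conjugate (`zw ^ 2` is the conjugate of `zw`, `zw ^ 3 = 1`); the conjugate of
`nf ^ (-conj s)` is `nf ^ (-s)` (`nf p ≥ 0`).

`exists_g`: as `exists_g` in `MP_1a91b9_ntC/L3.lean`: `mel_L fd` gives `L`, `LH = L` (`S4.entire_eq`), so `LH` has a simple zero at `1`
and `g s = LH s * LH s`.
-/

set_option autoImplicit false

namespace Pool.Agent.Lib.MP_1a91b9_ntCR

open NumberField Pool.Agent.Lib.MP_1a91b9_ntT Pool.Agent.Lib.MP_1a91b9_ntK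
open Pool.Agent.Lib.MP_1a91b9_ntH (wO s3)

private theorem LOrd_zw_sq : zw ^ 2 = (starRingEnd ℂ) zw := by
  have h3 : √3 * √3 = 3 := Real.mul_self_sqrt (by norm_num)
  apply Complex.ext
  · simp only [zw, pow_two, Complex.mul_re, Complex.conj_re]
    linear_combination (-1 / 4 : ℝ) * h3
  · simp only [zw, pow_two, Complex.mul_im, Complex.conj_im]
    ring

private theorem LOrd_zw_sum : 1 + zw + zw ^ 2 = 0 := by
  rw [LOrd_zw_sq]
  apply Complex.ext
  · simp only [zw, Complex.add_re, Complex.one_re, Complex.conj_re, Complex.zero_re]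
    norm_num
  · simp only [zw, Complex.add_im, Complex.one_im, Complex.conj_im, Complex.zero_im]
    ring

private theorem LOrd_zw_cube : zw ^ 3 = 1 := by
  linear_combination (zw - 1) * LOrd_zw_sum

private theorem LOrd_zw_ne : zw ≠ 0 := by
  intro h0
  have h1 := LOrd_zw_cube
  rw [h0, zero_pow (by norm_num)] at h1
  exact zero_ne_one h1

private theorem LOrd_zw_inv : (starRingEnd ℂ) zw = zw⁻¹ := by
  rw [← LOrd_zw_sq]
  apply eq_inv_of_mul_eq_one_left
  rw [← pow_succ, LOrd_zw_cube]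

private theorem LOrd_cf (p : ℤ × ℤ) : cf (p.1 - p.2, -p.2) = (starRingEnd ℂ) (cf p) := by
  have h1 : (starRingEnd ℂ) (zw ^ (-p.2)) = zw ^ p.2 := by
    rw [map_zpow₀, LOrd_zw_inv, inv_zpow', neg_neg]
  have h2 : (starRingEnd ℂ) (zw ^ 2) = zw := by
    rw [LOrd_zw_sq, Complex.conj_conj]
  unfold cf
  rw [map_mul, h1, map_add, map_add, map_mul, map_mul, map_mul, h2, map_one, map_intCast,
    map_intCast, map_ofNat]
  change zw ^ (-(-p.2)) * (1 + 3 * ((p.1 - p.2 : ℤ) : ℂ) + 3 * ((-p.2 : ℤ) : ℂ) * zw ^ 2) = _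
  rw [neg_neg]
  congr 1
  push_cast
  linear_combination (-3 * (p.2 : ℂ)) * LOrd_zw_sum

private theorem LOrd_nf (p : ℤ × ℤ) : nf (p.1 - p.2, -p.2) = nf p := by
  change (1 + 3 * (p.1 - p.2)) ^ 2 - 3 * (-p.2) * (1 + 3 * (p.1 - p.2)) + 9 * (-p.2) ^ 2 =
    (1 + 3 * p.1) ^ 2 - 3 * p.2 * (1 + 3 * p.1) + 9 * p.2 ^ 2
  ring

private theorem LOrd_nf_nonneg (p : ℤ × ℤ) : 0 ≤ nf p := by
  unfold nf
  nlinarith [sq_nonneg (2 * (1 + 3 * p.1) - 3 * p.2), sq_nonneg p.2]

private def LOrd_e : ℤ × ℤ ≃ ℤ × ℤ where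
  toFun p := (p.1 - p.2, -p.2)
  invFun p := (p.1 - p.2, -p.2)
  left_inv p := by
    ext
    · change p.1 - p.2 - -p.2 = p.1
      ring
    · change - -p.2 = p.2
      ring
  right_inv p := by
    ext
    · change p.1 - p.2 - -p.2 = p.1
      ring
    · change - -p.2 = p.2
      ring

theorem LH_real (s : ℂ) : (starRingEnd ℂ) (LH ((starRingEnd ℂ) s)) = LH s := by
  have hd := LH_diff
  have h := Pool.Agent.Lib.MP_1a91b9_ntT.S4.entire_eq
    (Pool.Agent.Lib.MP_1a91b9_ntT.S4.differentiable_conj_conj hd) hd fun s hs => by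
    have h1 := LH_dbl hs
    have h2 := LH_dbl (s := (starRingEnd ℂ) s) (by rw [Complex.conj_re]; exact hs)
    change (starRingEnd ℂ) (LH ((starRingEnd ℂ) s)) = LH s
    rw [h1, h2, Complex.conj_tsum, ← LOrd_e.tsum_eq]
    refine tsum_congr fun p => ?_
    change (starRingEnd ℂ) (cf (p.1 - p.2, -p.2) *
      ((nf (p.1 - p.2, -p.2) : ℤ) : ℂ) ^ (-(starRingEnd ℂ) s)) = _
    rw [LOrd_cf, LOrd_nf, map_mul, Complex.conj_conj]
    congr 1
    obtain ⟨n, hn⟩ := Int.eq_ofNat_of_zero_le (LOrd_nf_nonneg p)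
    rw [hn, Int.cast_natCast, ← map_neg, Complex.cpow_conj _ _ (by
      rw [Complex.natCast_arg]
      exact Real.pi_pos.ne), Complex.conj_natCast, Complex.conj_conj]
  exact congrFun h s

/-- **The order of vanishing is two.** -/
theorem exists_g : ∃ g : ℂ → ℂ, Differentiable ℂ g ∧
    (∀ s : ℂ, 3 / 2 < s.re → g s = (WD s3).LSeries s) ∧ analyticOrderAt g 1 = 2 := by
  obtain ⟨L, hL, h2, h3, h4⟩ := mel_L fd
  have hd := LH_diff
  have e : LH = L := Pool.Agent.Lib.MP_1a91b9_ntT.S4.entire_eq hd hL fun s hs => by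
    rw [LH_dbl hs, h2 s hs]
  have e1 : LH 1 = 0 := by rw [e, h3]
  have e2 : deriv LH 1 ≠ 0 := by rw [e]; exact h4
  have ha : AnalyticAt ℂ LH 1 := hd.analyticAt 1
  have e3 : analyticOrderAt LH 1 = 1 := by
    have h5 := ha.analyticOrderAt_sub_eq_one_of_deriv_ne_zero e2
    simpa [e1] using h5
  refine ⟨fun s => LH s * LH s, hd.mul hd, fun s hs => ?_, ?_⟩
  · have h5 := LH_ser s hs
    rw [LH_real] at h5
    exact h5
  · have h5 := analyticOrderAt_mul ha ha
    rw [e3] at h5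
    exact h5

end Pool.Agent.Lib.MP_1a91b9_ntCR
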