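import Pool.Agent.Lib.MP_1a91b9_ntCR.Sum3

/-!
# MP_1a91b9_nt (cubic stability, rank two): the index of the multiples of `1 - ω` on `y² = x³ + k²`

Proof. For a point `P` and `i : ι` say that `P` has the class `i` if: `P = 0` and `1 = c i * b³` for some `b ≠ 0`; or `P = (0, k) = tq h` and
`(2 k)² = c i * b³` for some `b ≠ 0`; or `P = (x, y)`, `y ≠ k` and `y - k = c i * b³` for some `b ≠ 0`. Every point has a class (`hcl`, `hT`,
`h1`; a point `(x, k)` has `x = 0`). Two points `P`, `Q` with the same class have `P - Q ∈ (mu h).range`: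
* `P = Q = 0`, `P = Q = tq h`: clear;
* `P = 0`, `Q = (x, y)`: `y - k = (b / b')³` is a nonzero cube, `exists_mu`;
* `P = 0`, `Q = tq h`: `(2 k)² = (b / b')³`, so `2 k = (2 k b' / b)³ ..` is a cube, excluded by `hc`;
* `P = tq h`, `Q = (x, y)`: `Q - P = Q + (0, -k)` and `(y - k) (-k - k) = (y - k)(-2 k)`, with `y - k = (2 k)² (b / b')³`: it is `(-2 k b / b')³`, so
  `sum_mem3` applies (`-k ≠ k`);
* `P = (x, y)`, `Q = (x', y')`, `y' ≠ -k`: `P - Q = P + (x', -y')` and `neg_cls`: `(y - k) (-y' - k) = (y - k) (-x')³ / (y' - k) = (-x' b / b')³`,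
  `sum_mem3`;
* `P = (x, y)`, `Q = (0, -k)`, `y ≠ -k`: by `neg_cls` for `P`: `Q - P = (0, -k) + (x, -y)`, and
  `(-2 k) (-y - k) = (-2 k) (-x)³ / (y - k) = (-x b' / b)³`, `sum_mem3`;
* `P = Q = (0, -k)`: clear.
So the map from the quotient by `(mu h).range` to `ι` (a class of a representative `Quotient.out`) is injective.
(Compare `index_le_four` in `MP_1a91b9_ntC/Desc.lean`.)
-/

set_option autoImplicit false

namespace Pool.Agent.Lib.MP_1a91b9_ntCR

open WeierstrassCurve Pool.Agent.Lib.MP_1a91b9_ntK.C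
open scoped Classical

variable {F : Type*} [Field F] [CharZero F] {W : Affine F} {z k : F}

private def Nine_cls (h : IsK W z k) (a : F) (P : W.Point) : Prop :=
  (P = 0 ∧ ∃ b : F, b ≠ 0 ∧ 1 = a * b ^ 3) ∨ (P = tq h ∧ ∃ b : F, b ≠ 0 ∧ (2 * k) ^ 2 = a * b ^ 3) ∨
    ∃ (x y : F) (hn : W.Nonsingular x y), P = Affine.Point.some x y hn ∧ y ≠ k ∧ ∃ b : F, b ≠ 0 ∧ y - k = a * b ^ 3

private theorem Nine_x0 (h : IsK W z k) {x y : F} (hn : W.Nonsingular x y) (hy : y ^ 2 = k ^ 2) : x = 0 := by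
  have h1 := (h.nons x y).1 hn
  have h2 : x ^ 3 = 0 := by linear_combination hy - h1
  exact pow_eq_zero_iff three_ne_zero |>.1 h2

private theorem Nine_pt {x y x' y' : F} (hx : x = x') (hy : y = y') (hn : W.Nonsingular x y) (hn' : W.Nonsingular x' y') :
    Affine.Point.some x y hn = Affine.Point.some x' y' hn' := by
  subst hx
  subst hy
  rfl

private theorem Nine_pp (h : IsK W z k) (hc : ∀ b : F, b ^ 3 ≠ 2 * k) {x y x' y' : F} (hn : W.Nonsingular x y)
    (hn' : W.Nonsingular x' y') (hy : y ≠ k) (hy' : y' ≠ k) {t : F} (e : y - k = (y' - k) * t ^ 3) (hk : y' ≠ -k) :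
    Affine.Point.some x y hn - Affine.Point.some x' y' hn' ∈ (mu h).range := by
  obtain ⟨hn'', e1, h2, h3⟩ := neg_cls h hn' hy' hk
  rw [sub_eq_add_neg, e1]
  refine sum_mem3 h hc hn hn'' hy h2 (v := -x' * t) ?_
  rw [e, mul_pow, ← h3]
  ring

private theorem Nine_ppp (h : IsK W z k) (hc : ∀ b : F, b ^ 3 ≠ 2 * k) {x y x' y' : F} (hn : W.Nonsingular x y)
    (hn' : W.Nonsingular x' y') (hy : y ≠ k) (hy' : y' ≠ k) {a b b' : F} (hb : b ≠ 0) (hb' : b' ≠ 0)
    (e : y - k = a * b ^ 3) (e' : y' - k = a * b' ^ 3) :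
    Affine.Point.some x y hn - Affine.Point.some x' y' hn' ∈ (mu h).range := by
  have e1 : y - k = (y' - k) * (b / b') ^ 3 := by
    rw [e, e']
    field_simp
  have e2 : y' - k = (y - k) * (b' / b) ^ 3 := by
    rw [e, e']
    field_simp
  by_cases h1 : y' = -k
  · by_cases h2 : y = -k
    · have h3 : x = x' := by
        rw [Nine_x0 h hn (by rw [h2]; ring), Nine_x0 h hn' (by rw [h1]; ring)]
      rw [Nine_pt h3 (h2.trans h1.symm) hn hn', sub_self]
      exact zero_mem _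
    · have h3 := Nine_pp h hc hn' hn hy' hy e2 h2
      rw [← neg_sub]
      exact neg_mem h3
  · exact Nine_pp h hc hn hn' hy hy' e1 h1

private theorem Nine_tp (h : IsK W z k) (hc : ∀ b : F, b ^ 3 ≠ 2 * k) {x y : F} (hn : W.Nonsingular x y) (hy : y ≠ k)
    {a b b' : F} (hb : b ≠ 0) (hb' : b' ≠ 0) (e : (2 * k) ^ 2 = a * b ^ 3) (e' : y - k = a * b' ^ 3) :
    Affine.Point.some x y hn - tq h ∈ (mu h).range := by
  have h2 : (2 : F) ≠ 0 := two_ne_zero
  have hkk : -k ≠ k := by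
    intro h0
    have h3 : 2 * k = 0 := by linear_combination -h0
    exact mul_ne_zero h2 h.hk h3
  have hn0 : W.Nonsingular 0 (-k) := (h.nons _ _).2 (by ring)
  have h3 : -tq h = Affine.Point.some 0 (-k) hn0 := by
    rw [← tq_neg h]
    rfl
  rw [sub_eq_add_neg, h3]
  refine sum_mem3 h hc hn hn0 hy hkk (v := -(2 * k) * (b' / b)) ?_
  have e1 : y - k = (2 * k) ^ 2 * (b' / b) ^ 3 := by
    rw [e, e']
    field_simp
  rw [e1]
  ring

private theorem Nine_zp (h : IsK W z k) {x y : F} (hn : W.Nonsingular x y)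
    {a b b' : F} (hb : b ≠ 0) (hb' : b' ≠ 0) (e : 1 = a * b ^ 3) (e' : y - k = a * b' ^ 3) :
    Affine.Point.some x y hn ∈ (mu h).range := by
  have e1 : (b' / b) ^ 3 = y - k := by
    rw [e', div_pow, div_eq_iff (pow_ne_zero 3 hb)]
    linear_combination (b' ^ 3) * e
  obtain ⟨P, hP⟩ := exists_mu h hn (b' / b) e1 (div_ne_zero hb' hb)
  exact ⟨P, hP⟩

private theorem Nine_zt (hc : ∀ b : F, b ^ 3 ≠ 2 * k)
    {a b b' : F} (hb : b ≠ 0) (e : 1 = a * b ^ 3) (e' : (2 * k) ^ 2 = a * b' ^ 3) (hk : k ≠ 0) (hb' : b' ≠ 0) : False := by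
  have h2 : (2 : F) ≠ 0 := two_ne_zero
  refine hc (2 * k * (b / b')) ?_
  rw [mul_pow, div_pow]
  have h3 : (2 * k) ^ 2 * b ^ 3 = b' ^ 3 := by
    rw [e']
    linear_combination (-b' ^ 3) * e
  have h4 : b' ^ 3 ≠ 0 := pow_ne_zero 3 hb'
  rw [← mul_div_assoc, div_eq_iff h4]
  linear_combination (2 * k) * h3

private theorem Nine_main (h : IsK W z k) (hc : ∀ b : F, b ^ 3 ≠ 2 * k) {a : F} {P Q : W.Point} (hP : Nine_cls h a P)
    (hQ : Nine_cls h a Q) : P - Q ∈ (mu h).range := by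
  rcases hP with ⟨rfl, b, hb, e⟩ | ⟨rfl, b, hb, e⟩ | ⟨x, y, hn, rfl, hy, b, hb, e⟩
  · rcases hQ with ⟨rfl, b', hb', e'⟩ | ⟨rfl, b', hb', e'⟩ | ⟨x', y', hn', rfl, hy', b', hb', e'⟩
    · rw [sub_self]
      exact zero_mem _
    · exact (Nine_zt hc hb e e' h.hk hb').elim
    · rw [zero_sub]
      exact neg_mem (Nine_zp h hn' hb hb' e e')
  · rcases hQ with ⟨rfl, b', hb', e'⟩ | ⟨rfl, b', hb', e'⟩ | ⟨x', y', hn', rfl, hy', b', hb', e'⟩
    · exact (Nine_zt hc hb' e' e h.hk hb).elim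
    · rw [sub_self]
      exact zero_mem _
    · rw [← neg_sub]
      exact neg_mem (Nine_tp h hc hn' hy' hb hb' e e')
  · rcases hQ with ⟨rfl, b', hb', e'⟩ | ⟨rfl, b', hb', e'⟩ | ⟨x', y', hn', rfl, hy', b', hb', e'⟩
    · rw [sub_zero]
      exact Nine_zp h hn hb' hb e' e
    · exact Nine_tp h hc hn hy hb' hb e' e
    · exact Nine_ppp h hc hn hn' hy hy' hb hb' e e'

theorem index_le_card (h : IsK W z k) (hc : ∀ b : F, b ^ 3 ≠ 2 * k) {ι : Type*} [Fintype ι] (c : ι → F)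
    (hcl : ∀ x y : F, W.Nonsingular x y → y ≠ k → ∃ (i : ι) (b : F), b ≠ 0 ∧ y - k = c i * b ^ 3)
    (hT : ∃ (i : ι) (b : F), b ≠ 0 ∧ (2 * k) ^ 2 = c i * b ^ 3)
    (h1 : ∃ (i : ι) (b : F), b ≠ 0 ∧ 1 = c i * b ^ 3) :
    (mu h).range.index ≤ Fintype.card ι ∧ (mu h).range.index ≠ 0 := by
  have hall : ∀ P : W.Point, ∃ i : ι, Nine_cls h (c i) P := by
    intro P
    rcases P with _ | ⟨x, y, hn⟩
    · obtain ⟨i, b, hb, e⟩ := h1
      exact ⟨i, Or.inl ⟨rfl, b, hb, e⟩⟩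
    · by_cases hy : y = k
      · obtain ⟨i, b, hb, e⟩ := hT
        refine ⟨i, Or.inr (Or.inl ⟨?_, b, hb, e⟩)⟩
        unfold tq
        exact Nine_pt (Nine_x0 h hn (by rw [hy])) hy _ _
      · obtain ⟨i, b, hb, e⟩ := hcl x y hn hy
        exact ⟨i, Or.inr (Or.inr ⟨x, y, hn, rfl, hy, b, hb, e⟩)⟩
  choose f hf using hall
  have hinj : Function.Injective (fun q : W.Point ⧸ (mu h).range => f q.out) := by
    intro q q' hq
    have hq' : f q.out = f q'.out := hq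
    have h2 := hf q.out
    have h3 := hf q'.out
    rw [← hq'] at h3
    have h4 := Nine_main h hc h3 h2
    rw [← QuotientAddGroup.out_eq' q, ← QuotientAddGroup.out_eq' q', QuotientAddGroup.eq, neg_add_eq_sub]
    exact h4
  have hfin : Finite (W.Point ⧸ (mu h).range) := Finite.of_injective _ hinj
  constructor
  · have h5 := Nat.card_le_card_of_injective _ hinj
    rw [Nat.card_eq_fintype_card (α := ι)] at h5
    exact h5
  · exact Nat.card_pos.ne'

end Pool.Agent.Lib.MP_1a91b9_ntCR
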