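import Pool.Agent.Lib.MP_1a91b9_ntCC.RBase
import Pool.Agent.Lib.MP_1a91b9_ntCR.Base2

/-!
# MP_1a91b9_nt (cubic stability, rank two): the curve `y² + a y = x³`, `a² = -3`, over the fields `K(∛e)`
-/

set_option autoImplicit false

namespace Pool.Agent.Lib.MP_1a91b9_ntCR

open NumberField IsDedekindDomain WeierstrassCurve
open Pool.Agent.Lib.MP_1a91b9_ntCC (StbC ramV_self)

open scoped Classical in
/-- **Order and rank two over `K(∛e)` for the curve `y² + a y = x³`, `a² = -3`.** -/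
theorem rbase2 {K : Type} [Field K] [NumberField K] (hK : Module.finrank ℚ K = 2)
    {a : K} (ha : a ^ 2 = -3) {F : Type} [Field F] [NumberField F] [Algebra K F]
    (hF : Module.finrank K F = 1) {e : K} (h : StbC a F e) (F' : Type) [Field F']
    [NumberField F'] [Algebra F F'] (x : F') (hx : x ^ 3 = algebraMap F F' (algebraMap K F e))
    (hgen : IntermediateField.adjoin F {x} = ⊤) :
    (∃ g : ℂ → ℂ, Differentiable ℂ g ∧ (∀ s : ℂ, 3 / 2 < s.re →
      g s = (((⟨0, 0, a, 0, 0⟩ : WeierstrassCurve K).map (algebraMap K F)).map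
        (algebraMap F F')).LSeries s) ∧ analyticOrderAt g 1 = 2) ∧
    Module.finrank ℤ (((⟨0, 0, a, 0, 0⟩ : WeierstrassCurve K).map (algebraMap K F)).map
        (algebraMap F F')).toAffine.Point = 2 := by
  have hFQ : Module.finrank ℚ F = 2 := by
    rw [← Module.finrank_mul_finrank ℚ K F, hK, hF]
  have haF : (algebraMap K F a) ^ 2 = -3 := by
    rw [← map_pow, ha, map_neg, map_ofNat]
  obtain ⟨⟨g0, d0, l0, n0⟩, hrk⟩ := base2 hFQ haF
  have e1 : (⟨0, 0, a, 0, 0⟩ : WeierstrassCurve K).map (algebraMap K F) =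
      (⟨0, 0, algebraMap K F a, 0, 0⟩ : WeierstrassCurve F) :=
    WeierstrassCurve.ext (map_zero _) (map_zero _) rfl (map_zero _) (map_zero _)
  have e2 : ((⟨0, 0, a, 0, 0⟩ : WeierstrassCurve K).map (algebraMap K F)).map
      (algebraMap F F) = (⟨0, 0, algebraMap K F a, 0, 0⟩ : WeierstrassCurve F) := by
    rw [e1]
    exact WeierstrassCurve.map_id _
  obtain ⟨hN, S, hS⟩ := h
  obtain ⟨q, hq1, hq⟩ := Nat.exists_infinite_primes (S.sup id + 1)
  have hqS : q ∉ S := fun h => by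
    have h1 : id q ≤ S.sup id := Finset.le_sup h
    rw [id] at h1
    omega
  have _ : Fact q.Prime := ⟨hq⟩
  obtain ⟨⟨g, g1, g2, g3, -⟩, hr, -⟩ := hS q hqS 0 F F (by rw [pow_zero, Module.finrank_self])
    (ramV_self K _ q) (ramV_self K _ q) F' x hx hgen
  refine ⟨⟨fun s => g0 s * g s, d0.mul g1, fun s hs => ?_, ?_⟩, ?_⟩
  · have h5 := g3 s hs
    rw [e2] at h5
    change g0 s * g s = _
    rw [e1, h5, l0 s hs]
  · have h6 := analyticOrderAt_mul (d0.analyticAt 1) (g1.analyticAt 1)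
    have h7 : analyticOrderAt g 1 = 0 := ((g1.analyticAt 1).analyticOrderAt_eq_zero).2 g2
    rw [n0, h7, add_zero] at h6
    exact h6
  · rw [e2] at hr
    rw [e1]
    exact hr.trans hrk

end Pool.Agent.Lib.MP_1a91b9_ntCR
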