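import Pool.Agent.Lib.MP_1a91b9_ntCR.TSum

/-!
# MP_1a91b9_nt (cubic stability, rank two): the decay of the theta series

Proof. `nf p ≥ 1` for every `p` (`4 nf p = (2 + 6 m - 3 n)² + 27 n² ≥ 1`: it is an integer which is positive since
`2 + 6 m - 3 n` and `n` are not both zero). For `t ≥ 1` put `c = π sc > 0`: `exp (-π nf sc t) ≤ exp (-c t) * exp (c) * exp (-c nf)`
because `nf t ≥ t - 1 + nf` (`(nf - 1) (t - 1) ≥ 0`). So by `hasSum_ff` at `t` and at `1` (the norms are summable in a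
complete space, `Summable.norm`), `|ff t| ≤ exp (-c t) * (exp c * ∑ ‖cf p‖ exp (-c nf p))`.
(`IsBigO.of_bound`, `norm_tsum_le_tsum_norm`.)
-/

set_option autoImplicit false

namespace Pool.Agent.Lib.MP_1a91b9_ntCR

open HurwitzZeta Real

theorem nf_pos (p : ℤ × ℤ) : 1 ≤ nf p := by
  unfold nf
  have h : 0 < (1 + 3 * p.1) ^ 2 - 3 * p.2 * (1 + 3 * p.1) + 9 * p.2 ^ 2 := by
    by_cases hn : p.2 = 0
    · rw [hn]
      have h1 : 1 + 3 * p.1 ≠ 0 := by omega
      have h2 : 0 < (1 + 3 * p.1) ^ 2 := by positivity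
      nlinarith [h2]
    · have h2 : 0 < p.2 ^ 2 := by positivity
      nlinarith [sq_nonneg (2 * (1 + 3 * p.1) - 3 * p.2), h2]
  omega

theorem ff_dec : ∃ c : ℝ, 0 < c ∧ ff =O[Filter.atTop] fun t => rexp (-c * t) := by
  have hsc : 0 < sc := by
    unfold sc
    positivity
  refine ⟨π * sc, mul_pos pi_pos hsc, ?_⟩
  have h1 : Summable fun p : ℤ × ℤ => ‖cf p * (rexp (-π * (nf p * sc) * 1) : ℂ)‖ :=
    (hasSum_ff one_pos).summable.norm
  refine Asymptotics.IsBigO.of_bound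
    (rexp (π * sc) * ∑' p : ℤ × ℤ, ‖cf p * (rexp (-π * (nf p * sc) * 1) : ℂ)‖) ?_
  filter_upwards [Filter.eventually_ge_atTop (1 : ℝ)] with t ht
  have h0 : 0 < t := lt_of_lt_of_le one_pos ht
  have hs := hasSum_ff h0
  have hb : ∀ p : ℤ × ℤ, ‖cf p * (rexp (-π * (nf p * sc) * t) : ℂ)‖ ≤
      (rexp (π * sc) * rexp (-(π * sc) * t)) * ‖cf p * (rexp (-π * (nf p * sc) * 1) : ℂ)‖ := by
    intro p
    have hn : (1 : ℝ) ≤ (nf p : ℝ) := by exact_mod_cast nf_pos p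
    have he : rexp (-π * (nf p * sc) * t) ≤
        rexp (π * sc) * rexp (-(π * sc) * t) * rexp (-π * (nf p * sc) * 1) := by
      rw [← Real.exp_add, ← Real.exp_add]
      apply Real.exp_le_exp.mpr
      have h2 : 0 ≤ (π * sc) * (((nf p : ℝ) - 1) * (t - 1)) :=
        mul_nonneg (mul_pos pi_pos hsc).le (mul_nonneg (sub_nonneg.mpr hn) (sub_nonneg.mpr ht))
      nlinarith [h2]
    rw [norm_mul, norm_mul, Complex.norm_real, Complex.norm_real, Real.norm_of_nonneg (Real.exp_pos _).le,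
      Real.norm_of_nonneg (Real.exp_pos _).le]
    calc ‖cf p‖ * rexp (-π * (nf p * sc) * t)
        ≤ ‖cf p‖ * (rexp (π * sc) * rexp (-(π * sc) * t) * rexp (-π * (nf p * sc) * 1)) :=
          mul_le_mul_of_nonneg_left he (norm_nonneg _)
      _ = rexp (π * sc) * rexp (-(π * sc) * t) * (‖cf p‖ * rexp (-π * (nf p * sc) * 1)) := by ring
  have h3 := tsum_of_norm_bounded (h1.hasSum.mul_left (rexp (π * sc) * rexp (-(π * sc) * t))) hb
  rw [hs.tsum_eq, Complex.norm_real] at h3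
  rw [Real.norm_of_nonneg (Real.exp_pos _).le]
  calc ‖ff t‖ ≤ rexp (π * sc) * rexp (-(π * sc) * t) *
        ∑' p : ℤ × ℤ, ‖cf p * (rexp (-π * (nf p * sc) * 1) : ℂ)‖ := h3
    _ = rexp (π * sc) * (∑' p : ℤ × ℤ, ‖cf p * (rexp (-π * (nf p * sc) * 1) : ℂ)‖) *
        rexp (-(π * sc) * t) := by ring

end Pool.Agent.Lib.MP_1a91b9_ntCR
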