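import Pool.Agent.Lib.MP_1a91b9_ntCR.Defs

/-!
# MP_1a91b9_nt (cubic stability, rank two): the functional equation of the even kernels at `r / 6`

Proof. `evenKernel_functional_equation a x : evenKernel a x = 1 / x ^ (1 / 2) * cosKernel a (1 / x)` at `x = 36 / y`
gives `ev r (36 / y) = √(y / 36) * cosKernel (r / 6) (y / 36)`. By `hasSum_int_cosKernel`,
`cosKernel (r / 6) (y / 36) = ∑ n : ℤ, exp (2 π i r n / 6) exp (-π n² y / 36)`; the terms with `n = 6 k + s`,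
`s = 0, .., 5`, add up to `exp (2 π i r s / 6) * evenKernel (s / 6) y` (`n² y / 36 = (k + s / 6)² y`). So
`cosKernel (r / 6) (y / 36) = ∑ s, cos (π r s / 3) ev s y` (the kernels are real), and `ev 4 y = ev 2 y`,
`ev 5 y = ev 1 y` (`evenKernel_neg`, `-1/3 = 2/3` in `UnitAddCircle`). The cosines are
`r = 0: 1, 1, 1, 1, 1, 1`; `r = 1: 1, 1/2, -1/2, -1, -1/2, 1/2`; `r = 2: 1, -1/2, -1/2, 1, -1/2, -1/2`;
`r = 3: 1, -1, 1, -1, 1, -1`.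

To sum over the residue classes see `hasSum_res` in `MP_1a91b9_ntC/ThG.lean` (`Function.Injective.hasSum_iff` for
`k ↦ 6 k + s`); `zt_gauss` and `sin_GG` there show how to compare the sums.
-/

set_option autoImplicit false

namespace Pool.Agent.Lib.MP_1a91b9_ntCR

open HurwitzZeta Real

private theorem TEv_res (r : ℕ) (hr : r < 6) {y : ℝ} (hy : 0 < y) :
    HasSum (fun x : ℤ => if x % 6 = r then rexp (-π * (x : ℝ) ^ 2 * (y / 36)) else 0) (ev r y) := by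
  have h := hasSum_int_evenKernel ((r : ℝ) / 6) hy
  have hinj : Function.Injective (fun n : ℤ => 6 * n + r) := by
    intro a b hab
    simp only at hab
    omega
  have h2 : (fun n : ℤ => rexp (-π * ((n : ℝ) + (r : ℝ) / 6) ^ 2 * y)) =
      (fun x : ℤ => if x % 6 = r then rexp (-π * (x : ℝ) ^ 2 * (y / 36)) else 0) ∘ (fun n : ℤ => 6 * n + r) := by
    funext n
    simp only [Function.comp]
    have h3 : (6 * n + r) % 6 = r := by omega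
    rw [if_pos h3]
    push_cast
    have e1 : -π * ((n : ℝ) + (r : ℝ) / 6) ^ 2 * y = -π * (6 * (n : ℝ) + (r : ℝ)) ^ 2 * (y / 36) := by ring
    rw [e1]
  rw [h2] at h
  rw [← Function.Injective.hasSum_iff hinj]
  · exact h
  · intro x hx
    rw [if_neg]
    intro h4
    apply hx
    refine ⟨x / 6, ?_⟩
    simp only
    omega

private theorem TEv_neg4 (y : ℝ) : ev 4 y = ev 2 y := by
  unfold ev
  rw [← evenKernel_neg]
  congr 1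
  rw [← AddCircle.coe_neg]
  have h : (((2 : ℕ) / 6 : ℝ)) = -(((4 : ℕ) / 6 : ℝ)) + 1 := by norm_num
  rw [h, AddCircle.coe_add, AddCircle.coe_period, add_zero]

private theorem TEv_neg5 (y : ℝ) : ev 5 y = ev 1 y := by
  unfold ev
  rw [← evenKernel_neg]
  congr 1
  rw [← AddCircle.coe_neg]
  have h : (((1 : ℕ) / 6 : ℝ)) = -(((5 : ℕ) / 6 : ℝ)) + 1 := by norm_num
  rw [h, AddCircle.coe_add, AddCircle.coe_period, add_zero]

private theorem TEv_cosK (r : ℕ) {y : ℝ} (hy : 0 < y) :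
    HasSum (fun n : ℤ => cos (π / 3 * (r * n)) * rexp (-π * (n : ℝ) ^ 2 * (y / 36)))
      (cosKernel ((r / 6 : ℝ) : UnitAddCircle) (y / 36)) := by
  have h := hasSum_int_cosKernel ((r : ℝ) / 6) (by positivity : 0 < y / 36)
  have h1 := Complex.hasSum_re h
  rw [Complex.ofReal_re] at h1
  refine h1.congr_fun fun n => ?_
  have h2 : (2 * π * Complex.I * ((r / 6 : ℝ) : ℂ) * n : ℂ) = ((π / 3 * (r * n) : ℝ) : ℂ) * Complex.I := by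
    push_cast
    ring
  have h3 : Complex.exp (2 * π * Complex.I * ((r / 6 : ℝ) : ℂ) * n) =
      ((cos (π / 3 * (r * n)) : ℝ) : ℂ) + ((sin (π / 3 * (r * n)) : ℝ) : ℂ) * Complex.I := by
    rw [h2, Complex.exp_mul_I, ← Complex.ofReal_cos, ← Complex.ofReal_sin]
  rw [h3, Complex.re_mul_ofReal, Complex.add_re, Complex.ofReal_re, Complex.re_ofReal_mul, Complex.I_re, mul_zero,
    add_zero]

private theorem TEv_period (r : ℕ) (n : ℤ) (s : ℕ) (h : n % 6 = s) :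
    cos (π / 3 * (r * n)) = cos (π / 3 * ((r * s : ℕ) : ℝ)) := by
  have h1 : n = 6 * (n / 6) + s := by omega
  have h2 : π / 3 * (r * (n : ℝ)) = π / 3 * ((r * s : ℕ) : ℝ) + ((r * (n / 6) : ℤ) : ℝ) * (2 * π) := by
    have h3 : (n : ℝ) = 6 * ((n / 6 : ℤ) : ℝ) + (s : ℝ) := by exact_mod_cast h1
    rw [h3]
    push_cast
    ring
  rw [h2, Real.cos_add_int_mul_two_pi]

private theorem TEv_gen (r : ℕ) {y : ℝ} (hy : 0 < y) :
    ev r (36 / y) = √(y / 36) * (cos (π / 3 * ((r * 0 : ℕ) : ℝ)) * ev 0 y + cos (π / 3 * ((r * 1 : ℕ) : ℝ)) * ev 1 y +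
      cos (π / 3 * ((r * 2 : ℕ) : ℝ)) * ev 2 y + cos (π / 3 * ((r * 3 : ℕ) : ℝ)) * ev 3 y +
      cos (π / 3 * ((r * 4 : ℕ) : ℝ)) * ev 4 y + cos (π / 3 * ((r * 5 : ℕ) : ℝ)) * ev 5 y) := by
  have h0 := (TEv_res 0 (by norm_num) hy).mul_left (cos (π / 3 * ((r * 0 : ℕ) : ℝ)))
  have h1 := (TEv_res 1 (by norm_num) hy).mul_left (cos (π / 3 * ((r * 1 : ℕ) : ℝ)))
  have h2 := (TEv_res 2 (by norm_num) hy).mul_left (cos (π / 3 * ((r * 2 : ℕ) : ℝ)))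
  have h3 := (TEv_res 3 (by norm_num) hy).mul_left (cos (π / 3 * ((r * 3 : ℕ) : ℝ)))
  have h4 := (TEv_res 4 (by norm_num) hy).mul_left (cos (π / 3 * ((r * 4 : ℕ) : ℝ)))
  have h5 := (TEv_res 5 (by norm_num) hy).mul_left (cos (π / 3 * ((r * 5 : ℕ) : ℝ)))
  have h := ((((h0.add h1).add h2).add h3).add h4).add h5
  have hc := TEv_cosK r hy
  have hu := hc.unique (h.congr_fun fun n => ?_)
  · unfold ev
    rw [evenKernel_functional_equation]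
    have e1 : 1 / (36 / y) = y / 36 := by field_simp
    have e2 : 1 / (36 / y) ^ (1 / 2 : ℝ) = √(y / 36) := by
      rw [← Real.sqrt_eq_rpow, one_div, ← Real.sqrt_inv, inv_div]
    rw [e1, e2, hu]
    rfl
  · have hn : n % 6 = 0 ∨ n % 6 = 1 ∨ n % 6 = 2 ∨ n % 6 = 3 ∨ n % 6 = 4 ∨ n % 6 = 5 := by omega
    rcases hn with hn | hn | hn | hn | hn | hn
    · rw [TEv_period r n 0 (by rw [hn]; rfl)]
      simp [hn]
    · rw [TEv_period r n 1 (by rw [hn]; rfl)]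
      simp [hn]
    · rw [TEv_period r n 2 (by rw [hn]; rfl)]
      simp [hn]
    · rw [TEv_period r n 3 (by rw [hn]; rfl)]
      simp [hn]
    · rw [TEv_period r n 4 (by rw [hn]; rfl)]
      simp [hn]
    · rw [TEv_period r n 5 (by rw [hn]; rfl)]
      simp [hn]

private theorem TEv_mod (q k : ℕ) : cos (π / 3 * ((6 * q + k : ℕ) : ℝ)) = cos (π / 3 * (k : ℝ)) := by
  have h : π / 3 * ((6 * q + k : ℕ) : ℝ) = π / 3 * (k : ℝ) + (q : ℝ) * (2 * π) := by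
    push_cast
    ring
  rw [h, Real.cos_add_nat_mul_two_pi]

private theorem TEv_c0 : cos (π / 3 * ((0 : ℕ) : ℝ)) = 1 := by simp

private theorem TEv_c1 : cos (π / 3 * ((1 : ℕ) : ℝ)) = 1 / 2 := by
  rw [Nat.cast_one, mul_one, Real.cos_pi_div_three]

private theorem TEv_c2 : cos (π / 3 * ((2 : ℕ) : ℝ)) = -(1 / 2) := by
  have h : π / 3 * ((2 : ℕ) : ℝ) = π - π / 3 := by
    push_cast
    ring
  rw [h, Real.cos_pi_sub, Real.cos_pi_div_three]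

private theorem TEv_c3 : cos (π / 3 * ((3 : ℕ) : ℝ)) = -1 := by
  have h : π / 3 * ((3 : ℕ) : ℝ) = π := by
    push_cast
    ring
  rw [h, Real.cos_pi]

private theorem TEv_c4 : cos (π / 3 * ((4 : ℕ) : ℝ)) = -(1 / 2) := by
  have h : π / 3 * ((4 : ℕ) : ℝ) = π / 3 + π := by
    push_cast
    ring
  rw [h, Real.cos_add_pi, Real.cos_pi_div_three]

private theorem TEv_c5 : cos (π / 3 * ((5 : ℕ) : ℝ)) = 1 / 2 := by
  have h : π / 3 * ((5 : ℕ) : ℝ) = 2 * π - π / 3 := by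
    push_cast
    ring
  rw [h, Real.cos_two_pi_sub, Real.cos_pi_div_three]

theorem ev0_inv {y : ℝ} (hy : 0 < y) :
    ev 0 (36 / y) = √(y / 36) * (ev 0 y + 2 * ev 1 y + 2 * ev 2 y + ev 3 y) := by
  have h := TEv_gen 0 hy
  have g0 : cos (π / 3 * ((0 * 0 : ℕ) : ℝ)) = cos (π / 3 * ((0 : ℕ) : ℝ)) := TEv_mod 0 0
  have g1 : cos (π / 3 * ((0 * 1 : ℕ) : ℝ)) = cos (π / 3 * ((0 : ℕ) : ℝ)) := TEv_mod 0 0
  have g2 : cos (π / 3 * ((0 * 2 : ℕ) : ℝ)) = cos (π / 3 * ((0 : ℕ) : ℝ)) := TEv_mod 0 0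
  have g3 : cos (π / 3 * ((0 * 3 : ℕ) : ℝ)) = cos (π / 3 * ((0 : ℕ) : ℝ)) := TEv_mod 0 0
  have g4 : cos (π / 3 * ((0 * 4 : ℕ) : ℝ)) = cos (π / 3 * ((0 : ℕ) : ℝ)) := TEv_mod 0 0
  have g5 : cos (π / 3 * ((0 * 5 : ℕ) : ℝ)) = cos (π / 3 * ((0 : ℕ) : ℝ)) := TEv_mod 0 0
  rw [g0, g1, g2, g3, g4, g5, TEv_c0, TEv_neg4, TEv_neg5] at h
  rw [h]
  ring

theorem ev1_inv {y : ℝ} (hy : 0 < y) :
    ev 1 (36 / y) = √(y / 36) * (ev 0 y + ev 1 y - ev 2 y - ev 3 y) := by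
  have h := TEv_gen 1 hy
  have g0 : cos (π / 3 * ((1 * 0 : ℕ) : ℝ)) = cos (π / 3 * ((0 : ℕ) : ℝ)) := TEv_mod 0 0
  have g1 : cos (π / 3 * ((1 * 1 : ℕ) : ℝ)) = cos (π / 3 * ((1 : ℕ) : ℝ)) := TEv_mod 0 1
  have g2 : cos (π / 3 * ((1 * 2 : ℕ) : ℝ)) = cos (π / 3 * ((2 : ℕ) : ℝ)) := TEv_mod 0 2
  have g3 : cos (π / 3 * ((1 * 3 : ℕ) : ℝ)) = cos (π / 3 * ((3 : ℕ) : ℝ)) := TEv_mod 0 3
  have g4 : cos (π / 3 * ((1 * 4 : ℕ) : ℝ)) = cos (π / 3 * ((4 : ℕ) : ℝ)) := TEv_mod 0 4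
  have g5 : cos (π / 3 * ((1 * 5 : ℕ) : ℝ)) = cos (π / 3 * ((5 : ℕ) : ℝ)) := TEv_mod 0 5
  rw [g0, g1, g2, g3, g4, g5, TEv_c0, TEv_c1, TEv_c2, TEv_c3, TEv_c4, TEv_c5, TEv_neg4, TEv_neg5] at h
  rw [h]
  ring

theorem ev2_inv {y : ℝ} (hy : 0 < y) :
    ev 2 (36 / y) = √(y / 36) * (ev 0 y - ev 1 y - ev 2 y + ev 3 y) := by
  have h := TEv_gen 2 hy
  have g0 : cos (π / 3 * ((2 * 0 : ℕ) : ℝ)) = cos (π / 3 * ((0 : ℕ) : ℝ)) := TEv_mod 0 0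
  have g1 : cos (π / 3 * ((2 * 1 : ℕ) : ℝ)) = cos (π / 3 * ((2 : ℕ) : ℝ)) := TEv_mod 0 2
  have g2 : cos (π / 3 * ((2 * 2 : ℕ) : ℝ)) = cos (π / 3 * ((4 : ℕ) : ℝ)) := TEv_mod 0 4
  have g3 : cos (π / 3 * ((2 * 3 : ℕ) : ℝ)) = cos (π / 3 * ((0 : ℕ) : ℝ)) := TEv_mod 1 0
  have g4 : cos (π / 3 * ((2 * 4 : ℕ) : ℝ)) = cos (π / 3 * ((2 : ℕ) : ℝ)) := TEv_mod 1 2
  have g5 : cos (π / 3 * ((2 * 5 : ℕ) : ℝ)) = cos (π / 3 * ((4 : ℕ) : ℝ)) := TEv_mod 1 4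
  rw [g0, g1, g2, g3, g4, g5, TEv_c0, TEv_c2, TEv_c4, TEv_neg4, TEv_neg5] at h
  rw [h]
  ring

theorem ev3_inv {y : ℝ} (hy : 0 < y) :
    ev 3 (36 / y) = √(y / 36) * (ev 0 y - 2 * ev 1 y + 2 * ev 2 y - ev 3 y) := by
  have h := TEv_gen 3 hy
  have g0 : cos (π / 3 * ((3 * 0 : ℕ) : ℝ)) = cos (π / 3 * ((0 : ℕ) : ℝ)) := TEv_mod 0 0
  have g1 : cos (π / 3 * ((3 * 1 : ℕ) : ℝ)) = cos (π / 3 * ((3 : ℕ) : ℝ)) := TEv_mod 0 3
  have g2 : cos (π / 3 * ((3 * 2 : ℕ) : ℝ)) = cos (π / 3 * ((0 : ℕ) : ℝ)) := TEv_mod 1 0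
  have g3 : cos (π / 3 * ((3 * 3 : ℕ) : ℝ)) = cos (π / 3 * ((3 : ℕ) : ℝ)) := TEv_mod 1 3
  have g4 : cos (π / 3 * ((3 * 4 : ℕ) : ℝ)) = cos (π / 3 * ((0 : ℕ) : ℝ)) := TEv_mod 2 0
  have g5 : cos (π / 3 * ((3 * 5 : ℕ) : ℝ)) = cos (π / 3 * ((3 : ℕ) : ℝ)) := TEv_mod 2 3
  rw [g0, g1, g2, g3, g4, g5, TEv_c0, TEv_c3, TEv_neg4, TEv_neg5] at h
  rw [h]
  ring

end Pool.Agent.Lib.MP_1a91b9_ntCR
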