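import Pool.Agent.Lib.MP_1a91b9_ntCR.Defs

/-!
# MP_1a91b9_nt (cubic stability, rank two): a numerical inequality

Proof of `num_le`. `√N ≤ (N + 25) / 10`. `(1/2) ^ s = exp (-s log 2)` and `s ≤ (5 N - 95) / 14`, so it is enough that
`(N + 25) (N - 1) exp (-(2/5) (N - 4)) ≤ 3 exp (-(log 2) (5 N - 95) / 14)`, and `log 2 ≤ 7/10` (`Real.log_two_lt_d9`), so
`(log 2) (5 N - 95) / 14 ≤ (N - 19) / 4`; with `x = N - 25 ≥ 0` it is enough that
`(x + 50) (x + 24) ≤ 3 exp ((2/5) (x + 21) - (x + 6) / 4) = 3 exp (69/10 + (3/20) x)`. Now `exp (69/10) ≥ 990`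
(`exp 1 ≥ 2.7182`, `2.7182 ^ 7 = 1096.4..`, and `exp (-1/10) ≥ 9/10`; `1096 * 0.9 = 986` : so take `exp (69/10) ≥ 980`) and
`exp (3 x / 20) ≥ 1 + 3 x / 20 + (3 x / 20)² / 2` (`Real.quadratic_le_exp_of_nonneg`), so the right side is at least
`2940 (1 + 0.15 x + 0.01125 x²) ≥ 1200 + 74 x + x²`.

Proof of `num_16`: `15/3 * exp (-(2/5) * 12) = 5 exp (-4.8)` and `exp (4.8) ≥ 2.7 ^ 4 ≥ 50`, so it is at most `1/10`.
-/

set_option autoImplicit false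

namespace Pool.Agent.Lib.MP_1a91b9_ntCR

open Real

theorem num_le (N : ℝ) (s : ℕ) (hN : 25 ≤ N) (hs : 95 + 14 * (s : ℝ) ≤ 5 * N) :
    √N * ((N - 1) / 3 * rexp (-(2 / 5 * (N - 1 - 3)))) ≤ 1 / 10 * (1 / 2) ^ s := by
  have h1 : √N ≤ (N + 25) / 10 := by
    have h := Real.sq_sqrt (show (0 : ℝ) ≤ N by linarith)
    nlinarith [sq_nonneg (√N - 5)]
  have h2 : rexp (-((N - 19) / 4)) ≤ (1 / 2 : ℝ) ^ s := by
    have h3 : rexp (-(7 / 10 : ℝ)) ≤ 1 / 2 := by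
      have h4 : rexp (-(7 / 10 : ℝ)) ≤ rexp (-Real.log 2) := by
        refine Real.exp_le_exp.2 ?_
        have := Real.log_two_lt_d9
        linarith
      have h5 : rexp (-Real.log 2) = 1 / 2 := by
        rw [Real.exp_neg, Real.exp_log (by norm_num)]
        norm_num
      rw [h5] at h4
      exact h4
    have h6 : rexp (-(7 / 10 : ℝ)) ^ s ≤ (1 / 2 : ℝ) ^ s := pow_le_pow_left₀ (Real.exp_pos _).le h3 s
    have h7 : rexp (-((N - 19) / 4)) ≤ rexp (-(7 / 10 : ℝ)) ^ s := by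
      rw [← Real.exp_nat_mul]
      refine Real.exp_le_exp.2 ?_
      linarith
    exact h7.trans h6
  have h8 : (980 : ℝ) ≤ rexp (69 / 10) := by
    have h9 : rexp (69 / 10) = rexp 1 ^ 7 * rexp (-(1 / 10)) := by
      rw [← Real.exp_nat_mul, ← Real.exp_add]
      norm_num
    have h10 : (2.7182 : ℝ) ≤ rexp 1 := by
      have := Real.exp_one_gt_d9
      linarith
    have h11 : (2.7182 : ℝ) ^ 7 ≤ rexp 1 ^ 7 := pow_le_pow_left₀ (by norm_num) h10 7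
    have h12 : (9 / 10 : ℝ) ≤ rexp (-(1 / 10)) := by
      have := Real.add_one_le_exp (-(1 / 10) : ℝ)
      linarith
    rw [h9]
    calc (980 : ℝ) ≤ 2.7182 ^ 7 * (9 / 10) := by norm_num
      _ ≤ rexp 1 ^ 7 * rexp (-(1 / 10)) := mul_le_mul h11 h12 (by norm_num) (by positivity)
  have h13 : (N + 25) * (N - 1) ≤ 3 * rexp (2 / 5 * (N - 1 - 3) - (N - 19) / 4) := by
    have h14 : rexp (2 / 5 * (N - 1 - 3) - (N - 19) / 4) = rexp (69 / 10) * rexp (3 / 20 * (N - 25)) := by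
      rw [← Real.exp_add]
      congr 1
      ring
    have hx : (0 : ℝ) ≤ 3 / 20 * (N - 25) := by linarith
    have h15 := Real.quadratic_le_exp_of_nonneg hx
    rw [h14]
    have h16 : (980 : ℝ) * (1 + 3 / 20 * (N - 25) + (3 / 20 * (N - 25)) ^ 2 / 2) ≤
        rexp (69 / 10) * rexp (3 / 20 * (N - 25)) := mul_le_mul h8 h15 (by positivity) (Real.exp_pos _).le
    nlinarith [sq_nonneg (N - 25), hx]
  have h17 : rexp (2 / 5 * (N - 1 - 3) - (N - 19) / 4) * rexp (-(2 / 5 * (N - 1 - 3))) = rexp (-((N - 19) / 4)) := by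
    rw [← Real.exp_add]
    congr 1
    ring
  have hE := Real.exp_pos (-(2 / 5 * (N - 1 - 3)))
  calc √N * ((N - 1) / 3 * rexp (-(2 / 5 * (N - 1 - 3))))
      ≤ (N + 25) / 10 * ((N - 1) / 3 * rexp (-(2 / 5 * (N - 1 - 3)))) :=
        mul_le_mul_of_nonneg_right h1 (mul_nonneg (by linarith) hE.le)
    _ = 1 / 30 * ((N + 25) * (N - 1)) * rexp (-(2 / 5 * (N - 1 - 3))) := by ring
    _ ≤ 1 / 30 * (3 * rexp (2 / 5 * (N - 1 - 3) - (N - 19) / 4)) * rexp (-(2 / 5 * (N - 1 - 3))) :=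
        mul_le_mul_of_nonneg_right (mul_le_mul_of_nonneg_left h13 (by norm_num)) hE.le
    _ = 1 / 10 * rexp (-((N - 19) / 4)) := by
        rw [← h17]
        ring
    _ ≤ 1 / 10 * (1 / 2) ^ s := mul_le_mul_of_nonneg_left h2 (by norm_num)

theorem num_16 : (15 : ℝ) / 3 * rexp (-(2 / 5 * (15 - 3))) ≤ 1 / 10 := by
  have h1 : (50 : ℝ) ≤ rexp (2 / 5 * (15 - 3)) := by
    have h2 : (2.7 : ℝ) ≤ rexp 1 := by
      have := Real.exp_one_gt_d9
      linarith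
    have h3 : (2.7 : ℝ) ^ 4 ≤ rexp 1 ^ 4 := pow_le_pow_left₀ (by norm_num) h2 4
    have h4 : rexp 1 ^ 4 ≤ rexp (2 / 5 * (15 - 3)) := by
      rw [← Real.exp_nat_mul]
      refine Real.exp_le_exp.2 ?_
      norm_num
    calc (50 : ℝ) ≤ 2.7 ^ 4 := by norm_num
      _ ≤ _ := h3.trans h4
  rw [Real.exp_neg]
  have h5 : (rexp (2 / 5 * (15 - 3)))⁻¹ ≤ (50 : ℝ)⁻¹ := inv_anti₀ (by norm_num) h1
  calc (15 : ℝ) / 3 * (rexp (2 / 5 * (15 - 3)))⁻¹ ≤ 15 / 3 * (50 : ℝ)⁻¹ :=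
        mul_le_mul_of_nonneg_left h5 (by norm_num)
    _ = 1 / 10 := by norm_num

end Pool.Agent.Lib.MP_1a91b9_ntCR
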