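import Pool.Agent.Lib.MP_1a91b9_ntCR.Defs

/-!
# MP_1a91b9_nt (cubic stability, rank two): the function `ph t b = exp (-κ b) - exp (-κ b t)`, `κ = π sc = 0.403...`

Proof. `sc_bd`: `κ = 2 π / (9 √3)`, `3.14 < π < 3.15`, `1.73 < √3 < 1.7321`. `ph_nonneg`, `ph_pos`: monotonicity of `exp`.
`ph_le`: with `x = κ (t - 1) > 0`, `ph t b = exp (-κ b) (1 - exp (-b x))`, and `1 - exp (-b x) ≤ (b / 3) (1 - exp (-3 x))`
for `b ≥ 3` (Bernoulli: `one_add_mul_self_le_rpow_one_add` for `s = exp (-3 x) - 1 ≥ -1` and the exponent `b / 3 ≥ 1`, as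
in `ph_dec` of `MP_1a91b9_ntC/Th.lean`).
-/

set_option autoImplicit false

namespace Pool.Agent.Lib.MP_1a91b9_ntCR

open Real

theorem sc_bd : 2 / 5 ≤ π * sc ∧ π * sc ≤ 1 / 2 := by
  have h3 : (1.73 : ℝ) ≤ √3 := Real.le_sqrt_of_sq_le (by norm_num)
  have h3' : √3 ≤ (1.7321 : ℝ) := (Real.sqrt_le_left (by norm_num)).2 (by norm_num)
  have hp := Real.pi_gt_d2
  have hp' := Real.pi_lt_d2
  have h0 : (0 : ℝ) < 9 * √3 := by linarith
  unfold sc
  rw [← mul_div_assoc, le_div_iff₀ h0, div_le_iff₀ h0]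
  constructor <;> linarith

theorem ph_nonneg {t b : ℝ} (ht : 1 ≤ t) (hb : 0 ≤ b) : 0 ≤ ph t b := by
  unfold ph
  have h1 : 0 ≤ π * sc * b := mul_nonneg (by linarith [sc_bd.1]) hb
  have h2 : π * sc * b ≤ π * sc * b * t := le_mul_of_one_le_right h1 ht
  have h3 : rexp (-(π * sc * b * t)) ≤ rexp (-(π * sc * b)) := Real.exp_le_exp.2 (neg_le_neg h2)
  linarith

theorem ph_pos {t b : ℝ} (ht : 1 < t) (hb : 0 < b) : 0 < ph t b := by
  unfold ph
  have h1 : 0 < π * sc * b := mul_pos (by linarith [sc_bd.1]) hb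
  have h2 : π * sc * b < π * sc * b * t := lt_mul_of_one_lt_right h1 ht
  have h3 : rexp (-(π * sc * b * t)) < rexp (-(π * sc * b)) := Real.exp_lt_exp.2 (neg_lt_neg h2)
  linarith

theorem ph_le {t b : ℝ} (ht : 1 < t) (hb : 3 ≤ b) :
    ph t b ≤ b / 3 * rexp (-(2 / 5 * (b - 3))) * ph t 3 := by
  obtain ⟨k, hk⟩ : ∃ k : ℝ, k = π * sc := ⟨_, rfl⟩
  have hk1 : 2 / 5 ≤ k := by
    rw [hk]
    exact sc_bd.1
  have hp3 : 0 ≤ ph t 3 := ph_nonneg ht.le (by norm_num)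
  have hx : 1 - rexp (-(b * (k * (t - 1)))) ≤ b / 3 * (1 - rexp (-(3 * (k * (t - 1))))) := by
    have h1 : rexp (-(b * (k * (t - 1)))) = rexp (-(3 * (k * (t - 1)))) ^ (b / 3) := by
      rw [← Real.exp_mul]
      congr 1
      ring
    have h2 := one_add_mul_self_le_rpow_one_add (s := rexp (-(3 * (k * (t - 1)))) - 1) (by
      have := Real.exp_pos (-(3 * (k * (t - 1))))
      linarith) (p := b / 3) (by linarith)
    have h3 : 1 + (rexp (-(3 * (k * (t - 1)))) - 1) = rexp (-(3 * (k * (t - 1)))) := by ring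
    rw [h3] at h2
    rw [h1]
    linarith
  have h4 : ph t b = rexp (-(k * b)) * (1 - rexp (-(b * (k * (t - 1))))) := by
    unfold ph
    rw [← hk, mul_sub, mul_one, ← Real.exp_add]
    congr 2
    ring
  have h5 : ph t 3 = rexp (-(k * 3)) * (1 - rexp (-(3 * (k * (t - 1))))) := by
    unfold ph
    rw [← hk, mul_sub, mul_one, ← Real.exp_add]
    congr 2
    ring
  have h6 : rexp (-(k * b)) = rexp (-(k * (b - 3))) * rexp (-(k * 3)) := by
    rw [← Real.exp_add]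
    congr 1
    ring
  have h7 : rexp (-(k * (b - 3))) ≤ rexp (-(2 / 5 * (b - 3))) := by
    refine Real.exp_le_exp.2 (neg_le_neg ?_)
    exact mul_le_mul_of_nonneg_right hk1 (by linarith)
  calc ph t b = rexp (-(k * b)) * (1 - rexp (-(b * (k * (t - 1))))) := h4
    _ ≤ rexp (-(k * b)) * (b / 3 * (1 - rexp (-(3 * (k * (t - 1)))))) :=
        mul_le_mul_of_nonneg_left hx (Real.exp_pos _).le
    _ = b / 3 * rexp (-(k * (b - 3))) * ph t 3 := by
        rw [h5, h6]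
        ring
    _ ≤ b / 3 * rexp (-(2 / 5 * (b - 3))) * ph t 3 :=
        mul_le_mul_of_nonneg_right (mul_le_mul_of_nonneg_left h7 (by linarith)) hp3

end Pool.Agent.Lib.MP_1a91b9_ntCR
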