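import Pool.Agent.Lib.MP_1a91b9_ntCR.Defs

/-!
# MP_1a91b9_nt (cubic stability, rank two): the values of the coefficients; a quadratic inequality

Proof. `zw ^ 3 = 1`, `|zw| = 1`, so `‖cf p‖ = ‖1 + 3 m + 3 n zw²‖` and its square is `nf p`
(`(1 + 3 m - 3 n / 2)² + 27 n² / 4`); `|re z| ≤ ‖z‖` gives `cf_le`. The values at the nine points: with `zw⁻¹ = zw ^ 2`,
`zw ^ 2 = -1 - zw`: `cf (0,0) = 1`, `cf (-1,0) = -2`, `cf (1,0) = 4`, `cf (0,1) = zw² (1 + 3 zw²) = zw² + 3 zw` has the real part `-2`,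
`cf (-1,-1) = zw (-2 - 3 zw²)` has `-2`, `cf (1,1) = zw² (4 + 3 zw²)` has `-7/2`, `cf (0,-1) = zw (1 - 3 zw²)` has `-7/2`,
`cf (-1,1) = zw² (-2 + 3 zw²)` has `-1/2`, `cf (-2,-1) = zw (-5 - 3 zw²)` has `-1/2`.

`nf_big`: let `(m, n)` be another point. `4 nf = (2 + 6 m - 3 n)² + 27 n²` and also `nf` is `9 m² - 9 m n + 9 n² + 6 m - 3 n + 1`. For
`|m| ≥ 8` or `|n| ≥ 8` the inequality follows from `m² - m n + n² ≥ (m² + n²) / 2` (nlinarith); the rest is a finite check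
(`interval_cases` or `decide` for `|m|, |n| ≤ 7`).
-/

set_option autoImplicit false

namespace Pool.Agent.Lib.MP_1a91b9_ntCR

open Real

private theorem TVal_sq : zw ^ 2 = ⟨-1 / 2, -(√3 / 2)⟩ := by
  have h3 : √3 * √3 = 3 := Real.mul_self_sqrt (by norm_num)
  apply Complex.ext
  · simp only [zw, pow_two, Complex.mul_re]
    nlinarith
  · simp only [zw, pow_two, Complex.mul_im]
    ring

private theorem TVal_cube : zw ^ 2 * zw = 1 := by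
  have h3 : √3 * √3 = 3 := Real.mul_self_sqrt (by norm_num)
  rw [TVal_sq]
  apply Complex.ext
  · simp only [zw, Complex.mul_re, Complex.one_re]
    nlinarith
  · simp only [zw, Complex.mul_im, Complex.one_im]
    ring

private theorem TVal_norm : ‖zw‖ = 1 := by
  have h1 : ‖zw‖ ^ 3 = 1 := by
    rw [← norm_pow, pow_succ, TVal_cube, norm_one]
  exact (pow_eq_one_iff_of_nonneg (norm_nonneg _) (by norm_num)).1 h1

private theorem TVal_inv : zw ^ (-(1 : ℤ)) = zw ^ 2 := by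
  rw [zpow_neg_one]
  exact (eq_inv_of_mul_eq_one_left TVal_cube).symm

private theorem TVal_re (m n : ℝ) : ((1 : ℂ) + 3 * (m : ℂ) + 3 * (n : ℂ) * zw ^ 2).re = 1 + 3 * m - 3 * n / 2 ∧
    ((1 : ℂ) + 3 * (m : ℂ) + 3 * (n : ℂ) * zw ^ 2).im = -(3 * n * √3 / 2) := by
  rw [TVal_sq]
  constructor
  · simp only [Complex.add_re, Complex.mul_re, Complex.one_re, Complex.ofReal_re, Complex.ofReal_im, Complex.mul_im,
      Complex.re_ofNat, Complex.im_ofNat]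
    ring
  · simp only [Complex.add_im, Complex.mul_re, Complex.one_im, Complex.ofReal_re, Complex.ofReal_im, Complex.mul_im,
      Complex.re_ofNat, Complex.im_ofNat]
    ring

private theorem TVal_one (w : ℂ) (a b : ℝ) (hw : w = (a : ℂ) + (b : ℂ) * zw) : w.re = a - b / 2 := by
  rw [hw]
  simp only [zw, Complex.add_re, Complex.mul_re, Complex.ofReal_re, Complex.ofReal_im]
  ring

private theorem TVal_fin : ∀ m ∈ Finset.Icc (-7 : ℤ) 7, ∀ n ∈ Finset.Icc (-7 : ℤ) 7,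
    ¬ ((m = 0 ∧ n = 0) ∨ (m = -1 ∧ n = 0) ∨ (m = 1 ∧ n = 0) ∨ (m = 0 ∧ n = 1) ∨
    (m = -1 ∧ n = -1) ∨ (m = 1 ∧ n = 1) ∨ (m = 0 ∧ n = -1) ∨ (m = -1 ∧ n = 1) ∨ (m = -2 ∧ n = -1)) →
    95 + 14 * ((m.natAbs : ℤ) + (n.natAbs : ℤ)) ≤ 5 * nf (m, n) ∧ 25 ≤ nf (m, n) := by
  decide

theorem cf_sq (p : ℤ × ℤ) : ‖cf p‖ ^ 2 = (nf p : ℝ) := by
  have h3 : √3 * √3 = 3 := Real.mul_self_sqrt (by norm_num)
  obtain ⟨h1, h2⟩ := TVal_re (p.1 : ℝ) (p.2 : ℝ)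
  rw [cf, norm_mul, norm_zpow, TVal_norm, one_zpow, one_mul, Complex.sq_norm, Complex.normSq_apply]
  push_cast at h1 h2
  rw [h1, h2, nf]
  push_cast
  nlinarith

theorem cf_re_le (p : ℤ × ℤ) : |(cf p).re| ≤ √(nf p : ℝ) := by
  rw [← cf_sq, Real.sqrt_sq (norm_nonneg _)]
  exact Complex.abs_re_le_norm _

theorem cf_vals : (cf (-1, 0)).re = -2 ∧ (cf (1, 0)).re = 4 ∧ (cf (0, 1)).re = -2 ∧ (cf (-1, -1)).re = -2 ∧
    (cf (1, 1)).re = -7 / 2 ∧ (cf (0, -1)).re = -7 / 2 ∧ (cf (-1, 1)).re = -1 / 2 ∧ (cf (-2, -1)).re = -1 / 2 := by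
  have hz : zw ^ 2 = -1 - zw := by
    rw [TVal_sq]
    apply Complex.ext
    · simp only [zw, Complex.sub_re, Complex.neg_re, Complex.one_re]
      norm_num
    · simp only [zw, Complex.sub_im, Complex.neg_im, Complex.one_im]
      ring
  have h0 : ∀ m : ℤ, cf (m, 0) = ((1 + 3 * m : ℝ) : ℂ) + ((0 : ℝ) : ℂ) * zw := fun m => by
    simp only [cf, neg_zero, zpow_zero, Int.cast_zero]
    push_cast
    ring
  have h1 : ∀ m : ℤ, cf (m, 1) = ((-1 - 3 * m : ℝ) : ℂ) + ((2 - 3 * m : ℝ) : ℂ) * zw := fun m => by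
    simp only [cf, TVal_inv, Int.cast_one]
    have h2 : zw ^ 2 * (1 + 3 * (m : ℂ) + 3 * 1 * zw ^ 2) = zw ^ 2 * (1 + 3 * (m : ℂ)) + 3 * (zw ^ 2 * zw) * zw := by ring
    rw [h2, TVal_cube, hz]
    push_cast
    ring
  have h2 : ∀ m : ℤ, cf (m, -1) = ((-3 : ℝ) : ℂ) + ((1 + 3 * m : ℝ) : ℂ) * zw := fun m => by
    simp only [cf, neg_neg, zpow_one, Int.cast_neg, Int.cast_one]
    have h3 : zw * (1 + 3 * (m : ℂ) + 3 * -1 * zw ^ 2) = zw * (1 + 3 * (m : ℂ)) - 3 * (zw ^ 2 * zw) := by ring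
    rw [h3, TVal_cube]
    push_cast
    ring
  refine ⟨?_, ?_, ?_, ?_, ?_, ?_, ?_, ?_⟩
  · rw [TVal_one _ _ _ (h0 (-1))]
    push_cast
    ring
  · rw [TVal_one _ _ _ (h0 1)]
    push_cast
    ring
  · rw [TVal_one _ _ _ (h1 0)]
    push_cast
    ring
  · rw [TVal_one _ _ _ (h2 (-1))]
    push_cast
    ring
  · rw [TVal_one _ _ _ (h1 1)]
    push_cast
    ring
  · rw [TVal_one _ _ _ (h2 0)]
    push_cast
    ring
  · rw [TVal_one _ _ _ (h1 (-1))]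
    push_cast
    ring
  · rw [TVal_one _ _ _ (h2 (-2))]
    push_cast
    ring

theorem nf_big (m n : ℤ) (h : ¬ ((m = 0 ∧ n = 0) ∨ (m = -1 ∧ n = 0) ∨ (m = 1 ∧ n = 0) ∨ (m = 0 ∧ n = 1) ∨
    (m = -1 ∧ n = -1) ∨ (m = 1 ∧ n = 1) ∨ (m = 0 ∧ n = -1) ∨ (m = -1 ∧ n = 1) ∨ (m = -2 ∧ n = -1))) :
    95 + 14 * (|m| + |n|) ≤ 5 * nf (m, n) ∧ 25 ≤ nf (m, n) := by
  by_cases hmn : (-7 ≤ m ∧ m ≤ 7) ∧ (-7 ≤ n ∧ n ≤ 7)
  · have h1 := TVal_fin m (Finset.mem_Icc.2 hmn.1) n (Finset.mem_Icc.2 hmn.2) h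
    rw [Int.abs_eq_natAbs, Int.abs_eq_natAbs]
    exact h1
  · have hA : 2 * (m ^ 2 - m * n + n ^ 2) ≥ m ^ 2 + n ^ 2 := by nlinarith [sq_nonneg (m - n)]
    have hm2 : m ^ 2 = |m| ^ 2 := (sq_abs m).symm
    have hn2 : n ^ 2 = |n| ^ 2 := (sq_abs n).symm
    have hm1 : -|m| ≤ m := neg_abs_le m
    have hn1 : n ≤ |n| := le_abs_self n
    have hm0 : 0 ≤ |m| := abs_nonneg m
    have hn0 : 0 ≤ |n| := abs_nonneg n
    have hnf : nf (m, n) = 9 * (m ^ 2 - m * n + n ^ 2) + 6 * m - 3 * n + 1 := by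
      simp only [nf]
      ring
    have h8 : 8 ≤ |m| ∨ 8 ≤ |n| := by
      by_contra hc
      push Not at hc
      apply hmn
      have h9 := abs_lt.1 hc.1
      have h10 := abs_lt.1 hc.2
      omega
    rw [hnf]
    rcases h8 with h8 | h8
    · constructor
      · nlinarith [sq_nonneg (|n| - 1)]
      · nlinarith [sq_nonneg (|n| - 1)]
    · constructor
      · nlinarith [sq_nonneg (|m| - 1)]
      · nlinarith [sq_nonneg (|m| - 1)]

end Pool.Agent.Lib.MP_1a91b9_ntCR
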