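import Pool.Agent.Lib.MP_1a91b9_ntCR.TPhi
import Pool.Agent.Lib.MP_1a91b9_ntCR.TVal
import Pool.Agent.Lib.MP_1a91b9_ntCR.TNum
import Pool.Agent.Lib.MP_1a91b9_ntCR.TDec

/-!
# MP_1a91b9_nt (cubic stability, rank two): the pointwise lower bound, and the sum of the lower bounds

Proof of `pt_le`. Put `φ = ph t`, `w = (1/2) ^ (|m| + |n|) > 0`. At `(-1, 0)`: `nf = 4`, `-re cf = 2`, and
`2 φ 3 ≥ (2 - w/10) φ 3`. At `(1, 0)`: `nf = 16`, `-re cf = -4`, `φ 15 ≤ (1/10) φ 3` (`ph_le`, `num_16`), so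
`-4 φ 15 ≥ -(2/5) φ 3 ≥ -(1/2 + w/10) φ 3`. At `(0, 0)`: `nf = 1`, `φ 0 = 0`. At the six other exceptional points
`-re cf > 0` and `φ (nf - 1) ≥ 0`. At all other points `|re cf| ≤ √nf`, `φ (nf - 1) ≤ (nf - 1)/3 exp (..) φ 3` and
`num_le` with `s = |m| + |n|` give `|re cf| φ (nf - 1) ≤ (1/10) w φ 3`.

Proof of `bb_sum`: `∑ (1/2) ^ |m| = 3` over `ℤ` (geometric series, `HasSum.of_nat_of_neg_add_one`), so
`∑ (1/2) ^ (|m| + |n|) = 9` over `ℤ × ℤ` (`HasSum.mul`), and `hasSum_ite_eq` for the two single values: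
`2 - 1/2 - 9/10 = 3/5`.
-/

set_option autoImplicit false

namespace Pool.Agent.Lib.MP_1a91b9_ntCR

open Real

private theorem TPt_nf_pos (p : ℤ × ℤ) : 0 ≤ (nf p : ℝ) - 1 := by
  obtain ⟨m, n⟩ := p
  have h : 1 ≤ nf (m, n) := by
    have h1 : 4 * nf (m, n) = (2 + 6 * m - 3 * n) ^ 2 + 27 * n ^ 2 := by
      simp only [nf]
      ring
    by_cases hn : n = 0
    · subst hn
      have h2 : (2 + 6 * m - 3 * 0) ≠ 0 := by omega
      have h3 : 0 < (2 + 6 * m - 3 * 0) ^ 2 := by positivity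
      omega
    · have h2 : 0 < n ^ 2 := by positivity
      have h3 : 0 ≤ (2 + 6 * m - 3 * n) ^ 2 := by positivity
      omega
  have h' : (1 : ℝ) ≤ (nf (m, n) : ℝ) := by exact_mod_cast h
  linarith

private theorem TPt_bb_other (p : ℤ × ℤ) (h1 : p ≠ (-1, 0)) (h2 : p ≠ (1, 0)) :
    bb p = -(1 / 10 * (1 / 2) ^ (p.1.natAbs + p.2.natAbs)) := by
  simp only [bb, if_neg h1, if_neg h2]
  ring

private theorem TPt_six {t : ℝ} (ht : 1 < t) (p : ℤ × ℤ) (h1 : p ≠ (-1, 0)) (h2 : p ≠ (1, 0))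
    (h : 0 ≤ -(cf p).re * ph t ((nf p : ℝ) - 1)) :
    bb p * ph t 3 ≤ -(cf p).re * ph t ((nf p : ℝ) - 1) := by
  rw [TPt_bb_other p h1 h2]
  have h3 : 0 < ph t 3 := ph_pos ht (by norm_num)
  have h4 : (0 : ℝ) < (1 / 2) ^ (p.1.natAbs + p.2.natAbs) := by positivity
  nlinarith [mul_pos h4 h3]

private theorem TPt_six' {t : ℝ} (ht : 1 < t) (p : ℤ × ℤ) (h1 : p ≠ (-1, 0)) (h2 : p ≠ (1, 0))
    (h : (cf p).re ≤ 0) :
    bb p * ph t 3 ≤ -(cf p).re * ph t ((nf p : ℝ) - 1) := by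
  apply TPt_six ht p h1 h2
  have h3 : 0 ≤ ph t ((nf p : ℝ) - 1) := ph_nonneg ht.le (TPt_nf_pos p)
  exact mul_nonneg (by linarith) h3

private theorem TPt_geo : HasSum (fun m : ℤ => ((1 : ℝ) / 2) ^ m.natAbs) 3 := by
  have h0 : HasSum (fun n : ℕ => ((1 : ℝ) / 2) ^ n) 2 := hasSum_geometric_two
  have h1 : HasSum (fun n : ℕ => ((1 : ℝ) / 2) ^ ((n : ℤ)).natAbs) 2 := by
    simpa using h0
  have h2 : HasSum (fun n : ℕ => ((1 : ℝ) / 2) ^ (-((n : ℤ) + 1)).natAbs) 1 := by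
    have h3 := h0.mul_right ((1 : ℝ) / 2)
    have h4 : (2 : ℝ) * (1 / 2) = 1 := by norm_num
    rw [h4] at h3
    refine h3.congr_fun ?_
    intro n
    have h5 : (-((n : ℤ) + 1)).natAbs = n + 1 := by omega
    rw [h5, pow_succ]
  have h3 := HasSum.of_nat_of_neg_add_one (f := fun m : ℤ => ((1 : ℝ) / 2) ^ m.natAbs) h1 h2
  have h4 : (2 : ℝ) + 1 = 3 := by norm_num
  rw [h4] at h3
  exact h3

theorem pt_le {t : ℝ} (ht : 1 < t) (p : ℤ × ℤ) : bb p * ph t 3 ≤ -(cf p).re * ph t ((nf p : ℝ) - 1) := by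
  have hφ : 0 < ph t 3 := ph_pos ht (by norm_num)
  obtain ⟨v1, v2, v3, v4, v5, v6, v7, v8⟩ := cf_vals
  by_cases h : (p.1 = 0 ∧ p.2 = 0) ∨ (p.1 = -1 ∧ p.2 = 0) ∨ (p.1 = 1 ∧ p.2 = 0) ∨
      (p.1 = 0 ∧ p.2 = 1) ∨ (p.1 = -1 ∧ p.2 = -1) ∨ (p.1 = 1 ∧ p.2 = 1) ∨
      (p.1 = 0 ∧ p.2 = -1) ∨ (p.1 = -1 ∧ p.2 = 1) ∨ (p.1 = -2 ∧ p.2 = -1)
  · obtain ⟨m, n⟩ := p
    simp only at h
    rcases h with ⟨rfl, rfl⟩ | ⟨rfl, rfl⟩ | ⟨rfl, rfl⟩ | ⟨rfl, rfl⟩ | ⟨rfl, rfl⟩ | ⟨rfl, rfl⟩ |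
      ⟨rfl, rfl⟩ | ⟨rfl, rfl⟩ | ⟨rfl, rfl⟩
    · apply TPt_six ht (0, 0) (by simp) (by simp)
      have h1 : ((nf (0, 0) : ℤ) : ℝ) - 1 = 0 := by simp [nf]
      rw [h1]
      simp [ph]
    · have h1 : ((nf (-1, 0) : ℤ) : ℝ) - 1 = 3 := by
        norm_num [nf]
      have h2 : bb (-1, 0) = 2 - 1 / 20 := by
        norm_num [bb]
      rw [h1, h2, v1]
      linarith
    · have h1 : ((nf (1, 0) : ℤ) : ℝ) - 1 = 15 := by
        norm_num [nf]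
      have h2 : bb (1, 0) = -(11 / 20) := by
        norm_num [bb]
      rw [h1, h2, v2]
      have h3 := ph_le (b := 15) ht (by norm_num)
      have h4 := mul_le_mul_of_nonneg_right num_16 hφ.le
      linarith
    · exact TPt_six' ht (0, 1) (by simp) (by simp) (by rw [v3]; norm_num)
    · exact TPt_six' ht (-1, -1) (by simp) (by simp) (by rw [v4]; norm_num)
    · exact TPt_six' ht (1, 1) (by simp) (by simp) (by rw [v5]; norm_num)
    · exact TPt_six' ht (0, -1) (by simp) (by simp) (by rw [v6]; norm_num)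
    · exact TPt_six' ht (-1, 1) (by simp) (by simp) (by rw [v7]; norm_num)
    · exact TPt_six' ht (-2, -1) (by simp) (by simp) (by rw [v8]; norm_num)
  · have h1 : p ≠ (-1, 0) := by
      rintro rfl
      exact h (by simp)
    have h2 : p ≠ (1, 0) := by
      rintro rfl
      exact h (by simp)
    rw [TPt_bb_other p h1 h2]
    obtain ⟨h3, h4⟩ := nf_big p.1 p.2 h
    have h5 : (25 : ℝ) ≤ (nf p : ℝ) := by exact_mod_cast h4
    have h6 : 95 + 14 * (((p.1.natAbs + p.2.natAbs : ℕ)) : ℝ) ≤ 5 * (nf p : ℝ) := by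
      have h7 : (95 : ℤ) + 14 * (((p.1.natAbs + p.2.natAbs : ℕ)) : ℤ) ≤ 5 * nf p := by
        rw [Nat.cast_add, Int.natCast_natAbs, Int.natCast_natAbs]
        exact h3
      generalize p.1.natAbs + p.2.natAbs = j at h7 ⊢
      exact_mod_cast h7
    have h7 := num_le (nf p : ℝ) (p.1.natAbs + p.2.natAbs) h5 h6
    have h8 := ph_le (b := (nf p : ℝ) - 1) ht (by linarith)
    have h9 := cf_re_le p
    have h10 : 0 ≤ ph t ((nf p : ℝ) - 1) := ph_nonneg ht.le (TPt_nf_pos p)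
    have h11 : |(cf p).re| * ph t ((nf p : ℝ) - 1) ≤
        √(nf p : ℝ) * (((nf p : ℝ) - 1) / 3 * rexp (-(2 / 5 * ((nf p : ℝ) - 1 - 3))) * ph t 3) :=
      mul_le_mul h9 h8 h10 (Real.sqrt_nonneg _)
    have h12 := mul_le_mul_of_nonneg_right h7 hφ.le
    have h13 : (cf p).re * ph t ((nf p : ℝ) - 1) ≤ |(cf p).re| * ph t ((nf p : ℝ) - 1) :=
      mul_le_mul_of_nonneg_right (le_abs_self _) h10
    have h14 : √(nf p : ℝ) * (((nf p : ℝ) - 1) / 3 * rexp (-(2 / 5 * ((nf p : ℝ) - 1 - 3))) * ph t 3)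
        = √(nf p : ℝ) * (((nf p : ℝ) - 1) / 3 * rexp (-(2 / 5 * ((nf p : ℝ) - 1 - 3)))) * ph t 3 := by
      ring
    rw [h14] at h11
    have h15 := h13.trans (h11.trans h12)
    linarith

theorem bb_sum : HasSum bb (3 / 5) := by
  have h1 : Summable fun x : ℤ × ℤ => ((1 : ℝ) / 2) ^ x.1.natAbs * ((1 : ℝ) / 2) ^ x.2.natAbs :=
    Summable.mul_of_nonneg TPt_geo.summable TPt_geo.summable (fun m => by positivity)
      (fun m => by positivity)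
  have h2 := TPt_geo.mul TPt_geo h1
  have h3 : HasSum (fun p : ℤ × ℤ => (1 / 10 : ℝ) * (1 / 2) ^ (p.1.natAbs + p.2.natAbs)) (9 / 10) := by
    have h4 := h2.mul_left (1 / 10 : ℝ)
    have h5 : (1 / 10 : ℝ) * (3 * 3) = 9 / 10 := by norm_num
    rw [h5] at h4
    refine h4.congr_fun ?_
    intro p
    rw [pow_add]
  have h4 : HasSum (fun p : ℤ × ℤ => if p = (-1, 0) then (2 : ℝ) else 0) 2 :=
    hasSum_ite_eq (-1, 0) 2
  have h5 : HasSum (fun p : ℤ × ℤ => if p = (1, 0) then (1 / 2 : ℝ) else 0) (1 / 2) :=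
    hasSum_ite_eq (1, 0) (1 / 2)
  have h6 := (h4.sub h5).sub h3
  have h7 : (2 : ℝ) - 1 / 2 - 9 / 10 = 3 / 5 := by norm_num
  rw [h7] at h6
  exact h6

end Pool.Agent.Lib.MP_1a91b9_ntCR
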