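import Pool.Agent.Lib.MP_1a91b9_ntCR.Defs

/-!
# MP_1a91b9_nt (cubic stability, rank two): the theta series in terms of the kernels

Proof. Put `A = 2 t / √3`, `B = 18 √3 t`. For `n = 6 k + r`, `0 ≤ r < 6`, and `m = m' + 3 k` put `u = m' + (1 / 3 - r / 2)`,
`w = k + r / 6`. Then `nf (m, n) = 9 u² + 27 * 9 w²` (because `nf (m, n) = (1 + 3 m - 3 n / 2)² + 27 n² / 4` and
`1 + 3 m - 3 n / 2 = 3 u`, `n = 6 w`), so `π (nf p * sc) t = π A u² + π B w²`; and
`1 + 3 m + 3 n zw ^ 2 = 3 u - 9 √3 i w` (`zw ^ 2` is the conjugate of `zw`, with the imaginary part `-√3 / 2`). So the sum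
over the `(m, n)` with `n % 6 = r` is (`HasSum.mul` of two absolutely convergent series, then
`Function.Injective.hasSum_iff` for `(m', k) ↦ (m' + 3 k, 6 k + r)`)
`zw ^ (-r) * (3 * oddKernel (1/3 - r/2) A * evenKernel (r/6) B - 9 √3 i * evenKernel (1/3 - r/2) A * oddKernel (r/6) B)`,
where `hasSum_int_oddKernel`, `hasSum_int_evenKernel` are the series of the kernels. In `UnitAddCircle`, `1/3 - r/2` is
`1/3 = 2/6` for even `r` and `-1/6` for odd `r`. With `oddKernel_neg`, `evenKernel_neg`, and `oddKernel (1/2) = 0`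
(`1/2 = -1/2`), the six values are
`r = 0: 3 od2A ev0B`; `r = 1: zw⁻¹ (-3 od1A ev1B - 9√3 i ev1A od1B)`; `r = 2: zw ^ (-2) (3 od2A ev2B - 9√3 i ev2A od2B)`;
`r = 3: -3 od1A ev3B`; `r = 4: zw ^ (-4) (3 od2A ev2B + 9√3 i ev2A od2B)`; `r = 5: zw ^ (-5) (-3 od1A ev1B + 9√3 i ev1A od1B)`.
With `zw ^ 3 = 1`, `zw + zw ^ 2 = -1`, `zw - zw ^ 2 = √3 i` the sum is `ff t`.

(`hasSum_res`, `hasSum_GG` in `MP_1a91b9_ntC/ThG.lean` and `ThD.hasSum` in `MP_1a91b9_ntC/L1.lean` are similar.)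
-/

set_option autoImplicit false

namespace Pool.Agent.Lib.MP_1a91b9_ntCR

open HurwitzZeta Real

private theorem TSum_s3 : (√3 : ℝ) * √3 = 3 := Real.mul_self_sqrt (by norm_num)

private theorem TSum_s3c : ((√3 : ℝ) : ℂ) * ((√3 : ℝ) : ℂ) = 3 := by
  rw [← Complex.ofReal_mul, TSum_s3]
  norm_num

private theorem TSum_zw : zw = -1 / 2 + ((√3 : ℝ) : ℂ) / 2 * Complex.I := by
  have h2 : ((√3 : ℝ) : ℂ) / 2 = ((√3 / 2 : ℝ) : ℂ) := by push_cast; ring
  have h1 : (-1 / 2 : ℂ) = ((-1 / 2 : ℝ) : ℂ) := by push_cast; ring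
  rw [h2, h1]
  apply Complex.ext
  · simp [zw]
  · simp [zw]

private theorem TSum_zw2 : zw ^ 2 = -1 / 2 - ((√3 : ℝ) : ℂ) / 2 * Complex.I := by
  rw [TSum_zw]
  have h1 := TSum_s3c
  have h2 := Complex.I_sq
  linear_combination (Complex.I ^ 2 / 4) * h1 + (3 / 4) * h2

private theorem TSum_zw3 : zw ^ 3 = 1 := by
  have h : zw ^ 3 = zw ^ 2 * zw := by ring
  rw [h, TSum_zw2, TSum_zw]
  have h1 := TSum_s3c
  have h2 := Complex.I_sq
  linear_combination (-(Complex.I ^ 2) / 4) * h1 - (3 / 4) * h2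

private theorem TSum_zw0 : zw ≠ 0 := by
  intro h
  have h1 := TSum_zw3
  rw [h] at h1
  norm_num at h1

private theorem TSum_zpow (k r : ℤ) : zw ^ (-(6 * k + r)) = zw ^ (-r) := by
  have h6 : zw ^ (6 : ℤ) = 1 := by
    have h : zw ^ (6 : ℤ) = (zw ^ 3) ^ 2 := by
      rw [← pow_mul]
      norm_cast
    rw [h, TSum_zw3, one_pow]
  have h1 : -(6 * k + r) = 6 * (-k) + -r := by ring
  rw [h1, zpow_add₀ TSum_zw0, zpow_mul, h6, one_zpow, one_mul]

private theorem TSum_term (r c m k : ℤ) (a b : ℝ) (ha : a = 1 / 3 - r / 2 + c) (hb : b = r / 6)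
    (t : ℝ) :
    cf (m + 3 * k + c, 6 * k + r) *
        ((rexp (-π * (nf (m + 3 * k + c, 6 * k + r) * sc) * t) : ℝ) : ℂ) =
      zw ^ (-r) * (3 * (((((m : ℝ) + a) * rexp (-π * ((m : ℝ) + a) ^ 2 * (2 * t / √3))) *
          rexp (-π * ((k : ℝ) + b) ^ 2 * (18 * √3 * t)) : ℝ) : ℂ) -
        9 * ((√3 : ℝ) : ℂ) * Complex.I * (((rexp (-π * ((m : ℝ) + a) ^ 2 * (2 * t / √3)) *
          (((k : ℝ) + b) * rexp (-π * ((k : ℝ) + b) ^ 2 * (18 * √3 * t)))) : ℝ) : ℂ)) := by
  have hs : (√3 : ℝ) ≠ 0 := by positivity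
  have e1 : rexp (-π * (nf (m + 3 * k + c, 6 * k + r) * sc) * t) =
      rexp (-π * ((m : ℝ) + a) ^ 2 * (2 * t / √3)) *
        rexp (-π * ((k : ℝ) + b) ^ 2 * (18 * √3 * t)) := by
    rw [← Real.exp_add]
    congr 1
    rw [ha, hb, sc, nf]
    push_cast
    field_simp
    have h3 : (√3 : ℝ) ^ 2 = 3 := Real.sq_sqrt (by norm_num)
    rw [h3]
    ring
  have e2 : cf (m + 3 * k + c, 6 * k + r) =
      zw ^ (-r) * (3 * ((m : ℂ) + (a : ℂ)) - 9 * ((√3 : ℝ) : ℂ) * Complex.I * ((k : ℂ) + (b : ℂ))) := by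
    rw [cf]
    show zw ^ (-(6 * k + r)) * _ = _
    rw [TSum_zpow, TSum_zw2, ha, hb]
    push_cast
    ring
  rw [e1, e2]
  push_cast
  ring

private theorem TSum_class (r c : ℤ) (a b : ℝ) (ha : a = 1 / 3 - r / 2 + c) (hb : b = r / 6)
    {t : ℝ} (ht : 0 < t) :
    HasSum (fun p : ℤ × ℤ => if (p.2 - r) % 6 = 0 then
        cf p * ((rexp (-π * (nf p * sc) * t) : ℝ) : ℂ) else 0)
      (zw ^ (-r) * (3 * ((oddKernel (a : UnitAddCircle) (2 * t / √3) *
          evenKernel (b : UnitAddCircle) (18 * √3 * t) : ℝ) : ℂ) -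
        9 * ((√3 : ℝ) : ℂ) * Complex.I * ((evenKernel (a : UnitAddCircle) (2 * t / √3) *
          oddKernel (b : UnitAddCircle) (18 * √3 * t) : ℝ) : ℂ))) := by
  have hA : 0 < 2 * t / √3 := by positivity
  have hB : 0 < 18 * √3 * t := by positivity
  have hoA := hasSum_int_oddKernel a hA
  have heA := hasSum_int_evenKernel a hA
  have hoB := hasSum_int_oddKernel b hB
  have heB := hasSum_int_evenKernel b hB
  have h1 := hoA.mul heB (summable_mul_of_summable_norm hoA.summable.norm heB.summable.norm)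
  have h2 := heA.mul hoB (summable_mul_of_summable_norm heA.summable.norm hoB.summable.norm)
  have h3 := (((Complex.hasSum_ofReal.mpr h1).mul_left 3).sub
    ((Complex.hasSum_ofReal.mpr h2).mul_left (9 * ((√3 : ℝ) : ℂ) * Complex.I))).mul_left (zw ^ (-r))
  have hinj : Function.Injective (fun q : ℤ × ℤ => (q.1 + 3 * q.2 + c, 6 * q.2 + r)) := by
    rintro ⟨x, y⟩ ⟨x', y'⟩ h
    rw [Prod.mk.injEq] at h
    obtain ⟨h4, h5⟩ := h
    simp only at h4 h5
    have h6 : y = y' := by omega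
    have h7 : x = x' := by omega
    rw [h6, h7]
  rw [← Function.Injective.hasSum_iff hinj]
  · refine h3.congr_fun fun q => ?_
    obtain ⟨m, k⟩ := q
    have h8 : (6 * k + r - r) % 6 = 0 := by omega
    show (if (6 * k + r - r) % 6 = 0 then _ else _) = _
    rw [if_pos h8]
    exact TSum_term r c m k a b ha hb t
  · rintro ⟨m, n⟩ hx
    rw [if_neg]
    intro h4
    apply hx
    refine ⟨(m - 3 * ((n - r) / 6) - c, (n - r) / 6), ?_⟩
    have h4' : (n - r) % 6 = 0 := h4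
    rw [Prod.mk.injEq]
    constructor
    · show m - 3 * ((n - r) / 6) - c + 3 * ((n - r) / 6) + c = m
      omega
    · show 6 * ((n - r) / 6) + r = n
      omega

private theorem TSum_half : (((1 / 2 : ℝ)) : UnitAddCircle) = -(((1 / 2 : ℝ)) : UnitAddCircle) := by
  rw [← AddCircle.coe_neg]
  have h : (1 / 2 : ℝ) = -(1 / 2) + 1 := by norm_num
  conv_lhs => rw [h]
  rw [AddCircle.coe_add, AddCircle.coe_period, add_zero]

private theorem TSum_odd_half (x : ℝ) : oddKernel (((1 / 2 : ℝ)) : UnitAddCircle) x = 0 := by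
  have h := oddKernel_neg (((1 / 2 : ℝ)) : UnitAddCircle) x
  rw [← TSum_half] at h
  linarith

private theorem TSum_congr {f : ℤ × ℤ → ℂ} {a b : ℂ} (h : HasSum f a) (e : a = b) : HasSum f b := by
  rw [← e]
  exact h

theorem hasSum_ff {t : ℝ} (ht : 0 < t) :
    HasSum (fun p : ℤ × ℤ => cf p * (rexp (-π * (nf p * sc) * t) : ℂ)) ((ff t : ℝ) : ℂ) := by
  have h0 := TSum_class 0 0 (1 / 3) 0 (by norm_num) (by norm_num) ht
  have h1 := TSum_class 1 0 (-(1 / 6)) (1 / 6) (by norm_num) (by norm_num) ht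
  have h2 := TSum_class 2 1 (1 / 3) (1 / 3) (by norm_num) (by norm_num) ht
  have h3 := TSum_class 3 1 (-(1 / 6)) (1 / 2) (by norm_num) (by norm_num) ht
  have h4 := TSum_class (-2) (-1) (1 / 3) (-(1 / 3)) (by norm_num) (by norm_num) ht
  have h5 := TSum_class (-1) (-1) (-(1 / 6)) (-(1 / 6)) (by norm_num) (by norm_num) ht
  have h := ((((h0.add h1).add h2).add h3).add h4).add h5
  have hf : (fun p : ℤ × ℤ => cf p * ((rexp (-π * (nf p * sc) * t) : ℝ) : ℂ)) = fun p : ℤ × ℤ =>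
      (if (p.2 - 0) % 6 = 0 then cf p * ((rexp (-π * (nf p * sc) * t) : ℝ) : ℂ) else 0) +
      (if (p.2 - 1) % 6 = 0 then cf p * ((rexp (-π * (nf p * sc) * t) : ℝ) : ℂ) else 0) +
      (if (p.2 - 2) % 6 = 0 then cf p * ((rexp (-π * (nf p * sc) * t) : ℝ) : ℂ) else 0) +
      (if (p.2 - 3) % 6 = 0 then cf p * ((rexp (-π * (nf p * sc) * t) : ℝ) : ℂ) else 0) +
      (if (p.2 - (-2)) % 6 = 0 then cf p * ((rexp (-π * (nf p * sc) * t) : ℝ) : ℂ) else 0) +
      (if (p.2 - (-1)) % 6 = 0 then cf p * ((rexp (-π * (nf p * sc) * t) : ℝ) : ℂ) else 0) := by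
    funext p
    generalize cf p * ((rexp (-π * (nf p * sc) * t) : ℝ) : ℂ) = T
    have h6 : p.2 % 6 = 0 ∨ p.2 % 6 = 1 ∨ p.2 % 6 = 2 ∨ p.2 % 6 = 3 ∨ p.2 % 6 = 4 ∨ p.2 % 6 = 5 := by
      omega
    rcases h6 with h7 | h7 | h7 | h7 | h7 | h7
    · rw [if_pos (by omega), if_neg (by omega), if_neg (by omega), if_neg (by omega),
        if_neg (by omega), if_neg (by omega)]
      ring
    · rw [if_neg (by omega), if_pos (by omega), if_neg (by omega), if_neg (by omega),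
        if_neg (by omega), if_neg (by omega)]
      ring
    · rw [if_neg (by omega), if_neg (by omega), if_pos (by omega), if_neg (by omega),
        if_neg (by omega), if_neg (by omega)]
      ring
    · rw [if_neg (by omega), if_neg (by omega), if_neg (by omega), if_pos (by omega),
        if_neg (by omega), if_neg (by omega)]
      ring
    · rw [if_neg (by omega), if_neg (by omega), if_neg (by omega), if_neg (by omega),
        if_pos (by omega), if_neg (by omega)]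
      ring
    · rw [if_neg (by omega), if_neg (by omega), if_neg (by omega), if_neg (by omega),
        if_neg (by omega), if_pos (by omega)]
      ring
  rw [hf]
  refine TSum_congr h ?_
  · have q2 : (((2 : ℕ) : ℝ) / 6) = 1 / 3 := by norm_num
    have q1 : (((1 : ℕ) : ℝ) / 6) = 1 / 6 := by norm_num
    have q0 : (((0 : ℕ) : ℝ) / 6) = 0 := by norm_num
    have q3 : (((3 : ℕ) : ℝ) / 6) = 1 / 2 := by norm_num
    rw [ff, od, od, od, od, ev, ev, ev, ev, ev, ev, q2, q1, q0, q3, TSum_odd_half,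
      AddCircle.coe_neg, AddCircle.coe_neg, oddKernel_neg, oddKernel_neg, oddKernel_neg,
      evenKernel_neg, evenKernel_neg, evenKernel_neg]
    have hz : oddKernel ((0 : ℝ) : UnitAddCircle) (18 * √3 * t) = 0 := by
      rw [AddCircle.coe_zero]
      exact oddKernel_zero _
    rw [hz]
    have z1 : zw ^ (-(1 : ℤ)) = zw ^ 2 := by
      have h6 : zw ^ 2 * zw = 1 := by
        have := TSum_zw3
        linear_combination this
      rw [zpow_neg, zpow_one]
      exact (eq_inv_of_mul_eq_one_left h6).symm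
    have z2 : zw ^ (-(2 : ℤ)) = zw := by
      have h6 : zw * zw ^ 2 = 1 := by
        have := TSum_zw3
        linear_combination this
      rw [zpow_neg]
      have h7 : zw ^ (2 : ℤ) = zw ^ 2 := by norm_cast
      rw [h7]
      exact (eq_inv_of_mul_eq_one_left h6).symm
    have z3 : zw ^ (-(3 : ℤ)) = 1 := by
      rw [zpow_neg]
      have h7 : zw ^ (3 : ℤ) = zw ^ 3 := by norm_cast
      rw [h7, TSum_zw3, inv_one]
    have z4 : zw ^ (-(-2 : ℤ)) = zw ^ 2 := by
      rw [neg_neg]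
      norm_cast
    have z5 : zw ^ (-(-1 : ℤ)) = zw := by
      rw [neg_neg, zpow_one]
    have z0 : zw ^ (-(0 : ℤ)) = 1 := by
      rw [neg_zero, zpow_zero]
    rw [z0, z1, z2, z3, z4, z5, TSum_zw2, TSum_zw]
    have h8 := TSum_s3c
    have h9 := Complex.I_sq
    generalize oddKernel ((1 / 6 : ℝ) : UnitAddCircle) (2 * t / √3) = oA1
    generalize oddKernel ((1 / 3 : ℝ) : UnitAddCircle) (2 * t / √3) = oA2
    generalize evenKernel ((1 / 6 : ℝ) : UnitAddCircle) (2 * t / √3) = eA1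
    generalize evenKernel ((1 / 3 : ℝ) : UnitAddCircle) (2 * t / √3) = eA2
    generalize oddKernel ((1 / 6 : ℝ) : UnitAddCircle) (18 * √3 * t) = oB1
    generalize oddKernel ((1 / 3 : ℝ) : UnitAddCircle) (18 * √3 * t) = oB2
    generalize evenKernel ((0 : ℝ) : UnitAddCircle) (18 * √3 * t) = eB0
    generalize evenKernel ((1 / 6 : ℝ) : UnitAddCircle) (18 * √3 * t) = eB1
    generalize evenKernel ((1 / 3 : ℝ) : UnitAddCircle) (18 * √3 * t) = eB2
    generalize evenKernel ((1 / 2 : ℝ) : UnitAddCircle) (18 * √3 * t) = eB3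
    push_cast
    linear_combination (9 * Complex.I ^ 2 * ((eA1 : ℂ) * oB1 - (eA2 : ℂ) * oB2)) * h8 +
      (27 * ((eA1 : ℂ) * oB1 - (eA2 : ℂ) * oB2)) * h9

end Pool.Agent.Lib.MP_1a91b9_ntCR
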